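import Pool.Agent.H55.LAM.Crit

/-!
Complete monotonicity of `1/h`.
-/

open Set Polynomial Filter Topology MeasureTheory

namespace Pool.Agent.LAM55

theorem pow_exp_bd (n : ℕ) (δ : ℝ) (hδ : 0 < δ) (u : ℝ) (hu : 0 ≤ u) :
    u ^ n * Real.exp (-δ * u) ≤ (((n : ℝ) + 1) / δ) ^ n := by
  have hn : (0:ℝ) < (n : ℝ) + 1 := by positivity
  have h1 : δ * u / ((n : ℝ) + 1) ≤ Real.exp (δ * u / ((n : ℝ) + 1)) := by
    have := Real.add_one_le_exp (δ * u / ((n : ℝ) + 1)); linarith
  have h2 : u ≤ (((n : ℝ) + 1) / δ) * Real.exp (δ * u / ((n : ℝ) + 1)) := by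
    have h3 : u = (((n : ℝ) + 1) / δ) * (δ * u / ((n : ℝ) + 1)) := by field_simp
    conv_lhs => rw [h3]
    exact mul_le_mul_of_nonneg_left h1 (by positivity)
  have h4 : u ^ n ≤ (((n : ℝ) + 1) / δ) ^ n * Real.exp (δ * u) := by
    calc u ^ n ≤ ((((n : ℝ) + 1) / δ) * Real.exp (δ * u / ((n : ℝ) + 1))) ^ n := pow_le_pow_left₀ hu h2 n
      _ = (((n : ℝ) + 1) / δ) ^ n * Real.exp (n * (δ * u / ((n : ℝ) + 1))) := by
          rw [mul_pow, ← Real.exp_nat_mul]
      _ ≤ (((n : ℝ) + 1) / δ) ^ n * Real.exp (δ * u) := by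
          apply mul_le_mul_of_nonneg_left _ (by positivity)
          apply Real.exp_le_exp.2
          have h5 : (n : ℝ) * (δ * u / ((n : ℝ) + 1)) = (δ * u) * ((n : ℝ) / ((n : ℝ) + 1)) := by ring
          rw [h5]
          have h6 : (n : ℝ) / ((n : ℝ) + 1) ≤ 1 := by rw [div_le_one hn]; linarith
          calc (δ * u) * ((n : ℝ) / ((n : ℝ) + 1)) ≤ (δ * u) * 1 :=
                mul_le_mul_of_nonneg_left h6 (by positivity)
            _ = δ * u := mul_one _
  have h7 : Real.exp (-δ * u) * Real.exp (δ * u) = 1 := by rw [← Real.exp_add]; simp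
  calc u ^ n * Real.exp (-δ * u) ≤ ((((n : ℝ) + 1) / δ) ^ n * Real.exp (δ * u)) * Real.exp (-δ * u) :=
        mul_le_mul_of_nonneg_right h4 (Real.exp_pos _).le
    _ = (((n : ℝ) + 1) / δ) ^ n * (Real.exp (-δ * u) * Real.exp (δ * u)) := by ring
    _ = (((n : ℝ) + 1) / δ) ^ n := by rw [h7, mul_one]

theorem pow_int (g : ℝ → ℝ) (A : ℝ)
    (hL : ∀ s : ℝ, A < s → IntegrableOn (fun u : ℝ => Real.exp (-s * u) * g u) (Ioi 0))
    (n : ℕ) (x : ℝ) (hx : A < x) :
    IntegrableOn (fun u : ℝ => u ^ n * (Real.exp (-x * u) * g u)) (Ioi 0) := by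
  set δ : ℝ := (x - A) / 2 with hδ
  have hδ0 : 0 < δ := by rw [hδ]; linarith
  have h1 := hL (x - δ) (by rw [hδ]; linarith)
  have heq : (fun u : ℝ => u ^ n * (Real.exp (-x * u) * g u)) =
      fun u : ℝ => (u ^ n * Real.exp (-δ * u)) * (Real.exp (-(x - δ) * u) * g u) := by
    funext u
    have : Real.exp (-x * u) = Real.exp (-δ * u) * Real.exp (-(x - δ) * u) := by
      rw [← Real.exp_add]; congr 1; ring
    rw [this]; ring
  rw [heq]
  apply Integrable.bdd_mul (c := (((n : ℝ) + 1) / δ) ^ n) h1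
  · apply Continuous.aestronglyMeasurable; fun_prop
  · filter_upwards [ae_restrict_mem measurableSet_Ioi] with u hu
    rw [Real.norm_eq_abs, abs_of_nonneg (mul_nonneg (pow_nonneg (le_of_lt hu) _) (Real.exp_pos _).le)]
    exact pow_exp_bd n δ hδ0 u (le_of_lt hu)

theorem hasDeriv_lap (g : ℝ → ℝ) (A : ℝ)
    (hL : ∀ s : ℝ, A < s → IntegrableOn (fun u : ℝ => Real.exp (-s * u) * g u) (Ioi 0))
    (n : ℕ) (x : ℝ) (hx : A < x) :
    HasDerivAt (fun y : ℝ => ∫ u in Ioi (0:ℝ), u ^ n * (Real.exp (-y * u) * g u))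
      (-∫ u in Ioi (0:ℝ), u ^ (n + 1) * (Real.exp (-x * u) * g u)) x := by
  set δ : ℝ := (x - A) / 2 with hδ
  have hδ0 : 0 < δ := by rw [hδ]; linarith
  have hint : ∀ m : ℕ, ∀ y : ℝ, A < y → Integrable (fun u : ℝ => u ^ m * (Real.exp (-y * u) * g u)) (volume.restrict (Ioi 0)) :=
    fun m y hy => pow_int g A hL m y hy
  have key := hasDerivAt_integral_of_dominated_loc_of_deriv_le (μ := volume.restrict (Ioi 0)) (𝕜 := ℝ)
    (F := fun y u : ℝ => u ^ n * (Real.exp (-y * u) * g u))
    (F' := fun y u : ℝ => -(u ^ (n + 1) * (Real.exp (-y * u) * g u)))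
    (bound := fun u : ℝ => ‖u ^ (n + 1) * (Real.exp (-(x - δ) * u) * g u)‖) (x₀ := x)
    (s := Metric.ball x δ) (Metric.ball_mem_nhds x hδ0) ?_ (hint n x hx) ?_ ?_ ?_ ?_
  · have := key.2
    rw [integral_neg] at this
    exact this
  · filter_upwards [Ioi_mem_nhds hx] with y hy using (hint n y hy).aestronglyMeasurable
  · exact (hint (n + 1) x hx).aestronglyMeasurable.neg
  · filter_upwards [ae_restrict_mem measurableSet_Ioi] with u hu y hy
    rw [norm_neg, norm_mul, norm_mul, norm_mul, norm_mul]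
    apply mul_le_mul_of_nonneg_left _ (norm_nonneg _)
    apply mul_le_mul_of_nonneg_right _ (norm_nonneg _)
    rw [Real.norm_eq_abs, Real.norm_eq_abs, abs_of_pos (Real.exp_pos _), abs_of_pos (Real.exp_pos _)]
    apply Real.exp_le_exp.2
    rw [Metric.mem_ball, Real.dist_eq] at hy
    have h1 := (abs_lt.1 hy).1
    have h2 : (0:ℝ) < u := hu
    nlinarith
  · exact (hint (n + 1) (x - δ) (by rw [hδ]; linarith)).norm
  · filter_upwards with u y _
    have h1 : HasDerivAt (fun y : ℝ => Real.exp (-y * u)) (Real.exp (-y * u) * (-1 * u)) y := by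
      have h2 : HasDerivAt (fun y : ℝ => -y * u) (-1 * u) y := ((hasDerivAt_id y).neg).mul_const u
      exact h2.exp
    have h3 := (h1.mul_const (g u)).const_mul (u ^ n)
    have h4 : -(u ^ (n + 1) * (Real.exp (-y * u) * g u)) = u ^ n * (Real.exp (-y * u) * (-1 * u) * g u) := by ring
    rw [h4]
    exact h3

theorem iterDeriv_lap (f : ℝ → ℝ) (g : ℝ → ℝ) (A : ℝ)
    (hL : ∀ s : ℝ, A < s → IntegrableOn (fun u : ℝ => Real.exp (-s * u) * g u) (Ioi 0))
    (hf : ∀ s : ℝ, A < s → ∫ u in Ioi (0:ℝ), Real.exp (-s * u) * g u = f s) (n : ℕ) :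
    ∀ x : ℝ, A < x → (-1) ^ n * iteratedDeriv n f x = ∫ u in Ioi (0:ℝ), u ^ n * (Real.exp (-x * u) * g u) := by
  induction n with
  | zero =>
    intro x hx
    rw [iteratedDeriv_zero, pow_zero, one_mul, ← hf x hx]
    simp
  | succ n ih =>
    intro x hx
    rw [iteratedDeriv_succ]
    have h1 : iteratedDeriv n f =ᶠ[𝓝 x] fun y => (-1) ^ n * ∫ u in Ioi (0:ℝ), u ^ n * (Real.exp (-y * u) * g u) := by
      filter_upwards [Ioi_mem_nhds hx] with y hy
      rw [← ih y hy, ← mul_assoc, ← pow_add, ← two_mul, pow_mul]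
      simp
    rw [h1.deriv_eq]
    have h2 := ((hasDeriv_lap g A hL n x hx).const_mul ((-1:ℝ) ^ n)).deriv
    rw [h2]
    have h3 : (-1:ℝ) ^ (n + 1) * ((-1) ^ n * -∫ u in Ioi (0:ℝ), u ^ (n + 1) * (Real.exp (-x * u) * g u))
        = ((-1:ℝ) ^ 2) ^ n * ∫ u in Ioi (0:ℝ), u ^ (n + 1) * (Real.exp (-x * u) * g u) := by
      rw [← pow_mul, pow_succ, two_mul, pow_add]; ring
    rw [h3]; simp

/-- the positive kernel peaked at `u0` -/
theorem peak (g : ℝ → ℝ) (hg : Continuous g) (A : ℝ)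
    (hL : ∀ s : ℝ, A < s → IntegrableOn (fun u : ℝ => Real.exp (-s * u) * g u) (Ioi 0))
    (hpos : ∀ n : ℕ, ∀ x : ℝ, A < x → 0 ≤ x → 0 ≤ ∫ u in Ioi (0:ℝ), u ^ n * (Real.exp (-x * u) * g u))
    (u0 : ℝ) (hu0 : 0 < u0) : 0 ≤ g u0 := by
  by_contra hneg
  push Not at hneg
  set η : ℝ := -g u0 / 2 with hη
  have hη0 : 0 < η := by rw [hη]; linarith
  -- the kernel
  set w : ℝ → ℝ := fun u => u * Real.exp (-u / u0) with hw
  have hwc : Continuous w := by simp only [hw]; fun_prop
  have hder : ∀ u, HasDerivAt w (Real.exp (-u / u0) * (1 - u / u0)) u := by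
    intro u
    have h1 : HasDerivAt (fun u : ℝ => -u / u0) (-1 / u0) u := ((hasDerivAt_id u).neg).div_const u0
    have h2 : HasDerivAt w (1 * Real.exp (-u / u0) + u * (Real.exp (-u / u0) * (-1 / u0))) u :=
      (hasDerivAt_id u).mul h1.exp
    have h3 : Real.exp (-u / u0) * (1 - u / u0) = 1 * Real.exp (-u / u0) + u * (Real.exp (-u / u0) * (-1 / u0)) := by
      ring
    rw [h3]
    exact h2
  have hmono : StrictMonoOn w (Icc 0 u0) := by
    apply strictMonoOn_of_deriv_pos (convex_Icc 0 u0) hwc.continuousOn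
    intro u hu
    rw [interior_Icc] at hu
    rw [(hder u).deriv]
    apply mul_pos (Real.exp_pos _)
    rw [sub_pos, div_lt_one hu0]; exact hu.2
  have hanti : StrictAntiOn w (Ici u0) := by
    apply strictAntiOn_of_deriv_neg (convex_Ici u0) hwc.continuousOn
    intro u hu
    rw [interior_Ici] at hu
    rw [(hder u).deriv]
    apply mul_neg_of_pos_of_neg (Real.exp_pos _)
    rw [sub_neg, one_lt_div hu0]; exact hu
  have hw0 : ∀ u, 0 < u → 0 < w u := fun u hu => mul_pos hu (Real.exp_pos _)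
  -- neighbourhood where g < -η
  obtain ⟨δ1, hδ1, hball⟩ := Metric.eventually_nhds_iff.1
    (hg.continuousAt.eventually_lt_const (show g u0 < -η by rw [hη]; linarith))
  set δ : ℝ := min δ1 (u0 / 2) with hδ
  have hδ0 : 0 < δ := lt_min hδ1 (by linarith)
  have hδu : δ < u0 := (min_le_right _ _).trans_lt (by linarith)
  have hgδ : ∀ u, |u - u0| < δ → g u < -η := by
    intro u hu
    apply hball
    rw [Real.dist_eq]; exact hu.trans_le (min_le_left _ _)
  set mo : ℝ := max (w (u0 - δ)) (w (u0 + δ)) with hmo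
  have hmo0 : 0 < mo := lt_max_of_lt_left (hw0 _ (by linarith))
  have hmo1 : mo < w u0 := by
    rw [hmo, max_lt_iff]
    constructor
    · exact hmono ⟨by linarith, by linarith⟩ ⟨hu0.le, le_rfl⟩ (by linarith)
    · exact hanti (Set.mem_Ici.2 le_rfl) (Set.mem_Ici.2 (by linarith)) (by linarith)
  have hout : ∀ u, 0 < u → δ ≤ |u - u0| → w u ≤ mo := by
    intro u hu hd
    rcases le_total u u0 with h | h
    · rw [abs_of_nonpos (by linarith)] at hd
      refine le_trans ?_ (le_max_left _ _)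
      rcases eq_or_lt_of_le (show u ≤ u0 - δ by linarith) with h1 | h1
      · rw [h1]
      · exact (hmono ⟨hu.le, h⟩ ⟨by linarith, by linarith⟩ h1).le
    · rw [abs_of_nonneg (by linarith)] at hd
      refine le_trans ?_ (le_max_right _ _)
      rcases eq_or_lt_of_le (show u0 + δ ≤ u by linarith) with h1 | h1
      · rw [← h1]
      · exact (hanti (Set.mem_Ici.2 (by linarith)) (Set.mem_Ici.2 h) h1).le
  set mm : ℝ := (mo + w u0) / 2 with hmm
  have hmm1 : mo < mm := by rw [hmm]; linarith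
  have hmm0 : 0 < mm := hmo0.trans hmm1
  obtain ⟨δ2, hδ2, hball2⟩ := Metric.eventually_nhds_iff.1
    (hwc.continuousAt.eventually_const_lt (show mm < w u0 by rw [hmm]; linarith))
  set δ' : ℝ := min δ2 δ with hδ'
  have hδ'0 : 0 < δ' := lt_min hδ2 hδ0
  have hin : ∀ u, |u - u0| < δ' → mm < w u := by
    intro u hu
    apply hball2
    rw [Real.dist_eq]; exact hu.trans_le (min_le_left _ _)
  -- a starting exponent
  obtain ⟨n0, hn0⟩ := exists_nat_gt (A * u0)
  have hn0' : A < (n0 : ℝ) / u0 := by rw [lt_div_iff₀ hu0]; exact hn0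
  have hAn : ∀ n : ℕ, n0 ≤ n → A < (n : ℝ) / u0 := by
    intro n hn
    refine hn0'.trans_le ?_
    apply div_le_div_of_nonneg_right _ hu0.le
    exact_mod_cast hn
  have hker : ∀ n : ℕ, ∀ u : ℝ, u ^ n * (Real.exp (-((n : ℝ) / u0) * u) * g u) = (w u) ^ n * g u := by
    intro n u
    simp only [hw]
    rw [mul_pow, ← Real.exp_nat_mul]
    have : (n : ℝ) * (-u / u0) = -((n : ℝ) / u0) * u := by ring
    rw [this]; ring
  have hi : ∀ n : ℕ, n0 ≤ n → IntegrableOn (fun u => (w u) ^ n * g u) (Ioi 0) := by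
    intro n hn
    have h1 := pow_int g A hL n ((n : ℝ) / u0) (hAn n hn)
    simp_rw [hker n] at h1
    exact h1
  have hp : ∀ n : ℕ, n0 ≤ n → 0 ≤ ∫ u in Ioi (0:ℝ), (w u) ^ n * g u := by
    intro n hn
    have h1 := hpos n ((n : ℝ) / u0) (hAn n hn) (by positivity)
    simp_rw [hker n] at h1
    exact h1
  set W : ℝ := ∫ u in Ioi (0:ℝ), ‖(w u) ^ n0 * g u‖ with hW
  have hW0 : 0 ≤ W := integral_nonneg (fun u => norm_nonneg _)
  have hsub : Ioo (u0 - δ') (u0 + δ') ⊆ Ioi (0:ℝ) := by
    intro u hu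
    have h8 : δ' ≤ δ := min_le_right _ _
    simp only [Set.mem_Ioi]; linarith [hu.1]
  have hIi : ∀ C : ℝ, Integrable (Set.indicator (Ioo (u0 - δ') (u0 + δ')) (fun _ => C)) (volume.restrict (Ioi 0)) := by
    intro C
    rw [integrable_indicator_iff measurableSet_Ioo]
    apply integrableOn_const
    · rw [Measure.restrict_apply measurableSet_Ioo]
      exact ((measure_mono Set.inter_subset_left).trans_lt (by simp)).ne
    · exact enorm_ne_top
  have hIv : ∀ C : ℝ, ∫ u in Ioi (0:ℝ), Set.indicator (Ioo (u0 - δ') (u0 + δ')) (fun _ => C) u = 2 * δ' * C := by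
    intro C
    rw [setIntegral_indicator measurableSet_Ioo, Set.inter_eq_self_of_subset_right hsub, setIntegral_const,
      Real.volume_real_Ioo_of_le (by linarith), smul_eq_mul]
    ring
  -- upper bound
  have hub : ∀ j : ℕ, ∫ u in Ioi (0:ℝ), (w u) ^ (n0 + j) * g u ≤ mo ^ j * W - η * (2 * δ') * mm ^ (n0 + j) := by
    intro j
    have h1 : ∫ u in Ioi (0:ℝ), (w u) ^ (n0 + j) * g u ≤
        ∫ u in Ioi (0:ℝ), (mo ^ j * ‖(w u) ^ n0 * g u‖ - (Set.indicator (Ioo (u0 - δ') (u0 + δ')) (fun _ => η * mm ^ (n0 + j)) u)) := by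
      apply setIntegral_mono_on (hi _ (by omega))
      · apply Integrable.sub
        · exact ((hi n0 le_rfl).norm).const_mul _
        · exact hIi _
      · exact measurableSet_Ioi
      · intro u hu
        have hu' : (0:ℝ) < u := hu
        have hwu := hw0 u hu'
        by_cases h2 : |u - u0| < δ
        · have h3 := hgδ u h2
          have h4 : (w u) ^ (n0 + j) * g u ≤ -(Set.indicator (Ioo (u0 - δ') (u0 + δ')) (fun _ => η * mm ^ (n0 + j)) u) := by
            by_cases h5 : u ∈ Ioo (u0 - δ') (u0 + δ')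
            · rw [Set.indicator_of_mem h5]
              have h6 : mm < w u := hin u (by rw [abs_lt]; constructor <;> linarith [h5.1, h5.2])
              have h7 : mm ^ (n0 + j) ≤ (w u) ^ (n0 + j) := pow_le_pow_left₀ hmm0.le h6.le _
              have h8 : 0 < mm ^ (n0 + j) := by positivity
              nlinarith
            · rw [Set.indicator_of_notMem h5, neg_zero]
              apply mul_nonpos_of_nonneg_of_nonpos (by positivity)
              linarith
          have h9 : 0 ≤ mo ^ j * ‖(w u) ^ n0 * g u‖ := by positivity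
          linarith
        · push Not at h2
          have h5 : u ∉ Ioo (u0 - δ') (u0 + δ') := by
            intro h6
            have h7 : |u - u0| < δ' := by rw [abs_lt]; constructor <;> linarith [h6.1, h6.2]
            have h8 : δ' ≤ δ := min_le_right _ _
            linarith
          rw [Set.indicator_of_notMem h5, sub_zero]
          have h6 : (w u) ^ j ≤ mo ^ j := pow_le_pow_left₀ hwu.le (hout u hu' h2) j
          calc (w u) ^ (n0 + j) * g u = (w u) ^ j * ((w u) ^ n0 * g u) := by rw [pow_add]; ring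
            _ ≤ (w u) ^ j * ‖(w u) ^ n0 * g u‖ :=
                mul_le_mul_of_nonneg_left (le_abs_self _) (by positivity)
            _ ≤ mo ^ j * ‖(w u) ^ n0 * g u‖ := mul_le_mul_of_nonneg_right h6 (norm_nonneg _)
    rw [integral_sub (((hi n0 le_rfl).norm).const_mul _) (hIi _), integral_const_mul, hIv, ← hW] at h1
    have h2 : η * (2 * δ') * mm ^ (n0 + j) = 2 * δ' * (η * mm ^ (n0 + j)) := by ring
    rw [h2]; exact h1
  obtain ⟨j, hj⟩ := exists_pow_lt_of_lt_one (show 0 < η * (2 * δ') * mm ^ n0 / (W + 1) by positivity)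
    (show mo / mm < 1 by rw [div_lt_one hmm0]; exact hmm1)
  rw [div_pow, div_lt_div_iff₀ (by positivity) (by linarith)] at hj
  have h1 := hub j
  have h2 := hp (n0 + j) (by omega)
  have h3 : mo ^ j * W ≤ mo ^ j * (W + 1) := mul_le_mul_of_nonneg_left (by linarith) (by positivity)
  have h4 : η * (2 * δ') * mm ^ n0 * mm ^ j = η * (2 * δ') * mm ^ (n0 + j) := by rw [pow_add]; ring
  linarith

/-- the criterion: three equivalent conditions -/
theorem crit3 (h : ℝ[X]) (hd : 0 < h.natDegree) (hpos : ∀ k : ℕ, 0 < h.eval (k : ℝ)) :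
    ∃ g : ℝ → ℝ, Continuous g ∧
      (∀ s : ℝ, (∀ z : ℂ, aeval z h = 0 → z.re < s) →
        IntegrableOn (fun u : ℝ => Real.exp (-s * u) * g u) (Ioi 0) ∧
        ∫ u in Ioi (0:ℝ), Real.exp (-s * u) * g u = 1 / h.eval s) ∧
      List.TFAE [IsLambda (fun k => 1 / h.eval (k : ℝ)),
        (∀ z : ℂ, aeval z h = 0 → z.re < 0) ∧ ∀ u : ℝ, 0 < u → 0 ≤ g u,
        (∀ x : ℝ, 0 ≤ x → 0 < h.eval x) ∧
          ∀ (n : ℕ) (x : ℝ), 0 ≤ x → 0 ≤ (-1) ^ n * iteratedDeriv n (fun y => 1 / h.eval y) x] := by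
  obtain ⟨g, hgc, hgC, hg, hcrit⟩ := crit h hd hpos
  refine ⟨g, hgc, hg, ?_⟩
  have hHne : h ≠ 0 := by rintro rfl; simp at hd
  have hmem : ∀ z : ℂ, aeval z h = 0 ↔ z ∈ (h.map (algebraMap ℝ ℂ)).roots.toFinset := by
    intro z
    rw [Multiset.mem_toFinset, mem_roots', aeval_def, ← eval_map]
    constructor
    · intro h1
      refine ⟨?_, h1⟩
      rw [Ne, Polynomial.map_eq_zero]; exact hHne
    · intro h1; exact h1.2
  obtain ⟨z0, hz0⟩ : ∃ z : ℂ, aeval z h = 0 :=
    IsAlgClosed.exists_aeval_eq_zero _ h (natDegree_pos_iff_degree_pos.1 hd).ne'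
  obtain ⟨z, hz, hmax⟩ := Finset.exists_max_image (h.map (algebraMap ℝ ℂ)).roots.toFinset Complex.re ⟨z0, (hmem z0).1 hz0⟩
  rw [← hmem] at hz
  have hA : ∀ w : ℂ, aeval w h = 0 → w.re ≤ z.re := fun w hw => hmax w ((hmem w).1 hw)
  have hLi : ∀ s : ℝ, z.re < s → IntegrableOn (fun u : ℝ => Real.exp (-s * u) * g u) (Ioi 0) :=
    fun s hs => (hg s (fun w hw => (hA w hw).trans_lt hs)).1
  have hLf : ∀ s : ℝ, z.re < s → ∫ u in Ioi (0:ℝ), Real.exp (-s * u) * g u = (fun y => 1 / h.eval y) s :=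
    fun s hs => (hg s (fun w hw => (hA w hw).trans_lt hs)).2
  have hder := iterDeriv_lap (fun y => 1 / h.eval y) g z.re hLi hLf
  tfae_have 1 ↔ 2 := hcrit
  tfae_have 2 → 3 := by
    rintro ⟨hneg, hg0⟩
    have hzneg := hneg z hz
    constructor
    · intro x hx
      have hcont : ContinuousOn (fun x : ℝ => h.eval x) (Icc 0 x) := h.continuous.continuousOn
      by_contra hle
      push Not at hle
      have h0 : 0 < h.eval 0 := by simpa using hpos 0
      obtain ⟨y, hy, hy0⟩ := intermediate_value_Icc' hx hcont ⟨hle, h0.le⟩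
      have := hneg (y : ℂ) (by rw [aeval_ofReal']; simp only at hy0; rw [hy0]; simp)
      simp at this
      linarith [hy.1]
    · intro n x hx
      rw [hder n x (by linarith)]
      apply setIntegral_nonneg measurableSet_Ioi
      intro u hu
      exact mul_nonneg (pow_nonneg (le_of_lt hu) _) (mul_nonneg (Real.exp_pos _).le (hg0 u hu))
  tfae_have 3 → 2 := by
    rintro ⟨hp, hcm⟩
    have hg0 : ∀ u : ℝ, 0 < u → 0 ≤ g u := by
      intro u hu
      apply peak g hgc z.re hLi _ u hu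
      intro n x hx hx0
      rw [← hder n x hx]
      exact hcm n x hx0
    refine ⟨?_, hg0⟩
    have hzneg : z.re < 0 := by
      by_contra hge
      push Not at hge
      -- |h(σ + iτ)| ≥ h(σ) for σ > z.re
      have hint : ∀ σ : ℝ, z.re < σ → h.eval σ ≤ ‖aeval ((σ : ℂ) + z.im * Complex.I) h‖ := by
        intro σ hσ
        have hhσ : 0 < h.eval σ := hp σ (by linarith)
        obtain ⟨h1, h2⟩ := hgC ((σ : ℂ) + z.im * Complex.I) (by
          intro w hw
          have := hA w hw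
          simp; linarith)
        have h3 : ‖(aeval ((σ : ℂ) + z.im * Complex.I) h)⁻¹‖ ≤ (h.eval σ)⁻¹ := by
          have hLσ : ∫ u in Ioi (0:ℝ), Real.exp (-σ * u) * g u = 1 / h.eval σ := hLf σ hσ
          rw [← h2, ← one_div, ← hLσ, ← integral_indicator measurableSet_Ioi]
          apply norm_integral_le_of_norm_le
          · rw [integrable_indicator_iff measurableSet_Ioi]; exact hLi σ hσ
          · filter_upwards with u
            by_cases hu : u ∈ Ioi (0:ℝ)
            · rw [Set.indicator_of_mem hu, Set.indicator_of_mem hu, norm_mul, Complex.norm_exp, Complex.norm_real,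
                Real.norm_eq_abs, abs_of_nonneg (hg0 u hu)]
              apply mul_le_mul_of_nonneg_right _ (hg0 u hu)
              apply Real.exp_le_exp.2
              simp
            · rw [Set.indicator_of_notMem hu, Set.indicator_of_notMem hu, mul_zero, norm_zero]
        rw [norm_inv] at h3
        have h4 : aeval ((σ : ℂ) + z.im * Complex.I) h ≠ 0 := by
          intro h0
          have := hA _ h0
          simp at this; linarith
        exact (inv_le_inv₀ (norm_pos_iff.2 h4) hhσ).1 h3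
      have hzz : (z.re : ℂ) + z.im * Complex.I = z := Complex.re_add_im z
      have c1 : Tendsto (fun σ : ℝ => h.eval σ) (𝓝[>] z.re) (𝓝 (h.eval z.re)) :=
        (h.continuous.tendsto _).mono_left nhdsWithin_le_nhds
      have c2 : Continuous (fun σ : ℝ => ‖aeval ((σ : ℂ) + z.im * Complex.I) h‖) := by
        apply Continuous.norm
        simp only [aeval_def, ← eval_map]
        apply (h.map (algebraMap ℝ ℂ)).continuous.comp
        fun_prop
      have c3 : Tendsto (fun σ : ℝ => ‖aeval ((σ : ℂ) + z.im * Complex.I) h‖) (𝓝[>] z.re)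
          (𝓝 (‖aeval ((z.re : ℂ) + z.im * Complex.I) h‖)) := (c2.tendsto _).mono_left nhdsWithin_le_nhds
      rw [hzz, hz, norm_zero] at c3
      have h5 : h.eval z.re ≤ 0 := by
        apply le_of_tendsto_of_tendsto c1 c3
        filter_upwards [self_mem_nhdsWithin] with σ hσ using hint σ hσ
      have h6 := hp z.re hge
      linarith
    intro w hw
    exact (hA w hw).trans_lt hzneg
  tfae_finish

end Pool.Agent.LAM55
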