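import Mathlib

/-!
Positivity of a polynomial functional on `[0,1]` transfers to its Laplace density.
-/

open MeasureTheory Set Polynomial Filter Topology

namespace Pool.Agent.LAM55

section
variable (Lam : ℝ[X] →ₗ[ℝ] ℝ)
  (g : ℝ → ℂ) (A : ℝ)

theorem core_poly (hint : ∀ s : ℂ, A < s.re → Integrable (fun u : ℝ => Complex.exp (-s * u) * g u))
    (hmom : ∀ k : ℕ, A < (k : ℝ) → ∫ u : ℝ, Complex.exp (-(k : ℂ) * u) * g u = ((Lam (X ^ k) : ℝ) : ℂ))
    (m : ℕ) (hm : A < m) (p : ℝ[X]) :
    Integrable (fun u : ℝ => ((p.eval (Real.exp (-u)) : ℝ) : ℂ) * (Complex.exp (-(m : ℂ) * u) * g u)) ∧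
    ∫ u : ℝ, ((p.eval (Real.exp (-u)) : ℝ) : ℂ) * (Complex.exp (-(m : ℂ) * u) * g u)
      = ((Lam (X ^ m * p) : ℝ) : ℂ) := by
  induction p using Polynomial.induction_on' with
  | add p q hp hq =>
    have heq : (fun u : ℝ => (((p + q).eval (Real.exp (-u)) : ℝ) : ℂ) * (Complex.exp (-(m : ℂ) * u) * g u))
      = (fun u : ℝ => ((p.eval (Real.exp (-u)) : ℝ) : ℂ) * (Complex.exp (-(m : ℂ) * u) * g u)) +
        (fun u : ℝ => ((q.eval (Real.exp (-u)) : ℝ) : ℂ) * (Complex.exp (-(m : ℂ) * u) * g u)) := by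
      funext u
      simp only [eval_add, Complex.ofReal_add, Pi.add_apply]
      ring
    rw [heq]
    refine ⟨hp.1.add hq.1, ?_⟩
    rw [integral_add' hp.1 hq.1, hp.2, hq.2, mul_add, map_add, Complex.ofReal_add]
  | monomial k a =>
    have hmk : A < ((m + k : ℕ) : ℂ).re := by
      simp only [Nat.cast_add, Complex.add_re, Complex.natCast_re]
      have : (0:ℝ) ≤ k := Nat.cast_nonneg k
      linarith
    have hmk' : A < ((m + k : ℕ) : ℝ) := by
      have : (0:ℝ) ≤ k := Nat.cast_nonneg k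
      push_cast; linarith
    have heq : (fun u : ℝ => (((monomial k a).eval (Real.exp (-u)) : ℝ) : ℂ) * (Complex.exp (-(m : ℂ) * u) * g u))
      = (fun u : ℝ => (a : ℂ) * (Complex.exp (-((m + k : ℕ) : ℂ) * u) * g u)) := by
      funext u
      have : Complex.exp (-((m + k : ℕ) : ℂ) * u) = Complex.exp (-(m : ℂ) * u) * (Complex.exp (-(u:ℂ))) ^ k := by
        rw [← Complex.exp_nat_mul, ← Complex.exp_add]
        congr 1; push_cast; ring
      rw [this]
      simp only [eval_monomial, Complex.ofReal_mul, Complex.ofReal_pow, Complex.ofReal_exp, Complex.ofReal_neg]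
      ring
    rw [heq]
    refine ⟨(hint _ hmk).const_mul _, ?_⟩
    rw [integral_const_mul, hmom _ hmk']
    have : (X ^ m * monomial k a : ℝ[X]) = a • X ^ (m + k) := by
      rw [← C_mul_X_pow_eq_monomial, smul_eq_C_mul]; ring
    rw [this, map_smul, smul_eq_mul, Complex.ofReal_mul]

theorem core_bd (hpos : ∀ p : ℝ[X], (∀ t ∈ Icc (0:ℝ) 1, 0 ≤ p.eval t) → 0 ≤ Lam p)
    (hg0 : ∀ u, u < 0 → g u = 0)
    (hint : ∀ s : ℂ, A < s.re → Integrable (fun u : ℝ => Complex.exp (-s * u) * g u))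
    (hmom : ∀ k : ℕ, A < (k : ℝ) → ∫ u : ℝ, Complex.exp (-(k : ℂ) * u) * g u = ((Lam (X ^ k) : ℝ) : ℂ))
    (m : ℕ) (hm : A < m) (f : ℝ → ℝ) (hf : Continuous f)
    (hfi : Integrable (fun u : ℝ => ((f (Real.exp (-u)) : ℝ) : ℂ) * (Complex.exp (-(m : ℂ) * u) * g u))) :
    ((∀ t ∈ Icc (0:ℝ) 1, 0 ≤ f t) →
      0 ≤ (∫ u : ℝ, ((f (Real.exp (-u)) : ℝ) : ℂ) * (Complex.exp (-(m : ℂ) * u) * g u)).re) ∧
    ∀ M : ℝ, ((∀ t ∈ Icc (0:ℝ) 1, t ^ m * f t ≤ M) →
      (∫ u : ℝ, ((f (Real.exp (-u)) : ℝ) : ℂ) * (Complex.exp (-(m : ℂ) * u) * g u)).re ≤ M * Lam 1) := by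
  have hm' : A < ((m : ℂ)).re := by simpa using hm
  set w : ℝ → ℂ := fun u => Complex.exp (-(m : ℂ) * u) * g u with hw
  have hwi : Integrable w := hint _ hm'
  set W : ℝ := ∫ u, ‖w u‖ with hW
  have hW0 : 0 ≤ W := integral_nonneg (fun u => norm_nonneg _)
  have key : ∀ (q : ℝ[X]) (δ : ℝ), 0 ≤ δ → (∀ t ∈ Icc (0:ℝ) 1, |q.eval t - f t| ≤ δ) →
      |Lam (X ^ m * q) - (∫ u : ℝ, ((f (Real.exp (-u)) : ℝ) : ℂ) * w u).re| ≤ δ * W := by
    intro q δ hδ hq
    obtain ⟨h1, h2⟩ := core_poly Lam g A hint hmom m hm q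
    have h3 : ((Lam (X ^ m * q) : ℝ) : ℂ) - (∫ u : ℝ, ((f (Real.exp (-u)) : ℝ) : ℂ) * w u)
        = ∫ u : ℝ, (((q.eval (Real.exp (-u)) : ℝ) : ℂ) * w u - ((f (Real.exp (-u)) : ℝ) : ℂ) * w u) := by
      rw [integral_sub h1 hfi, ← h2]
    have h4 : ‖∫ u : ℝ, (((q.eval (Real.exp (-u)) : ℝ) : ℂ) * w u - ((f (Real.exp (-u)) : ℝ) : ℂ) * w u)‖
        ≤ ∫ u : ℝ, δ * ‖w u‖ := by
      apply norm_integral_le_of_norm_le (hwi.norm.const_mul δ)
      filter_upwards with u
      by_cases hu : u < 0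
      · have : w u = 0 := by simp only [hw]; rw [hg0 u hu, mul_zero]
        rw [this]; simp
      · rw [← sub_mul, norm_mul, ← Complex.ofReal_sub, Complex.norm_real, Real.norm_eq_abs]
        apply mul_le_mul_of_nonneg_right _ (norm_nonneg _)
        apply hq
        refine ⟨(Real.exp_pos _).le, ?_⟩
        rw [Real.exp_le_one_iff]; linarith
    rw [integral_const_mul] at h4
    rw [← h3] at h4
    have h5 := (Complex.abs_re_le_norm (((Lam (X ^ m * q) : ℝ) : ℂ) - (∫ u : ℝ, ((f (Real.exp (-u)) : ℝ) : ℂ) * w u))).trans h4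
    simpa using h5
  constructor
  · intro hf0
    by_contra hneg
    push Not at hneg
    set J := (∫ u : ℝ, ((f (Real.exp (-u)) : ℝ) : ℂ) * w u).re with hJ
    set ε : ℝ := -J / (4 * (W + 1)) with hε
    have hε0 : 0 < ε := by rw [hε]; apply div_pos <;> linarith
    obtain ⟨p, hp⟩ := exists_polynomial_near_of_continuousOn 0 1 f hf.continuousOn ε hε0
    have hq : ∀ t ∈ Icc (0:ℝ) 1, |(p + C ε).eval t - f t| ≤ 2 * ε := by
      intro t ht
      have := abs_lt.1 (hp t ht)
      rw [eval_add, eval_C, abs_le]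
      constructor <;> linarith [this.1, this.2]
    have h1 := key (p + C ε) (2 * ε) (by linarith) hq
    have h2 : 0 ≤ Lam (X ^ m * (p + C ε)) := by
      apply hpos
      intro t ht
      rw [eval_mul, eval_pow, eval_X, eval_add, eval_C]
      apply mul_nonneg (pow_nonneg ht.1 _)
      have := abs_lt.1 (hp t ht)
      linarith [this.1, hf0 t ht]
    have h3 := (abs_le.1 h1).2
    have h4 : 2 * ε * W < -J := by
      rw [hε]
      have : 2 * (-J / (4 * (W + 1))) * W = -J * (W / (2 * (W + 1))) := by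
        field_simp; ring
      rw [this]
      have h5 : W / (2 * (W + 1)) < 1 := by
        rw [div_lt_one (by linarith)]; linarith
      nlinarith
    linarith
  · intro M hM
    by_contra hneg
    push Not at hneg
    set J := (∫ u : ℝ, ((f (Real.exp (-u)) : ℝ) : ℂ) * w u).re with hJ
    set ε : ℝ := (J - M * Lam 1) / (4 * (W + 1)) with hε
    have hε0 : 0 < ε := by rw [hε]; apply div_pos <;> linarith
    obtain ⟨p, hp⟩ := exists_polynomial_near_of_continuousOn 0 1 f hf.continuousOn ε hε0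
    have hq : ∀ t ∈ Icc (0:ℝ) 1, |(p - C ε).eval t - f t| ≤ 2 * ε := by
      intro t ht
      have := abs_lt.1 (hp t ht)
      rw [eval_sub, eval_C, abs_le]
      constructor <;> linarith [this.1, this.2]
    have h1 := key (p - C ε) (2 * ε) (by linarith) hq
    have h2 : 0 ≤ Lam (C M - X ^ m * (p - C ε)) := by
      apply hpos
      intro t ht
      rw [eval_sub, eval_C, eval_mul, eval_pow, eval_X, eval_sub, eval_C]
      have := abs_lt.1 (hp t ht)
      have h6 : t ^ m * (p.eval t - ε) ≤ t ^ m * f t :=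
        mul_le_mul_of_nonneg_left (by linarith [this.2]) (pow_nonneg ht.1 _)
      linarith [hM t ht]
    have hCM : Lam (C M) = M * Lam 1 := by
      have : (C M : ℝ[X]) = M • 1 := by rw [smul_eq_C_mul, mul_one]
      rw [this, map_smul, smul_eq_mul]
    rw [map_sub, hCM] at h2
    have h3 := (abs_le.1 h1).1
    have h4 : 2 * ε * W < J - M * Lam 1 := by
      rw [hε]
      have : 2 * ((J - M * Lam 1) / (4 * (W + 1))) * W = (J - M * Lam 1) * (W / (2 * (W + 1))) := by
        field_simp; ring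
      rw [this]
      have h5 : W / (2 * (W + 1)) < 1 := by
        rw [div_lt_one (by linarith)]; linarith
      nlinarith
    linarith

end

/-- the cut-off -/
noncomputable def chi (N : ℕ) (u : ℝ) : ℝ := max 0 (min 1 ((N : ℝ) + 1 - u))

theorem chi_cont (N : ℕ) : Continuous (chi N) := by unfold chi; fun_prop
theorem chi_nonneg (N : ℕ) (u : ℝ) : 0 ≤ chi N u := le_max_left _ _
theorem chi_le_one (N : ℕ) (u : ℝ) : chi N u ≤ 1 := max_le zero_le_one (min_le_left _ _)
theorem chi_zero (N : ℕ) (u : ℝ) (h : (N : ℝ) + 1 ≤ u) : chi N u = 0 := by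
  unfold chi
  rw [max_eq_left]
  exact (min_le_right _ _).trans (by linarith)
theorem chi_one (N : ℕ) (u : ℝ) (h : u ≤ N) : chi N u = 1 := by
  unfold chi
  rw [min_eq_left (by linarith), max_eq_right zero_le_one]

theorem core (Lam : ℝ[X] →ₗ[ℝ] ℝ)
    (hpos : ∀ p : ℝ[X], (∀ t ∈ Icc (0:ℝ) 1, 0 ≤ p.eval t) → 0 ≤ Lam p)
    (g : ℝ → ℂ) (A : ℝ)
    (hg0 : ∀ u, u < 0 → g u = 0)
    (hint : ∀ s : ℂ, A < s.re → Integrable (fun u : ℝ => Complex.exp (-s * u) * g u))
    (hmom : ∀ k : ℕ, A < (k : ℝ) → ∫ u : ℝ, Complex.exp (-(k : ℂ) * u) * g u = ((Lam (X ^ k) : ℝ) : ℂ))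
    (σ : ℝ) (hσ : A < σ) (c : ℝ → ℝ) (hc : Continuous c) (hc0 : ∀ u, 0 ≤ c u)
    (M : ℝ) (hM : ∀ u, c u ≤ M) :
    0 ≤ (∫ u : ℝ, ((c u : ℝ) : ℂ) * (Complex.exp (-(σ : ℂ) * u) * g u)).re ∧
    (0 ≤ σ → (∫ u : ℝ, ((c u : ℝ) : ℂ) * (Complex.exp (-(σ : ℂ) * u) * g u)).re ≤ M * Lam 1) := by
  obtain ⟨m, hm⟩ := exists_nat_gt A
  have hM0 : 0 ≤ M := (hc0 0).trans (hM 0)
  have hwσ : Integrable (fun u : ℝ => Complex.exp (-(σ : ℂ) * u) * g u) := hint _ (by simpa using hσ)
  -- the approximations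
  set ψ : ℕ → ℝ → ℝ := fun N u => Real.exp (((m : ℝ) - σ) * u) * c u * chi N u with hψ
  have hψc : ∀ N, Continuous (ψ N) := by
    intro N; simp only [hψ]
    exact ((Real.continuous_exp.comp (by fun_prop)).mul hc).mul (chi_cont N)
  set f : ℕ → ℝ → ℝ := fun N t => ψ N (-Real.log (min 1 (max t (Real.exp (-((N : ℝ) + 1)))))) with hf
  have hcl : ∀ (N : ℕ) (t : ℝ), 0 < min 1 (max t (Real.exp (-((N : ℝ) + 1)))) := by
    intro N t; exact lt_min one_pos (lt_max_of_lt_right (Real.exp_pos _))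
  have hfc : ∀ N, Continuous (f N) := by
    intro N
    simp only [hf]
    apply (hψc N).comp
    apply Continuous.neg
    apply Continuous.log
    · fun_prop
    · intro t; exact (hcl N t).ne'
  have hfu : ∀ (N : ℕ) (u : ℝ), 0 ≤ u → f N (Real.exp (-u)) = ψ N u := by
    intro N u hu
    simp only [hf]
    by_cases h : u ≤ (N : ℝ) + 1
    · rw [max_eq_left (Real.exp_le_exp.2 (by linarith)), min_eq_right (by rw [Real.exp_le_one_iff]; linarith),
        Real.log_exp, neg_neg]
    · push Not at h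
      rw [max_eq_right (Real.exp_le_exp.2 (by linarith)), min_eq_right (by
        rw [Real.exp_le_one_iff]; have : (0:ℝ) ≤ N := Nat.cast_nonneg N; linarith),
        Real.log_exp, neg_neg]
      simp only [hψ]
      rw [chi_zero N _ le_rfl, chi_zero N _ h.le, mul_zero, mul_zero]
  have hf0 : ∀ (N : ℕ) (t : ℝ), 0 ≤ f N t := by
    intro N t
    simp only [hf, hψ]
    exact mul_nonneg (mul_nonneg (Real.exp_pos _).le (hc0 _)) (chi_nonneg _ _)
  have heq : ∀ N : ℕ, (fun u : ℝ => ((f N (Real.exp (-u)) : ℝ) : ℂ) * (Complex.exp (-(m : ℂ) * u) * g u))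
      = fun u : ℝ => ((c u * chi N u : ℝ) : ℂ) * (Complex.exp (-(σ : ℂ) * u) * g u) := by
    intro N; funext u
    by_cases hu : u < 0
    · rw [hg0 u hu]; simp
    · rw [hfu N u (by linarith)]
      simp only [hψ, Complex.ofReal_mul, Complex.ofReal_exp, Complex.ofReal_sub, Complex.ofReal_natCast]
      have : Complex.exp (-(σ : ℂ) * u) = Complex.exp (((m : ℂ) - σ) * u) * Complex.exp (-(m : ℂ) * u) := by
        rw [← Complex.exp_add]; congr 1; ring
      rw [this]; ring
  have hbd : ∀ N : ℕ, ∀ u : ℝ, ‖((c u * chi N u : ℝ) : ℂ)‖ ≤ M := by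
    intro N u
    rw [Complex.norm_real, Real.norm_eq_abs, abs_of_nonneg (mul_nonneg (hc0 u) (chi_nonneg N u))]
    calc c u * chi N u ≤ c u * 1 := mul_le_mul_of_nonneg_left (chi_le_one N u) (hc0 u)
      _ ≤ M := by rw [mul_one]; exact hM u
  have hin : ∀ N : ℕ, Integrable (fun u : ℝ => ((c u * chi N u : ℝ) : ℂ) * (Complex.exp (-(σ : ℂ) * u) * g u)) := by
    intro N
    apply hwσ.bdd_mul (c := M)
    · apply Continuous.aestronglyMeasurable
      exact Complex.continuous_ofReal.comp (hc.mul (chi_cont N))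
    · filter_upwards with u using hbd N u
  have hlim : Tendsto (fun N : ℕ => ∫ u : ℝ, ((c u * chi N u : ℝ) : ℂ) * (Complex.exp (-(σ : ℂ) * u) * g u)) atTop
      (𝓝 (∫ u : ℝ, ((c u : ℝ) : ℂ) * (Complex.exp (-(σ : ℂ) * u) * g u))) := by
    apply tendsto_integral_of_dominated_convergence (fun u : ℝ => M * ‖Complex.exp (-(σ : ℂ) * u) * g u‖)
    · intro N; exact (hin N).aestronglyMeasurable
    · exact hwσ.norm.const_mul M
    · intro N
      filter_upwards with u
      rw [norm_mul]
      exact mul_le_mul_of_nonneg_right (hbd N u) (norm_nonneg _)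
    · filter_upwards with u
      apply tendsto_const_nhds.congr'
      obtain ⟨N0, hN0⟩ := exists_nat_ge u
      filter_upwards [eventually_ge_atTop N0] with N hN
      rw [chi_one N u (hN0.trans (by exact_mod_cast hN)), mul_one]
  have hre := (Complex.continuous_re.tendsto _).comp hlim
  constructor
  · refine ge_of_tendsto hre ?_
    filter_upwards with N
    simp only [Function.comp]
    have h1 := (core_bd Lam g A hpos hg0 hint hmom m hm (f N) (hfc N) (by rw [heq N]; exact hin N)).1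
      (fun t _ => hf0 N t)
    rw [heq N] at h1
    exact h1
  · intro hσ0
    refine le_of_tendsto hre ?_
    filter_upwards with N
    simp only [Function.comp]
    have h1 := (core_bd Lam g A hpos hg0 hint hmom m hm (f N) (hfc N) (by rw [heq N]; exact hin N)).2 M
      (by
        intro t ht
        by_cases hδ : t < Real.exp (-((N : ℝ) + 1))
        · have : f N t = 0 := by
            simp only [hf, hψ]
            rw [max_eq_right hδ.le, min_eq_right (by
              rw [Real.exp_le_one_iff]; have : (0:ℝ) ≤ N := Nat.cast_nonneg N; linarith),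
              Real.log_exp, neg_neg, chi_zero N _ le_rfl, mul_zero]
          rw [this, mul_zero]; exact hM0
        · push Not at hδ
          have ht0 : 0 < t := (Real.exp_pos _).trans_le hδ
          have hu : 0 ≤ -Real.log t := by
            have := Real.log_nonpos ht.1 ht.2; linarith
          have htu : t = Real.exp (-(-Real.log t)) := by rw [neg_neg, Real.exp_log ht0]
          have h2 : f N t = ψ N (-Real.log t) := by
            conv_lhs => rw [htu]
            exact hfu N _ hu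
          rw [h2]
          simp only [hψ]
          have h3 : t ^ m = Real.exp (-(m : ℝ) * (-Real.log t)) := by
            rw [neg_mul_neg, mul_comm, Real.exp_mul, Real.exp_log ht0, Real.rpow_natCast]
          rw [h3]
          have h4 : Real.exp (-(m : ℝ) * (-Real.log t)) * (Real.exp (((m : ℝ) - σ) * (-Real.log t)) * c (-Real.log t) * chi N (-Real.log t))
              = Real.exp (-σ * (-Real.log t)) * (c (-Real.log t) * chi N (-Real.log t)) := by
            have : Real.exp (-σ * (-Real.log t)) = Real.exp (-(m : ℝ) * (-Real.log t)) * Real.exp (((m : ℝ) - σ) * (-Real.log t)) := by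
              rw [← Real.exp_add]; congr 1; ring
            rw [this]; ring
          rw [h4]
          have h5 : Real.exp (-σ * (-Real.log t)) ≤ 1 := by
            rw [Real.exp_le_one_iff]
            have := mul_nonneg hσ0 hu
            linarith
          have h6 : c (-Real.log t) * chi N (-Real.log t) ≤ M := by
            calc c (-Real.log t) * chi N (-Real.log t) ≤ c (-Real.log t) * 1 :=
                  mul_le_mul_of_nonneg_left (chi_le_one N _) (hc0 _)
              _ ≤ M := by rw [mul_one]; exact hM _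
          have h7 : 0 ≤ c (-Real.log t) * chi N (-Real.log t) := mul_nonneg (hc0 _) (chi_nonneg _ _)
          calc Real.exp (-σ * (-Real.log t)) * (c (-Real.log t) * chi N (-Real.log t))
              ≤ 1 * (c (-Real.log t) * chi N (-Real.log t)) := mul_le_mul_of_nonneg_right h5 h7
            _ ≤ M := by rw [one_mul]; exact h6)
    rw [heq N] at h1
    exact h1

end Pool.Agent.LAM55
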