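import Mathlib

/-!
Laplace transform representation of the reciprocal of a polynomial.
-/

open MeasureTheory Set

namespace Pool.Agent.LAM55

theorem green_one (z : ℂ) : ∃ g : ℝ → ℂ, (∀ u, u < 0 → g u = 0) ∧
    ∀ s : ℂ, z.re < s.re → Integrable (fun u : ℝ => Complex.exp (-s * u) * g u) ∧
      ∫ u : ℝ, Complex.exp (-s * u) * g u = (s - z)⁻¹ := by
  refine ⟨Set.indicator (Ioi 0) (fun u : ℝ => Complex.exp (z * u)), ?_, ?_⟩
  · intro u hu
    rw [Set.indicator_of_notMem]
    simp only [Set.mem_Ioi, not_lt]
    exact hu.le
  · intro s hs
    have hre : (z - s).re < 0 := by simp; linarith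
    have heq : (fun u : ℝ => Complex.exp (-s * u) * Set.indicator (Ioi 0) (fun u : ℝ => Complex.exp (z * u)) u)
        = Set.indicator (Ioi 0) (fun u : ℝ => Complex.exp ((z - s) * u)) := by
      funext u
      by_cases hu : u ∈ Ioi (0:ℝ)
      · rw [Set.indicator_of_mem hu, Set.indicator_of_mem hu, ← Complex.exp_add]
        congr 1; ring
      · rw [Set.indicator_of_notMem hu, Set.indicator_of_notMem hu, mul_zero]
    rw [heq]
    constructor
    · rw [integrable_indicator_iff measurableSet_Ioi]
      exact integrableOn_exp_mul_complex_Ioi hre 0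
    · rw [integral_indicator measurableSet_Ioi, integral_exp_mul_complex_Ioi hre 0]
      have h0 : z - s ≠ 0 := by
        intro h; rw [h] at hre; simp at hre
      have h1 : s - z ≠ 0 := by
        intro h; apply h0; rw [← neg_sub, h, neg_zero]
      simp only [Complex.ofReal_zero, mul_zero, Complex.exp_zero]
      field_simp
      ring

theorem green (S : Multiset ℂ) (hS : S ≠ 0) : ∃ g : ℝ → ℂ, (∀ u, u < 0 → g u = 0) ∧
    ∀ s : ℂ, (∀ z ∈ S, z.re < s.re) → Integrable (fun u : ℝ => Complex.exp (-s * u) * g u) ∧
      ∫ u : ℝ, Complex.exp (-s * u) * g u = ((S.map (fun z => s - z)).prod)⁻¹ := by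
  induction S using Multiset.induction_on with
  | empty => exact absurd rfl hS
  | cons z0 S ih =>
    by_cases hS0 : S = 0
    · subst hS0
      obtain ⟨g, h0, h1⟩ := green_one z0
      refine ⟨g, h0, ?_⟩
      intro s hs
      have := h1 s (hs z0 (by simp))
      simpa using this
    · obtain ⟨g, h0, h1⟩ := ih hS0
      obtain ⟨k, k0, k1⟩ := green_one z0
      refine ⟨convolution k g (ContinuousLinearMap.mul ℝ ℂ) volume, ?_, ?_⟩
      · intro u hu
        rw [convolution_def]
        apply integral_eq_zero_of_ae
        filter_upwards with t
        simp only [ContinuousLinearMap.mul_apply', Pi.zero_apply]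
        by_cases ht : t < 0
        · rw [k0 t ht, zero_mul]
        · rw [h0 (u - t) (by linarith), mul_zero]
      · intro s hs
        have hs1 := k1 s (hs z0 (by simp))
        have hs2 := h1 s (fun z hz => hs z (by simp [hz]))
        have heq : (fun u : ℝ => Complex.exp (-s * u) * convolution k g (ContinuousLinearMap.mul ℝ ℂ) volume u)
            = convolution (fun u : ℝ => Complex.exp (-s * u) * k u) (fun u : ℝ => Complex.exp (-s * u) * g u)
              (ContinuousLinearMap.mul ℝ ℂ) volume := by
          funext u
          rw [convolution_def, convolution_def, ← integral_const_mul]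
          apply integral_congr_ae
          filter_upwards with t
          simp only [ContinuousLinearMap.mul_apply']
          have : Complex.exp (-s * u) = Complex.exp (-s * t) * Complex.exp (-s * ((u - t : ℝ) : ℂ)) := by
            rw [← Complex.exp_add]; congr 1; push_cast; ring
          rw [this]; ring
        rw [heq]
        constructor
        · exact hs1.1.integrable_convolution _ hs2.1
        · rw [integral_convolution _ hs1.1 hs2.1, hs1.2, hs2.2]
          simp only [ContinuousLinearMap.mul_apply', Multiset.map_cons, Multiset.prod_cons]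
          rw [mul_inv]

end Pool.Agent.LAM55
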