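import Pool.Agent.H55.LAM.Fun
import Pool.Agent.H55.LAM.Green
import Pool.Agent.H55.LAM.Core

/-!
Necessary condition: the zero of largest real part is real and negative.
-/

open Set Polynomial Filter Topology MeasureTheory

namespace Pool.Agent.LAM55

theorem aeval_prod (H : ℝ[X]) (s : ℂ) : aeval s H = (H.leadingCoeff : ℂ) *
    (((H.map (algebraMap ℝ ℂ)).roots.map (fun z => s - z)).prod) := by
  have h1 := (IsAlgClosed.splits (H.map (algebraMap ℝ ℂ))).eq_prod_roots
  rw [aeval_def, ← eval_map]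
  conv_lhs => rw [h1]
  rw [eval_mul, eval_C, leadingCoeff_map]
  congr 1
  rw [eval_multiset_prod, Multiset.map_map]
  congr 1
  apply Multiset.map_congr rfl
  intro z _
  simp

theorem aeval_conj' (H : ℝ[X]) (s : ℂ) : aeval ((starRingEnd ℂ) s) H = (starRingEnd ℂ) (aeval s H) := by
  rw [aeval_conj]

/-- Laplace representation of `1/H` -/
theorem lap (H : ℝ[X]) (hd : 0 < H.natDegree) (A : ℝ) (hA : ∀ z : ℂ, aeval z H = 0 → z.re ≤ A) :
    ∃ g : ℝ → ℂ, (∀ u, u < 0 → g u = 0) ∧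
      ∀ s : ℂ, A < s.re → Integrable (fun u : ℝ => Complex.exp (-s * u) * g u) ∧
        ∫ u : ℝ, Complex.exp (-s * u) * g u = (aeval s H)⁻¹ := by
  set S := (H.map (algebraMap ℝ ℂ)).roots with hS
  have hH0 : H ≠ 0 := by rintro rfl; simp at hd
  have hcard : Multiset.card S = H.natDegree := by
    rw [hS, ← (IsAlgClosed.splits (H.map (algebraMap ℝ ℂ))).natDegree_eq_card_roots, natDegree_map]
  have hS0 : S ≠ 0 := by
    intro h; rw [h] at hcard; simp at hcard; omega
  obtain ⟨g, h0, h1⟩ := green S hS0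
  refine ⟨fun u => (H.leadingCoeff : ℂ)⁻¹ * g u, ?_, ?_⟩
  · intro u hu; simp only [h0 u hu, mul_zero]
  · intro s hs
    have h2 := h1 s (by
      intro z hz
      have hz' : aeval z H = 0 := by
        rw [aeval_def, ← eval_map]
        exact (mem_roots'.1 hz).2
      exact (hA z hz').trans_lt hs)
    have heq : (fun u : ℝ => Complex.exp (-s * u) * ((H.leadingCoeff : ℂ)⁻¹ * g u))
        = fun u : ℝ => (H.leadingCoeff : ℂ)⁻¹ * (Complex.exp (-s * u) * g u) := by
      funext u; ring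
    rw [heq]
    refine ⟨h2.1.const_mul _, ?_⟩
    rw [integral_const_mul, h2.2, aeval_prod, mul_inv]

/-- the inequality on vertical lines and the bound -/
theorem vert (H : ℝ[X]) (hd : 0 < H.natDegree) (A : ℝ) (hA : ∀ z : ℂ, aeval z H = 0 → z.re ≤ A)
    (Lam : ℝ[X] →ₗ[ℝ] ℝ) (hpos : ∀ p : ℝ[X], (∀ t ∈ Icc (0:ℝ) 1, 0 ≤ p.eval t) → 0 ≤ Lam p)
    (hmom : ∀ k : ℕ, Lam (X ^ k) = 1 / H.eval (k : ℝ)) (σ : ℝ) (hσ : A < σ) :
    (∀ τ : ℝ, ‖(aeval ((σ : ℂ) + τ * Complex.I) H)⁻¹‖ ≤ (H.eval σ)⁻¹) ∧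
    (0 ≤ σ → (H.eval σ)⁻¹ ≤ (H.eval 0)⁻¹) := by
  obtain ⟨g, h0, h1⟩ := lap H hd A hA
  have hreal : ∀ x : ℝ, aeval (x : ℂ) H = ((H.eval x : ℝ) : ℂ) := by
    intro x
    rw [show (x : ℂ) = algebraMap ℝ ℂ x from rfl, aeval_algebraMap_apply, aeval_def, eval₂_eq_eval_map]
    simp
  have hmom' : ∀ k : ℕ, A < (k : ℝ) → ∫ u : ℝ, Complex.exp (-(k : ℂ) * u) * g u = ((Lam (X ^ k) : ℝ) : ℂ) := by
    intro k hk
    rw [(h1 (k : ℂ) (by simpa using hk)).2, hmom k, show (k : ℂ) = ((k : ℝ) : ℂ) by simp, hreal]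
    push_cast; rw [one_div]
  have hcore := core Lam hpos g A h0 (fun s hs => (h1 s hs).1) hmom' σ hσ
  have hIσ := h1 (σ : ℂ) (by simpa using hσ)
  constructor
  · intro τ
    have hp := h1 ((σ : ℂ) + τ * Complex.I) (by simpa using hσ)
    have hm := h1 ((σ : ℂ) - τ * Complex.I) (by simpa using hσ)
    set V : ℂ := (aeval ((σ : ℂ) + τ * Complex.I) H)⁻¹ with hV
    have hVm : (aeval ((σ : ℂ) - τ * Complex.I) H)⁻¹ = (starRingEnd ℂ) V := by
      rw [hV, map_inv₀, ← aeval_conj']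
      congr 2
      simp [sub_eq_add_neg]
    set α : ℝ := Complex.arg V - Real.pi with hα
    have hc := (hcore (fun u => 1 + Real.cos (τ * u + α)) (by fun_prop)
      (fun u => by have := Real.neg_one_le_cos (τ * u + α); linarith) 2
      (fun u => by have := Real.cos_le_one (τ * u + α); linarith)).1
    have heq : (fun u : ℝ => (((1 + Real.cos (τ * u + α) : ℝ)) : ℂ) * (Complex.exp (-(σ : ℂ) * u) * g u))
        = fun u : ℝ => Complex.exp (-(σ : ℂ) * u) * g u +
          ((Complex.exp (α * Complex.I) / 2) * (Complex.exp (-((σ : ℂ) - τ * Complex.I) * u) * g u) +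
           (Complex.exp (-(α * Complex.I)) / 2) * (Complex.exp (-((σ : ℂ) + τ * Complex.I) * u) * g u)) := by
      funext u
      have e1 : Complex.exp (-((σ : ℂ) - τ * Complex.I) * u) = Complex.exp (-(σ : ℂ) * u) * Complex.exp (τ * u * Complex.I) := by
        rw [← Complex.exp_add]; congr 1; ring
      have e2 : Complex.exp (-((σ : ℂ) + τ * Complex.I) * u) = Complex.exp (-(σ : ℂ) * u) * Complex.exp (-(τ * u * Complex.I)) := by
        rw [← Complex.exp_add]; congr 1; ring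
      have e3 : ((Real.cos (τ * u + α) : ℝ) : ℂ) = (Complex.exp (α * Complex.I) * Complex.exp (τ * u * Complex.I) +
          Complex.exp (-(α * Complex.I)) * Complex.exp (-(τ * u * Complex.I))) / 2 := by
        rw [← Complex.exp_add, ← Complex.exp_add, Complex.ofReal_cos, Complex.cos]
        congr 2
        · congr 1; push_cast; ring
        · congr 1; push_cast; ring
      rw [e1, e2]
      rw [Complex.ofReal_add, e3]
      push_cast; ring
    have hi1 : Integrable (fun u : ℝ => (Complex.exp (α * Complex.I) / 2) * (Complex.exp (-((σ : ℂ) - τ * Complex.I) * u) * g u)) :=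
      hm.1.const_mul _
    have hi2 : Integrable (fun u : ℝ => (Complex.exp (-(α * Complex.I)) / 2) * (Complex.exp (-((σ : ℂ) + τ * Complex.I) * u) * g u)) :=
      hp.1.const_mul _
    have hi12 : Integrable (fun u : ℝ => (Complex.exp (α * Complex.I) / 2) * (Complex.exp (-((σ : ℂ) - τ * Complex.I) * u) * g u) +
        (Complex.exp (-(α * Complex.I)) / 2) * (Complex.exp (-((σ : ℂ) + τ * Complex.I) * u) * g u)) := hi1.add hi2
    rw [heq, integral_add hIσ.1 hi12, integral_add hi1 hi2, integral_const_mul, integral_const_mul,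
      hIσ.2, hp.2, hm.2, hVm, hreal] at hc
    -- simplification of the second summand
    have hVp : V = (‖V‖ : ℂ) * Complex.exp (Complex.arg V * Complex.I) := (Complex.norm_mul_exp_arg_mul_I V).symm
    have e4 : Complex.exp (-(α * Complex.I)) * V = -(‖V‖ : ℂ) := by
      conv_lhs => rw [hVp]
      rw [mul_left_comm, ← Complex.exp_add, hα]
      have : -(((Complex.arg V - Real.pi : ℝ) : ℂ) * Complex.I) + Complex.arg V * Complex.I = Real.pi * Complex.I := by
        push_cast; ring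
      rw [this, Complex.exp_pi_mul_I]; ring
    have e5 : Complex.exp (α * Complex.I) * (starRingEnd ℂ) V = -(‖V‖ : ℂ) := by
      have := congrArg (starRingEnd ℂ) e4
      rw [map_mul, ← Complex.exp_conj] at this
      simp only [map_neg, map_mul, Complex.conj_ofReal, Complex.conj_I, mul_neg, neg_neg] at this
      exact this
    have e6 : Complex.exp (α * Complex.I) / 2 * (starRingEnd ℂ) V + Complex.exp (-(α * Complex.I)) / 2 * V = -(‖V‖ : ℂ) := by
      linear_combination (1/2 : ℂ) * e4 + (1/2 : ℂ) * e5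
    rw [e6] at hc
    rw [← Complex.ofReal_inv, ← Complex.ofReal_neg, ← Complex.ofReal_add, Complex.ofReal_re] at hc
    linarith
  · intro hσ0
    have hc := (hcore (fun _ => 1) continuous_const (fun _ => zero_le_one) 1 (fun _ => le_rfl)).2 hσ0
    simp only [Complex.ofReal_one, one_mul] at hc
    rw [hIσ.2, hreal, ← Complex.ofReal_inv, Complex.ofReal_re] at hc
    have := hmom 0
    rw [pow_zero, Nat.cast_zero, one_div] at this
    rwa [this] at hc

/-- conclusion for a functional on `[0,1]` -/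
theorem dom_aux (H : ℝ[X]) (hd : 0 < H.natDegree) (hH0 : 0 < H.eval 0)
    (Lam : ℝ[X] →ₗ[ℝ] ℝ) (hpos : ∀ p : ℝ[X], (∀ t ∈ Icc (0:ℝ) 1, 0 ≤ p.eval t) → 0 ≤ Lam p)
    (hmom : ∀ k : ℕ, Lam (X ^ k) = 1 / H.eval (k : ℝ)) :
    ∃ A : ℝ, A < 0 ∧ H.eval A = 0 ∧ ∀ z : ℂ, aeval z H = 0 → z.re ≤ A := by
  have hHne : H ≠ 0 := by rintro rfl; simp at hd
  have hreal : ∀ x : ℝ, aeval (x : ℂ) H = ((H.eval x : ℝ) : ℂ) := by
    intro x
    rw [show (x : ℂ) = algebraMap ℝ ℂ x from rfl, aeval_algebraMap_apply, aeval_def, eval₂_eq_eval_map]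
    simp
  -- a zero with maximal real part
  obtain ⟨z0, hz0⟩ : ∃ z : ℂ, aeval z H = 0 :=
    IsAlgClosed.exists_aeval_eq_zero _ H (natDegree_pos_iff_degree_pos.1 hd).ne'
  have hmem : ∀ z : ℂ, aeval z H = 0 ↔ z ∈ (H.map (algebraMap ℝ ℂ)).roots.toFinset := by
    intro z
    rw [Multiset.mem_toFinset, mem_roots', aeval_def, ← eval_map]
    constructor
    · intro h
      refine ⟨?_, h⟩
      rw [Ne, Polynomial.map_eq_zero]; exact hHne
    · intro h; exact h.2
  obtain ⟨z, hz, hmax⟩ := Finset.exists_max_image (H.map (algebraMap ℝ ℂ)).roots.toFinset Complex.re ⟨z0, (hmem z0).1 hz0⟩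
  rw [← hmem] at hz
  have hA : ∀ w : ℂ, aeval w H = 0 → w.re ≤ z.re := fun w hw => hmax w ((hmem w).1 hw)
  have hv := vert H hd z.re hA Lam hpos hmom
  have hzz : (z.re : ℂ) + z.im * Complex.I = z := Complex.re_add_im z
  -- on the right of the zeros `H` is positive
  have hpos' : ∀ σ : ℝ, z.re < σ → 0 < H.eval σ := by
    intro σ hσ
    have h1 : (0:ℝ) ≤ (H.eval σ)⁻¹ := (norm_nonneg _).trans ((hv σ hσ).1 0)
    have h2 : H.eval σ ≠ 0 := by
      intro h
      have := hA (σ : ℂ) (by rw [hreal, h]; simp)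
      simp at this; linarith
    have h3 : 0 ≤ H.eval σ := inv_nonneg.1 h1
    exact lt_of_le_of_ne h3 (Ne.symm h2)
  have hroot : H.eval z.re = 0 := by
    have h1 : ∀ σ : ℝ, z.re < σ → H.eval σ ≤ ‖aeval ((σ : ℂ) + z.im * Complex.I) H‖ := by
      intro σ hσ
      have h2 := (hv σ hσ).1 z.im
      rw [norm_inv] at h2
      have h3 : aeval ((σ : ℂ) + z.im * Complex.I) H ≠ 0 := by
        intro h
        have := hA _ h
        simp at this; linarith
      have h4 : 0 < ‖aeval ((σ : ℂ) + z.im * Complex.I) H‖ := norm_pos_iff.2 h3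
      exact (inv_le_inv₀ h4 (hpos' σ hσ)).1 h2
    have c1 : Tendsto (fun σ : ℝ => H.eval σ) (𝓝[>] z.re) (𝓝 (H.eval z.re)) :=
      (H.continuous.tendsto _).mono_left nhdsWithin_le_nhds
    have c2 : Continuous (fun σ : ℝ => ‖aeval ((σ : ℂ) + z.im * Complex.I) H‖) := by
      apply Continuous.norm
      simp only [aeval_def, ← eval_map]
      apply (H.map (algebraMap ℝ ℂ)).continuous.comp
      fun_prop
    have c3 : Tendsto (fun σ : ℝ => ‖aeval ((σ : ℂ) + z.im * Complex.I) H‖) (𝓝[>] z.re)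
        (𝓝 (‖aeval ((z.re : ℂ) + z.im * Complex.I) H‖)) := (c2.tendsto _).mono_left nhdsWithin_le_nhds
    rw [hzz, hz, norm_zero] at c3
    have h5 : H.eval z.re ≤ 0 := by
      apply le_of_tendsto_of_tendsto c1 c3
      filter_upwards [self_mem_nhdsWithin] with σ hσ using h1 σ hσ
    have h6 : 0 ≤ H.eval z.re := by
      apply ge_of_tendsto c1
      filter_upwards [self_mem_nhdsWithin] with σ hσ using (hpos' σ hσ).le
    exact le_antisymm h5 h6
  refine ⟨z.re, ?_, hroot, hA⟩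
  by_contra hneg
  push Not at hneg
  have h1 : ∀ σ : ℝ, z.re < σ → H.eval 0 ≤ H.eval σ := by
    intro σ hσ
    have h2 := (hv σ hσ).2 (by linarith)
    exact (inv_le_inv₀ (hpos' σ hσ) hH0).1 h2
  have c1 : Tendsto (fun σ : ℝ => H.eval σ) (𝓝[>] z.re) (𝓝 (H.eval z.re)) :=
    (H.continuous.tendsto _).mono_left nhdsWithin_le_nhds
  have h3 : H.eval 0 ≤ H.eval z.re := by
    apply ge_of_tendsto c1
    filter_upwards [self_mem_nhdsWithin] with σ hσ using h1 σ hσ
  rw [hroot] at h3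
  linarith

/-- bounded reciprocals -/
theorem bdd_inv (h : ℝ[X]) (hd : 0 < h.natDegree) : ∃ M : ℝ, ∀ k : ℕ, |1 / h.eval (k : ℝ)| ≤ M := by
  have h1 : Tendsto (fun x : ℝ => |h.eval x|) atTop atTop :=
    Polynomial.abs_tendsto_atTop h (natDegree_pos_iff_degree_pos.1 hd)
  have h2 : Tendsto (fun k : ℕ => |1 / h.eval (k : ℝ)|) atTop (𝓝 0) := by
    have h3 := (h1.comp tendsto_natCast_atTop_atTop).inv_tendsto_atTop
    refine h3.congr ?_
    intro k
    simp [abs_inv]
  obtain ⟨M, hM⟩ := h2.bddAbove_range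
  exact ⟨M, fun k => hM ⟨k, rfl⟩⟩

/-- If `1/h(k)` is a `λ`-sequence, the zero of largest real part is real and negative -/
theorem nec (h : ℝ[X]) (hd : 0 < h.natDegree) (hpos : ∀ k : ℕ, 0 < h.eval (k : ℝ))
    (hl : IsLambda (fun k => 1 / h.eval (k : ℝ))) :
    ∃ ρ : ℝ, ρ < 0 ∧ h.eval ρ = 0 ∧ ∀ z : ℂ, aeval z h = 0 → z.re ≤ ρ := by
  obtain ⟨M, hM⟩ := bdd_inv h hd
  set H : ℝ[X] := h.comp (C 2 * X) with hH
  have hHd : 0 < H.natDegree := by
    rw [hH, natDegree_comp, natDegree_C_mul_X 2 (by norm_num), mul_one]; exact hd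
  have hHe : ∀ x : ℝ, H.eval x = h.eval (2 * x) := by intro x; rw [hH, eval_comp]; simp
  have hHa : ∀ z : ℂ, aeval z H = aeval (2 * z) h := by
    intro z
    rw [hH, aeval_comp]
    congr 1
    rw [map_mul, aeval_C, aeval_X]
    norm_num
  obtain ⟨A, hA0, hA1, hA2⟩ := dom_aux H hHd (by rw [hHe]; simpa using hpos 0)
    (lf (fun k => 1 / h.eval ((2 * k : ℕ) : ℝ)))
    (fun p hp => lf_even_nonneg (fun k => 1 / h.eval (k : ℝ)) hl M hM p hp)
    (by
      intro k
      rw [lf_X_pow, hHe]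
      push_cast; rfl)
  refine ⟨2 * A, by linarith, by rw [← hHe]; exact hA1, ?_⟩
  intro z hz
  have h1 := hA2 (z / 2) (by rw [hHa, mul_div_cancel₀ _ (two_ne_zero)]; exact hz)
  have h2 : (z / 2).re = z.re / 2 := by
    rw [show (z / 2 : ℂ) = z / ((2 : ℝ) : ℂ) by norm_num, Complex.div_ofReal_re]
  rw [h2] at h1
  linarith

end Pool.Agent.LAM55
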