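import Pool.Agent.H55.LAM.Suf
import Pool.Agent.H55.LAM.Nec

/-!
Sufficiency for polynomials with at most one pair of nonreal zeros.
-/

open Set Polynomial

namespace Pool.Agent.LAM55

theorem aeval_real (h : ℝ[X]) (x : ℝ) : aeval (x : ℂ) h = ((h.eval x : ℝ) : ℂ) := by
  rw [show (x : ℂ) = algebraMap ℝ ℂ x from rfl, aeval_algebraMap_apply, aeval_def, eval₂_eq_eval_map]
  simp

theorem isLambda_congr {L1 L2 : ℕ → ℝ} (h : ∀ k, L1 k = L2 k) (h1 : IsLambda L1) : IsLambda L2 := by
  have : L1 = L2 := funext h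
  rwa [← this]

theorem suf_real (n : ℕ) : ∀ h : ℝ[X], h.natDegree = n → (∀ k : ℕ, 0 < h.eval (k : ℝ)) →
    (∀ z : ℂ, aeval z h = 0 → z.im = 0 ∧ z.re < 0) → IsLambda (fun k => 1 / h.eval (k : ℝ)) := by
  induction n with
  | zero =>
    intro h hn hpos _
    have h1 := eq_C_of_natDegree_eq_zero hn
    have h2 : 0 < h.coeff 0 := by
      have := hpos 0
      rw [h1, eval_C] at this
      exact this
    apply isLambda_congr _ (isLambda_const (1 / h.coeff 0) (by positivity))
    intro k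
    rw [h1]; simp
  | succ n ih =>
    intro h hn hpos hr
    have hne : h ≠ 0 := by rintro rfl; simp at hn
    obtain ⟨z, hz⟩ : ∃ z : ℂ, aeval z h = 0 :=
      IsAlgClosed.exists_aeval_eq_zero _ h (by rw [degree_eq_natDegree hne, hn]; norm_cast)
    obtain ⟨him, hre⟩ := hr z hz
    have hzr : z = ((z.re : ℝ) : ℂ) := by
      apply Complex.ext <;> simp [him]
    have hroot : h.IsRoot z.re := by
      rw [hzr, aeval_real] at hz
      exact_mod_cast hz
    obtain ⟨q, hq⟩ := dvd_iff_isRoot.2 hroot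
    have hqne : q ≠ 0 := by rintro rfl; rw [mul_zero] at hq; exact hne hq
    have hqd : q.natDegree = n := by
      have := congrArg natDegree hq
      rw [natDegree_mul (X_sub_C_ne_zero _) hqne, natDegree_X_sub_C, hn] at this
      omega
    have hev : ∀ x : ℝ, h.eval x = (x - z.re) * q.eval x := by
      intro x; rw [hq]; simp
    have hk : ∀ k : ℕ, (0:ℝ) < (k : ℝ) + (-z.re) := by
      intro k; have : (0:ℝ) ≤ k := Nat.cast_nonneg k; linarith
    have hqpos : ∀ k : ℕ, 0 < q.eval (k : ℝ) := by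
      intro k
      have h1 := hpos k
      rw [hev] at h1
      have h2 : (0:ℝ) < (k : ℝ) - z.re := by have := hk k; linarith
      exact (mul_pos_iff_of_pos_left h2).1 h1
    have h1 := ih q hqd hqpos (by
      intro w hw
      apply hr
      rw [hq, map_mul, hw, mul_zero])
    apply isLambda_congr _ ((isLambda_linear (-z.re) (by linarith)).mul h1)
    intro k
    rw [hev, sub_eq_add_neg]
    have h2 := hk k
    have h3 := hqpos k
    field_simp

theorem suf_pair (h : ℝ[X]) (hpos : ∀ k : ℕ, 0 < h.eval (k : ℝ)) (hd : 0 < h.natDegree)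
    (hc : h.natDegree ≤ 4 ∨
      Multiset.card ((h.map (algebraMap ℝ ℂ)).roots.filter (fun z => z.im ≠ 0)) ≤ 2)
    (ρ : ℝ) (hρ : ρ < 0) (hρ0 : h.eval ρ = 0) (hdom : ∀ z : ℂ, aeval z h = 0 → z.re ≤ ρ) :
    IsLambda (fun k => 1 / h.eval (k : ℝ)) := by
  have hne : h ≠ 0 := by rintro rfl; simp at hd
  by_cases hall : ∀ z : ℂ, aeval z h = 0 → z.im = 0
  · exact suf_real _ h rfl hpos (fun z hz => ⟨hall z hz, (hdom z hz).trans_lt hρ⟩)
  push Not at hall
  obtain ⟨z, hz, him⟩ := hall
  obtain ⟨r, hr⟩ := Polynomial.quadratic_dvd_of_aeval_eq_zero_im_ne_zero h hz him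
  set Q : ℝ[X] := X ^ 2 - C (2 * z.re) * X + C (‖z‖ ^ 2) with hQ
  have hQe : ∀ x : ℝ, Q.eval x = (x - z.re) ^ 2 + z.im ^ 2 := by
    intro x
    rw [hQ]
    simp only [eval_add, eval_sub, eval_pow, eval_X, eval_mul, eval_C]
    rw [Complex.sq_norm, Complex.normSq_apply]; ring
  have hQpos : ∀ x : ℝ, 0 < Q.eval x := by
    intro x; rw [hQe]
    have : 0 < z.im ^ 2 := by positivity
    nlinarith [sq_nonneg (x - z.re)]
  have hrroot : r.IsRoot ρ := by
    have h1 : h.eval ρ = Q.eval ρ * r.eval ρ := by rw [hr, eval_mul]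
    rw [hρ0] at h1
    have h2 := (hQpos ρ).ne'
    have h3 := (mul_eq_zero.1 h1.symm).resolve_left h2
    exact h3
  obtain ⟨r1, hr1⟩ := dvd_iff_isRoot.2 hrroot
  have hh : h = Q * ((X - C ρ) * r1) := by rw [← hr1]; exact hr
  have hQne : Q ≠ 0 := by
    intro h0; have := hQpos 0; rw [h0] at this; simp at this
  have hr1ne : r1 ≠ 0 := by
    rintro rfl; rw [mul_zero, mul_zero] at hh; exact hne hh
  have hQd : Q.natDegree = 2 := by
    rw [hQ]
    compute_degree!
  have hdeg : h.natDegree = 3 + r1.natDegree := by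
    rw [hh, natDegree_mul hQne (mul_ne_zero (X_sub_C_ne_zero _) hr1ne), natDegree_mul (X_sub_C_ne_zero _) hr1ne,
      natDegree_X_sub_C, hQd]
    omega
  have hr1real : ∀ w : ℂ, aeval w r1 = 0 → w.im = 0 := by
    intro w hw
    by_contra hwi
    rcases hc with hc | hc
    · have h1 := Polynomial.quadratic_dvd_of_aeval_eq_zero_im_ne_zero r1 hw hwi
      have h2 := natDegree_le_of_dvd h1 hr1ne
      have h3 : (X ^ 2 - C (2 * w.re) * X + C (‖w‖ ^ 2) : ℝ[X]).natDegree = 2 := by compute_degree!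
      rw [h3] at h2
      omega
    · have hmap : h.map (algebraMap ℝ ℂ) = (Q.map (algebraMap ℝ ℂ)) * (((X - C ρ).map (algebraMap ℝ ℂ)) * r1.map (algebraMap ℝ ℂ)) := by
        rw [hh, Polynomial.map_mul, Polynomial.map_mul]
      have hmapne : h.map (algebraMap ℝ ℂ) ≠ 0 := by rw [Ne, Polynomial.map_eq_zero]; exact hne
      have hroots : (h.map (algebraMap ℝ ℂ)).roots = (Q.map (algebraMap ℝ ℂ)).roots +
          (((X - C ρ).map (algebraMap ℝ ℂ)).roots + (r1.map (algebraMap ℝ ℂ)).roots) := by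
        rw [hmap, roots_mul (by rw [← hmap]; exact hmapne), roots_mul]
        intro h0
        rw [hmap, h0, mul_zero] at hmapne
        exact hmapne rfl
      have hQmap : Q.map (algebraMap ℝ ℂ) = (X - C ((starRingEnd ℂ) z)) * (X - C z) := by
        calc map (algebraMap ℝ ℂ) (X ^ 2 - C (2 * z.re) * X + C (‖z‖ ^ 2))
          _ = X ^ 2 - C (↑(2 * z.re) : ℂ) * X + C (‖z‖ ^ 2 : ℂ) := by simp
          _ = (X - C ((starRingEnd ℂ) z)) * (X - C z) := by
            rw [← Complex.add_conj, map_add, ← Complex.mul_conj', map_mul]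
            ring
      have hQroots : (Q.map (algebraMap ℝ ℂ)).roots = {(starRingEnd ℂ) z} + {z} := by
        rw [hQmap, roots_mul (mul_ne_zero (X_sub_C_ne_zero _) (X_sub_C_ne_zero _)), roots_X_sub_C, roots_X_sub_C]
      have hwmem : w ∈ (r1.map (algebraMap ℝ ℂ)).roots := by
        rw [mem_roots', IsRoot.def, eval_map, ← aeval_def]
        exact ⟨by rw [Ne, Polynomial.map_eq_zero]; exact hr1ne, hw⟩
      have h5 : 2 < Multiset.card ((h.map (algebraMap ℝ ℂ)).roots.filter (fun z => z.im ≠ 0)) := by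
        rw [hroots, Multiset.filter_add, Multiset.filter_add, Multiset.card_add, Multiset.card_add, hQroots,
          Multiset.filter_add, Multiset.card_add]
        have h6 : Multiset.card (Multiset.filter (fun z : ℂ => z.im ≠ 0) {(starRingEnd ℂ) z}) = 1 := by
          rw [Multiset.filter_singleton, if_pos (by simpa using him), Multiset.card_singleton]
        have h7 : Multiset.card (Multiset.filter (fun z : ℂ => z.im ≠ 0) {z}) = 1 := by
          rw [Multiset.filter_singleton, if_pos him, Multiset.card_singleton]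
        have h8 : 0 < Multiset.card (Multiset.filter (fun z : ℂ => z.im ≠ 0) (r1.map (algebraMap ℝ ℂ)).roots) := by
          rw [Multiset.card_pos_iff_exists_mem]
          exact ⟨w, Multiset.mem_filter.2 ⟨hwmem, hwi⟩⟩
        omega
      omega
  have hev : ∀ x : ℝ, h.eval x = ((x - ρ) * ((x - z.re) ^ 2 + z.im ^ 2)) * r1.eval x := by
    intro x
    rw [hh, eval_mul, eval_mul, hQe]; simp; ring
  have hkρ : ∀ k : ℕ, (0:ℝ) < (k : ℝ) - ρ := by
    intro k; have : (0:ℝ) ≤ k := Nat.cast_nonneg k; linarith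
  have hr1pos : ∀ k : ℕ, 0 < r1.eval (k : ℝ) := by
    intro k
    have h1 := hpos k
    rw [hev] at h1
    have h2 : 0 < ((k : ℝ) - ρ) * (((k : ℝ) - z.re) ^ 2 + z.im ^ 2) := by
      have h3 : 0 < z.im ^ 2 := by positivity
      exact mul_pos (hkρ k) (by nlinarith [sq_nonneg ((k : ℝ) - z.re)])
    exact (mul_pos_iff_of_pos_left h2).1 h1
  have h1 := suf_real _ r1 rfl hr1pos (by
    intro w hw
    refine ⟨hr1real w hw, ?_⟩
    have : aeval w h = 0 := by rw [hh, map_mul, map_mul, hw, mul_zero, mul_zero]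
    exact (hdom w this).trans_lt hρ)
  have h2 := isLambda_cubic (-ρ) (-z.re) |z.im| (by linarith) (by have := hdom z hz; linarith) (abs_pos.2 him)
  apply isLambda_congr _ (h2.mul h1)
  intro k
  rw [hev, sq_abs]
  have h3 := hkρ k
  have h4 := hr1pos k
  have h5 : 0 < ((k : ℝ) - z.re) ^ 2 + z.im ^ 2 := by
    have h3 : 0 < z.im ^ 2 := by positivity
    nlinarith [sq_nonneg ((k : ℝ) - z.re)]
  have h6 : (k : ℝ) + -ρ = (k : ℝ) - ρ := by ring
  have h7 : (k : ℝ) + -z.re = (k : ℝ) - z.re := by ring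
  rw [h6, h7]
  field_simp

/-- classification for polynomials of degree at most four, or with at most one pair of nonreal zeros -/
theorem cls (h : ℝ[X]) (hd : 0 < h.natDegree) (hpos : ∀ k : ℕ, 0 < h.eval (k : ℝ))
    (hc : h.natDegree ≤ 4 ∨
      Multiset.card ((h.map (algebraMap ℝ ℂ)).roots.filter (fun z => z.im ≠ 0)) ≤ 2) :
    IsLambda (fun k => 1 / h.eval (k : ℝ)) ↔
      ∃ ρ : ℝ, ρ < 0 ∧ h.eval ρ = 0 ∧ ∀ z : ℂ, aeval z h = 0 → z.re ≤ ρ := by
  constructor
  · exact nec h hd hpos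
  · rintro ⟨ρ, h1, h2, h3⟩
    exact suf_pair h hpos hd hc ρ h1 h2 h3

end Pool.Agent.LAM55
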