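import Pool.Agent.H55.LAM.Fun

/-!
Building blocks of `λ`-sequences.
-/

open Set Polynomial Filter Topology MeasureTheory

namespace Pool.Agent.LAM55

theorem act_coeff (L : ℕ → ℝ) (p : ℝ[X]) (k : ℕ) : (act L p).coeff k = L k * p.coeff k := by
  rw [act, finsetSum_coeff]
  simp only [coeff_C_mul_X_pow]
  rw [Finset.sum_ite_eq]
  split_ifs with h
  · rfl
  · rw [coeff_eq_zero_of_natDegree_lt, mul_zero]
    simp only [Finset.mem_range, not_lt] at h
    omega

theorem act_mul (L1 L2 : ℕ → ℝ) (p : ℝ[X]) : act (fun k => L1 k * L2 k) p = act L1 (act L2 p) := by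
  ext k
  rw [act_coeff, act_coeff, act_coeff, mul_assoc]

theorem IsLambda.mul {L1 L2 : ℕ → ℝ} (h1 : IsLambda L1) (h2 : IsLambda L2) :
    IsLambda (fun k => L1 k * L2 k) := by
  refine ⟨fun k => mul_ne_zero (h1.1 k) (h2.1 k), ?_⟩
  intro p hp x
  rw [act_mul]
  exact h1.2 _ (h2.2 p hp) x

theorem isLambda_const (c : ℝ) (hc : 0 < c) : IsLambda (fun _ => c) := by
  refine ⟨fun _ => hc.ne', ?_⟩
  intro p hp x
  have : act (fun _ => c) p = C c * p := by
    ext k; rw [act_coeff, coeff_C_mul]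
  rw [this, eval_mul, eval_C]
  exact mul_nonneg hc.le (hp x)

theorem act_eval' (L : ℕ → ℝ) (p : ℝ[X]) (x : ℝ) :
    (act L p).eval x = ∑ k ∈ Finset.range (p.natDegree + 1), L k * p.coeff k * x ^ k := by
  rw [act_eval, lf_comp_mul]

theorem isLambda_of_density (L : ℕ → ℝ) (hL : ∀ k, L k ≠ 0) (f : ℝ → ℝ) (hf : ∀ u, 0 < u → 0 ≤ f u)
    (hi : ∀ k : ℕ, IntegrableOn (fun u : ℝ => Real.exp (-(k : ℝ) * u) * f u) (Ioi 0))
    (hm : ∀ k : ℕ, ∫ u in Ioi (0:ℝ), Real.exp (-(k : ℝ) * u) * f u = L k) : IsLambda L := by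
  refine ⟨hL, ?_⟩
  intro p hp x
  have h1 : (act L p).eval x = ∫ u in Ioi (0:ℝ), p.eval (x * Real.exp (-u)) * f u := by
    rw [act_eval']
    have h2 : ∀ u : ℝ, p.eval (x * Real.exp (-u)) * f u
        = ∑ k ∈ Finset.range (p.natDegree + 1), (p.coeff k * x ^ k) * (Real.exp (-(k : ℝ) * u) * f u) := by
      intro u
      rw [eval_eq_sum_range, Finset.sum_mul]
      apply Finset.sum_congr rfl
      intro k _
      have : Real.exp (-(k : ℝ) * u) = (Real.exp (-u)) ^ k := by
        rw [← Real.exp_nat_mul]; congr 1; ring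
      rw [this, mul_pow]; ring
    simp_rw [h2]
    rw [integral_finsetSum]
    · apply Finset.sum_congr rfl
      intro k _
      rw [integral_const_mul, hm k]; ring
    · intro k _
      exact (hi k).const_mul _
  rw [h1]
  apply setIntegral_nonneg measurableSet_Ioi
  intro u hu
  exact mul_nonneg (hp _) (hf u hu)

theorem isLambda_linear (a : ℝ) (ha : 0 < a) : IsLambda (fun k : ℕ => 1 / ((k : ℝ) + a)) := by
  have hk : ∀ k : ℕ, -(k : ℝ) - a < 0 := by
    intro k; have : (0:ℝ) ≤ k := Nat.cast_nonneg k; linarith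
  have heq : ∀ k : ℕ, (fun u : ℝ => Real.exp (-(k : ℝ) * u) * Real.exp (-a * u))
      = fun u : ℝ => Real.exp ((-(k : ℝ) - a) * u) := by
    intro k; funext u
    rw [← Real.exp_add]; congr 1; ring
  apply isLambda_of_density _ _ (fun u => Real.exp (-a * u)) (fun u _ => (Real.exp_pos _).le)
  · intro k
    rw [heq k]
    exact integrableOn_exp_mul_Ioi (hk k) 0
  · intro k
    rw [heq k, integral_exp_mul_Ioi (hk k) 0, mul_zero, Real.exp_zero]
    have := hk k
    have h2 : (-(k : ℝ) - a) ≠ 0 := by linarith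
    have h3 : (k : ℝ) + a ≠ 0 := by linarith
    field_simp
    ring
  · intro k
    have : (0:ℝ) < (k : ℝ) + a := by have := hk k; linarith
    positivity

/-- the elementary inequality `cos x + y sin x ≤ exp (y x)` for `x, y ≥ 0` in the form used -/
theorem cos_add_le (x y : ℝ) (hx : 0 ≤ x) (hy : 0 ≤ y) : Real.cos x + y * Real.sin x ≤ Real.exp (y * x) := by
  have h1 : Real.cos x ≤ 1 := Real.cos_le_one x
  have h2 : Real.sin x ≤ x := Real.sin_le hx
  have h3 : y * x + 1 ≤ Real.exp (y * x) := Real.add_one_le_exp _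
  have h4 : y * Real.sin x ≤ y * x := mul_le_mul_of_nonneg_left h2 hy
  linarith

theorem isLambda_cubic (a b c : ℝ) (ha : 0 < a) (hab : a ≤ b) (hc : 0 < c) :
    IsLambda (fun k : ℕ => 1 / (((k : ℝ) + a) * (((k : ℝ) + b) ^ 2 + c ^ 2))) := by
  set δ : ℝ := b - a with hδ
  have hδ0 : 0 ≤ δ := by rw [hδ]; linarith
  have hka : ∀ k : ℕ, (0:ℝ) < (k : ℝ) + a := by
    intro k; have : (0:ℝ) ≤ k := Nat.cast_nonneg k; linarith
  have hkb : ∀ k : ℕ, (0:ℝ) < (k : ℝ) + b := fun k => by have := hka k; linarith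
  set D : ℝ := c ^ 2 + δ ^ 2 with hD
  have hD0 : 0 < D := by positivity
  -- the density
  set f : ℝ → ℝ := fun u => (Real.exp (-a * u) - Real.exp (-b * u) * (Real.cos (c * u) + δ / c * Real.sin (c * u))) / D with hf
  -- complex form of the oscillating part
  set w : ℂ := (1 : ℂ) - (δ / c : ℝ) * Complex.I with hw
  have hosc : ∀ (k : ℕ) (u : ℝ), Real.exp (-(k : ℝ) * u) * (Real.exp (-b * u) * (Real.cos (c * u) + δ / c * Real.sin (c * u)))
      = (w * Complex.exp ((-((k : ℝ) + b : ℝ) + c * Complex.I) * u)).re := by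
    intro k u
    have e1 : (-((k : ℝ) + b : ℝ) + c * Complex.I) * u = ((-((k : ℝ) + b) * u : ℝ) : ℂ) + ((c * u : ℝ) : ℂ) * Complex.I := by
      push_cast; ring
    rw [e1, Complex.exp_add, Complex.exp_mul_I, ← Complex.ofReal_exp, ← Complex.ofReal_cos, ← Complex.ofReal_sin, hw]
    have e2 : Real.exp (-((k : ℝ) + b) * u) = Real.exp (-(k : ℝ) * u) * Real.exp (-b * u) := by
      rw [← Real.exp_add]; congr 1; ring
    rw [e2]
    simp only [Complex.mul_re, Complex.sub_re, Complex.one_re, Complex.ofReal_re, Complex.I_re, Complex.ofReal_im,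
      Complex.I_im, Complex.add_re, Complex.add_im, Complex.sub_im, Complex.one_im, Complex.mul_im]
    ring
  have hre : ∀ k : ℕ, (-((k : ℝ) + b : ℝ) + c * Complex.I : ℂ).re < 0 := by
    intro k
    have := hkb k
    simp only [Complex.add_re, Complex.neg_re, Complex.ofReal_re, Complex.mul_re, Complex.I_re, mul_zero,
      Complex.ofReal_im, Complex.I_im, mul_one, sub_zero]
    linarith
  have hi2c : ∀ k : ℕ, IntegrableOn (fun u : ℝ => w * Complex.exp ((-((k : ℝ) + b : ℝ) + c * Complex.I) * u)) (Ioi 0) :=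
    fun k => (integrableOn_exp_mul_complex_Ioi (hre k) 0).const_mul _
  have hi2 : ∀ k : ℕ, IntegrableOn (fun u : ℝ => Real.exp (-(k : ℝ) * u) * (Real.exp (-b * u) * (Real.cos (c * u) + δ / c * Real.sin (c * u)))) (Ioi 0) := by
    intro k
    simp_rw [hosc k]
    exact (hi2c k).re
  have hi1 : ∀ k : ℕ, IntegrableOn (fun u : ℝ => Real.exp (-(k : ℝ) * u) * Real.exp (-a * u)) (Ioi 0) := by
    intro k
    have heq : (fun u : ℝ => Real.exp (-(k : ℝ) * u) * Real.exp (-a * u)) = fun u : ℝ => Real.exp ((-(k : ℝ) - a) * u) := by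
      funext u; rw [← Real.exp_add]; congr 1; ring
    rw [heq]
    exact integrableOn_exp_mul_Ioi (by have := hka k; linarith) 0
  have hI1 : ∀ k : ℕ, ∫ u in Ioi (0:ℝ), Real.exp (-(k : ℝ) * u) * Real.exp (-a * u) = 1 / ((k : ℝ) + a) := by
    intro k
    have heq : (fun u : ℝ => Real.exp (-(k : ℝ) * u) * Real.exp (-a * u)) = fun u : ℝ => Real.exp ((-(k : ℝ) - a) * u) := by
      funext u; rw [← Real.exp_add]; congr 1; ring
    rw [heq, integral_exp_mul_Ioi (by have := hka k; linarith) 0, mul_zero, Real.exp_zero]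
    have := hka k
    have h2 : (-(k : ℝ) - a) ≠ 0 := by linarith
    field_simp
    ring
  have hI2 : ∀ k : ℕ, ∫ u in Ioi (0:ℝ), Real.exp (-(k : ℝ) * u) * (Real.exp (-b * u) * (Real.cos (c * u) + δ / c * Real.sin (c * u)))
      = (((k : ℝ) + b) + δ) / (((k : ℝ) + b) ^ 2 + c ^ 2) := by
    intro k
    simp_rw [hosc k]
    have h1 : ∫ u in Ioi (0:ℝ), (w * Complex.exp ((-((k : ℝ) + b : ℝ) + c * Complex.I) * u)).re
        = (∫ u in Ioi (0:ℝ), w * Complex.exp ((-((k : ℝ) + b : ℝ) + c * Complex.I) * u)).re := by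
      have := integral_re (hi2c k)
      simpa using this
    rw [h1, integral_const_mul, integral_exp_mul_complex_Ioi (hre k) 0]
    simp only [Complex.ofReal_zero, mul_zero, Complex.exp_zero]
    set q : ℝ := (k : ℝ) + b with hq
    have hq0 : 0 < q := hkb k
    have hN : (0:ℝ) < q ^ 2 + c ^ 2 := by positivity
    have h3 : (-1 : ℂ) / (-(q : ℂ) + c * Complex.I) = ((q / (q ^ 2 + c ^ 2) : ℝ) : ℂ) + ((c / (q ^ 2 + c ^ 2) : ℝ) : ℂ) * Complex.I := by
      have h4 : (-(q : ℂ) + c * Complex.I) ≠ 0 := by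
        intro h
        have := congrArg Complex.re h
        simp at this
        linarith
      rw [div_eq_iff h4]
      have h5 : ((q ^ 2 + c ^ 2 : ℝ) : ℂ) ≠ 0 := by exact_mod_cast hN.ne'
      push_cast at h5 ⊢
      field_simp
      ring_nf
      rw [Complex.I_sq]; ring
    rw [h3, hw]
    simp only [Complex.mul_re, Complex.sub_re, Complex.one_re, Complex.ofReal_re, Complex.I_re, Complex.ofReal_im,
      Complex.I_im, Complex.add_re, Complex.add_im, Complex.sub_im, Complex.one_im, Complex.mul_im]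
    field_simp
    ring
  have heqf : ∀ k : ℕ, (fun u : ℝ => Real.exp (-(k : ℝ) * u) * f u) = fun u : ℝ =>
      D⁻¹ * (Real.exp (-(k : ℝ) * u) * Real.exp (-a * u) - Real.exp (-(k : ℝ) * u) * (Real.exp (-b * u) * (Real.cos (c * u) + δ / c * Real.sin (c * u)))) := by
    intro k; funext u
    simp only [hf]
    rw [div_eq_mul_inv]; ring
  apply isLambda_of_density _ _ f
  · intro u hu
    simp only [hf]
    apply div_nonneg _ hD0.le
    have h1 := cos_add_le (c * u) (δ / c) (by positivity) (by positivity)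
    have h2 : δ / c * (c * u) = δ * u := by field_simp
    rw [h2] at h1
    have h3 : Real.exp (-a * u) = Real.exp (-b * u) * Real.exp (δ * u) := by
      rw [← Real.exp_add]; congr 1; rw [hδ]; ring
    rw [h3]
    have h4 := mul_le_mul_of_nonneg_left h1 (Real.exp_pos (-b * u)).le
    linarith
  · intro k
    rw [heqf k]
    exact ((hi1 k).sub (hi2 k)).const_mul _
  · intro k
    rw [heqf k, integral_const_mul, integral_sub (hi1 k) (hi2 k), hI1 k, hI2 k]
    have h1 := hka k
    have h2 : (0:ℝ) < ((k : ℝ) + b) ^ 2 + c ^ 2 := by have := hkb k; positivity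
    have h3 : D = c ^ 2 + (b - a) ^ 2 := by rw [hD, hδ]
    rw [hδ]
    field_simp
    rw [h3]; ring
  · intro k
    have h1 := hka k
    have h2 : (0:ℝ) < ((k : ℝ) + b) ^ 2 + c ^ 2 := by have := hkb k; positivity
    positivity

end Pool.Agent.LAM55
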