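import Pool.Agent.H55.LAM.Nec2
import Pool.Agent.H55.LAM.Suf

/-!
Criterion: positivity of the inverse Laplace transform of `1/h`.
-/

open Set Polynomial Filter Topology MeasureTheory

namespace Pool.Agent.LAM55

theorem cgreen (S : Multiset ℂ) (hS : S ≠ 0) : ∃ g : ℝ → ℂ, Continuous g ∧
    ∀ s : ℂ, (∀ z ∈ S, z.re < s.re) →
      Integrable (fun u : ℝ => Complex.exp (-s * u) * Set.indicator (Ioi 0) g u) ∧
      ∫ u : ℝ, Complex.exp (-s * u) * Set.indicator (Ioi 0) g u = ((S.map (fun z => s - z)).prod)⁻¹ := by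
  have base : ∀ (z s : ℂ), z.re < s.re →
      Integrable (fun u : ℝ => Complex.exp (-s * u) * Set.indicator (Ioi 0) (fun u : ℝ => Complex.exp (z * u)) u) ∧
      ∫ u : ℝ, Complex.exp (-s * u) * Set.indicator (Ioi 0) (fun u : ℝ => Complex.exp (z * u)) u = (s - z)⁻¹ := by
    intro z s hs
    have hre : (z - s).re < 0 := by simp; linarith
    have heq : (fun u : ℝ => Complex.exp (-s * u) * Set.indicator (Ioi 0) (fun u : ℝ => Complex.exp (z * u)) u)
        = Set.indicator (Ioi 0) (fun u : ℝ => Complex.exp ((z - s) * u)) := by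
      funext u
      by_cases hu : u ∈ Ioi (0:ℝ)
      · rw [Set.indicator_of_mem hu, Set.indicator_of_mem hu, ← Complex.exp_add]
        congr 1; ring
      · rw [Set.indicator_of_notMem hu, Set.indicator_of_notMem hu, mul_zero]
    rw [heq]
    constructor
    · rw [integrable_indicator_iff measurableSet_Ioi]
      exact integrableOn_exp_mul_complex_Ioi hre 0
    · rw [integral_indicator measurableSet_Ioi, integral_exp_mul_complex_Ioi hre 0]
      have h0 : z - s ≠ 0 := by
        intro h; rw [h] at hre; simp at hre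
      have h1 : s - z ≠ 0 := by
        intro h; apply h0; rw [← neg_sub, h, neg_zero]
      simp only [Complex.ofReal_zero, mul_zero, Complex.exp_zero]
      field_simp
      ring
  induction S using Multiset.induction_on with
  | empty => exact absurd rfl hS
  | cons z0 S ih =>
    by_cases hS0 : S = 0
    · subst hS0
      refine ⟨fun u : ℝ => Complex.exp (z0 * u), by fun_prop, ?_⟩
      intro s hs
      have := base z0 s (hs z0 (by simp))
      simpa using this
    · obtain ⟨g, hgc, h1⟩ := ih hS0
      set k : ℝ → ℂ := Set.indicator (Ioi 0) (fun u : ℝ => Complex.exp (z0 * u)) with hk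
      set G : ℝ → ℂ := Set.indicator (Ioi 0) g with hG
      set g' : ℝ → ℂ := fun u => Complex.exp (z0 * u) * ∫ v in (0:ℝ)..u, Complex.exp (-(z0 * v)) * g v with hg'
      have hinner : Continuous (fun v : ℝ => Complex.exp (-(z0 * v)) * g v) := by fun_prop
      have hg'c : Continuous g' := by
        simp only [hg']
        apply Continuous.mul (by fun_prop)
        exact intervalIntegral.continuous_primitive (fun a b => hinner.intervalIntegrable a b) 0
      have hconv : Set.indicator (Ioi 0) g' = convolution k G (ContinuousLinearMap.mul ℝ ℂ) volume := by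
        funext u
        rw [convolution_def]
        simp only [ContinuousLinearMap.mul_apply']
        have hint : ∀ t : ℝ, k t * G (u - t) = Set.indicator (Ioo 0 u) (fun t : ℝ => Complex.exp (z0 * t) * g (u - t)) t := by
          intro t
          by_cases ht : t ∈ Ioo (0:ℝ) u
          · rw [Set.indicator_of_mem ht, hk, hG, Set.indicator_of_mem (show t ∈ Ioi (0:ℝ) from ht.1),
              Set.indicator_of_mem (show u - t ∈ Ioi (0:ℝ) from by simp only [Set.mem_Ioi]; linarith [ht.2])]
          · rw [Set.indicator_of_notMem ht]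
            by_cases h0 : 0 < t
            · have h2 : u - t ∉ Ioi (0:ℝ) := by
                simp only [Set.mem_Ioi, not_lt]
                by_contra h3
                push Not at h3
                exact ht ⟨h0, by linarith⟩
              rw [hG, Set.indicator_of_notMem h2, mul_zero]
            · rw [hk, Set.indicator_of_notMem (show t ∉ Ioi (0:ℝ) from h0), zero_mul]
        simp_rw [hint]
        rw [integral_indicator measurableSet_Ioo]
        by_cases hu : 0 < u
        · rw [Set.indicator_of_mem (show u ∈ Ioi (0:ℝ) from hu), ← integral_Ioc_eq_integral_Ioo,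
            ← intervalIntegral.integral_of_le hu.le]
          have h3 := intervalIntegral.integral_comp_sub_left (a := 0) (b := u)
            (fun v : ℝ => Complex.exp (z0 * (u - v : ℝ)) * g v) u
          simp only [sub_sub_cancel, sub_self, sub_zero] at h3
          rw [h3]
          simp only [hg']
          rw [← intervalIntegral.integral_const_mul]
          apply intervalIntegral.integral_congr
          intro v _
          simp only
          rw [← mul_assoc, ← Complex.exp_add]
          congr 2
          push_cast; ring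
        · rw [Set.indicator_of_notMem (show u ∉ Ioi (0:ℝ) from hu), Set.Ioo_eq_empty hu]
          simp
      refine ⟨g', hg'c, ?_⟩
      intro s hs
      have hs1 := base z0 s (hs z0 (by simp))
      have hs2 := h1 s (fun z hz => hs z (by simp [hz]))
      rw [hconv]
      have heq : (fun u : ℝ => Complex.exp (-s * u) * convolution k G (ContinuousLinearMap.mul ℝ ℂ) volume u)
          = convolution (fun u : ℝ => Complex.exp (-s * u) * k u) (fun u : ℝ => Complex.exp (-s * u) * G u)
            (ContinuousLinearMap.mul ℝ ℂ) volume := by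
        funext u
        rw [convolution_def, convolution_def, ← integral_const_mul]
        apply integral_congr_ae
        filter_upwards with t
        simp only [ContinuousLinearMap.mul_apply']
        have : Complex.exp (-s * u) = Complex.exp (-s * t) * Complex.exp (-s * ((u - t : ℝ) : ℂ)) := by
          rw [← Complex.exp_add]; congr 1; push_cast; ring
        rw [this]; ring
      rw [heq]
      constructor
      · exact hs1.1.integrable_convolution _ hs2.1
      · rw [integral_convolution _ hs1.1 hs2.1, hs1.2, hs2.2]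
        simp only [ContinuousLinearMap.mul_apply', Multiset.map_cons, Multiset.prod_cons]
        rw [mul_inv]

/-- Laplace representation of `1/H` with a continuous real density on the half line -/
theorem clap (H : ℝ[X]) (hd : 0 < H.natDegree) :
    ∃ g : ℝ → ℂ, Continuous g ∧
      ∀ s : ℂ, (∀ z : ℂ, aeval z H = 0 → z.re < s.re) →
        Integrable (fun u : ℝ => Complex.exp (-s * u) * Set.indicator (Ioi 0) g u) ∧
        ∫ u : ℝ, Complex.exp (-s * u) * Set.indicator (Ioi 0) g u = (aeval s H)⁻¹ := by
  set S := (H.map (algebraMap ℝ ℂ)).roots with hS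
  have hH0 : H ≠ 0 := by rintro rfl; simp at hd
  have hcard : Multiset.card S = H.natDegree := by
    rw [hS, ← (IsAlgClosed.splits (H.map (algebraMap ℝ ℂ))).natDegree_eq_card_roots, natDegree_map]
  have hS0 : S ≠ 0 := by
    intro h; rw [h] at hcard; simp at hcard; omega
  obtain ⟨g, h0, h1⟩ := cgreen S hS0
  refine ⟨fun u => (H.leadingCoeff : ℂ)⁻¹ * g u, by fun_prop, ?_⟩
  intro s hs
  have h2 := h1 s (by
    intro z hz
    have hz' : aeval z H = 0 := by
      rw [aeval_def, ← eval_map]
      exact (mem_roots'.1 hz).2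
    exact hs z hz')
  have heq : (fun u : ℝ => Complex.exp (-s * u) * Set.indicator (Ioi 0) (fun u => (H.leadingCoeff : ℂ)⁻¹ * g u) u)
      = fun u : ℝ => (H.leadingCoeff : ℂ)⁻¹ * (Complex.exp (-s * u) * Set.indicator (Ioi 0) g u) := by
    funext u
    by_cases hu : u ∈ Ioi (0:ℝ)
    · rw [Set.indicator_of_mem hu, Set.indicator_of_mem hu]; ring
    · rw [Set.indicator_of_notMem hu, Set.indicator_of_notMem hu]; ring
  rw [heq]
  refine ⟨h2.1.const_mul _, ?_⟩
  rw [integral_const_mul, h2.2, aeval_prod, mul_inv]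

/-- the density may be taken real -/
theorem rlap (H : ℝ[X]) (hd : 0 < H.natDegree) :
    ∃ g : ℝ → ℝ, Continuous g ∧
      ∀ s : ℂ, (∀ z : ℂ, aeval z H = 0 → z.re < s.re) →
        Integrable (fun u : ℝ => Complex.exp (-s * u) * Set.indicator (Ioi 0) (fun u => ((g u : ℝ) : ℂ)) u) ∧
        ∫ u : ℝ, Complex.exp (-s * u) * Set.indicator (Ioi 0) (fun u => ((g u : ℝ) : ℂ)) u = (aeval s H)⁻¹ := by
  obtain ⟨g, hgc, hg⟩ := clap H hd
  refine ⟨fun u => (g u).re, Complex.continuous_re.comp hgc, ?_⟩
  intro s hs
  obtain ⟨h1, h2⟩ := hg s hs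
  obtain ⟨h3, h4⟩ := hg ((starRingEnd ℂ) s) (by simpa using hs)
  -- the conjugate
  have h5 : Integrable (fun u : ℝ => (starRingEnd ℂ) (Complex.exp (-((starRingEnd ℂ) s) * u) * Set.indicator (Ioi 0) g u)) :=
    (Complex.conjCLE : ℂ ≃L[ℝ] ℂ).toContinuousLinearMap.integrable_comp h3
  have h6 : ∫ u : ℝ, (starRingEnd ℂ) (Complex.exp (-((starRingEnd ℂ) s) * u) * Set.indicator (Ioi 0) g u)
      = (aeval s H)⁻¹ := by
    rw [integral_conj, h4, aeval_conj', map_inv₀, Complex.conj_conj]
  have heq : (fun u : ℝ => Complex.exp (-s * u) * Set.indicator (Ioi 0) (fun u => (((g u).re : ℝ) : ℂ)) u)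
      = fun u : ℝ => (1 / 2 : ℂ) * (Complex.exp (-s * u) * Set.indicator (Ioi 0) g u +
        (starRingEnd ℂ) (Complex.exp (-((starRingEnd ℂ) s) * u) * Set.indicator (Ioi 0) g u)) := by
    funext u
    have e1 : (starRingEnd ℂ) (Complex.exp (-((starRingEnd ℂ) s) * u)) = Complex.exp (-s * u) := by
      rw [← Complex.exp_conj]; congr 1; simp
    rw [map_mul, e1]
    by_cases hu : u ∈ Ioi (0:ℝ)
    · rw [Set.indicator_of_mem hu, Set.indicator_of_mem hu, Complex.re_eq_add_conj]
      ring
    · rw [Set.indicator_of_notMem hu, Set.indicator_of_notMem hu]; simp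
  rw [heq]
  refine ⟨(h1.add h5).const_mul _, ?_⟩
  rw [integral_const_mul, integral_add h1 h5, h2, h6]
  ring

theorem crit (h : ℝ[X]) (hd : 0 < h.natDegree) (hpos : ∀ k : ℕ, 0 < h.eval (k : ℝ)) :
    ∃ g : ℝ → ℝ, Continuous g ∧
      (∀ s : ℂ, (∀ z : ℂ, aeval z h = 0 → z.re < s.re) →
        Integrable (fun u : ℝ => Complex.exp (-s * u) * Set.indicator (Ioi 0) (fun u => ((g u : ℝ) : ℂ)) u) ∧
        ∫ u : ℝ, Complex.exp (-s * u) * Set.indicator (Ioi 0) (fun u => ((g u : ℝ) : ℂ)) u = (aeval s h)⁻¹) ∧
      (∀ s : ℝ, (∀ z : ℂ, aeval z h = 0 → z.re < s) →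
        IntegrableOn (fun u : ℝ => Real.exp (-s * u) * g u) (Ioi 0) ∧
        ∫ u in Ioi (0:ℝ), Real.exp (-s * u) * g u = 1 / h.eval s) ∧
      (IsLambda (fun k => 1 / h.eval (k : ℝ)) ↔
        (∀ z : ℂ, aeval z h = 0 → z.re < 0) ∧ ∀ u : ℝ, 0 < u → 0 ≤ g u) := by
  obtain ⟨gr, hgrc, hgr⟩ := rlap h hd
  set g : ℝ → ℂ := fun u => ((gr u : ℝ) : ℂ) with hgdef
  have hgc : Continuous g := Complex.continuous_ofReal.comp hgrc
  have hg : ∀ s : ℂ, (∀ z : ℂ, aeval z h = 0 → z.re < s.re) →
        Integrable (fun u : ℝ => Complex.exp (-s * u) * Set.indicator (Ioi 0) g u) ∧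
        ∫ u : ℝ, Complex.exp (-s * u) * Set.indicator (Ioi 0) g u = (aeval s h)⁻¹ := hgr
  have hreal : ∀ s : ℝ, (∀ z : ℂ, aeval z h = 0 → z.re < s) →
        IntegrableOn (fun u : ℝ => Real.exp (-s * u) * (g u).re) (Ioi 0) ∧
        ∫ u in Ioi (0:ℝ), Real.exp (-s * u) * (g u).re = 1 / h.eval s := by
    intro s hs
    obtain ⟨h1, h2⟩ := hg (s : ℂ) (by simpa using hs)
    have heq : (fun u : ℝ => Complex.exp (-(s : ℂ) * u) * Set.indicator (Ioi 0) g u)
        = Set.indicator (Ioi 0) (fun u : ℝ => Complex.exp (-(s : ℂ) * u) * g u) := by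
      funext u
      by_cases hu : u ∈ Ioi (0:ℝ)
      · rw [Set.indicator_of_mem hu, Set.indicator_of_mem hu]
      · rw [Set.indicator_of_notMem hu, Set.indicator_of_notMem hu, mul_zero]
    rw [heq] at h1 h2
    rw [integrable_indicator_iff measurableSet_Ioi] at h1
    rw [integral_indicator measurableSet_Ioi] at h2
    have hre : ∀ u : ℝ, (Complex.exp (-(s : ℂ) * u) * g u).re = Real.exp (-s * u) * (g u).re := by
      intro u
      have : Complex.exp (-(s : ℂ) * u) = ((Real.exp (-s * u) : ℝ) : ℂ) := by push_cast; rfl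
      rw [this, Complex.re_ofReal_mul]
    have h3 : IntegrableOn (fun u : ℝ => (Complex.exp (-(s : ℂ) * u) * g u).re) (Ioi 0) := Integrable.re h1
    have h4 : ∫ u in Ioi (0:ℝ), (Complex.exp (-(s : ℂ) * u) * g u).re
        = (∫ u in Ioi (0:ℝ), Complex.exp (-(s : ℂ) * u) * g u).re := by
      have := integral_re h1
      simpa using this
    simp_rw [hre] at h3 h4
    refine ⟨h3, ?_⟩
    rw [h4, h2, aeval_ofReal', ← Complex.ofReal_inv, Complex.ofReal_re, one_div]
  refine ⟨fun u => (g u).re, Complex.continuous_re.comp hgc, ?_, hreal, ?_⟩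
  · intro s hs
    have h1 := hg s hs
    have h2 : (fun u : ℝ => (((g u).re : ℝ) : ℂ)) = g := by funext u; simp [hgdef]
    rw [h2]; exact h1
  constructor
  · intro hl
    obtain ⟨ρ, hρ0, hρ1, hρ2⟩ := nec h hd hpos hl
    refine ⟨fun z hz => (hρ2 z hz).trans_lt hρ0, ?_⟩
    obtain ⟨M, hM⟩ := bdd_inv h hd
    -- the functional of the even terms
    set Lam := lf (fun k => 1 / h.eval ((2 * k : ℕ) : ℝ)) with hLam
    have hLpos : ∀ p : ℝ[X], (∀ t ∈ Icc (0:ℝ) 1, 0 ≤ p.eval t) → 0 ≤ Lam p :=
      fun p hp => lf_even_nonneg (fun k => 1 / h.eval (k : ℝ)) hl M hM p hp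
    set G2 : ℝ → ℂ := fun u => (1 / 2 : ℂ) * Set.indicator (Ioi 0) g (u / 2) with hG2
    have hG20 : ∀ u, u < 0 → G2 u = 0 := by
      intro u hu
      simp only [hG2]
      rw [Set.indicator_of_notMem, mul_zero]
      simp only [Set.mem_Ioi, not_lt]; linarith
    have hG2int : ∀ s : ℂ, 0 < s.re → Integrable (fun u : ℝ => Complex.exp (-s * u) * G2 u) ∧
        ∫ u : ℝ, Complex.exp (-s * u) * G2 u = (aeval (2 * s) h)⁻¹ := by
      intro s hs
      have h2s : (2 * s : ℂ).re = 2 * s.re := by simp
      obtain ⟨h1, h2⟩ := hg (2 * s) (by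
        intro z hz
        rw [h2s]
        have := hρ2 z hz
        linarith)
      have heq : (fun u : ℝ => Complex.exp (-s * u) * G2 u) =
          fun u : ℝ => (1 / 2 : ℂ) * ((fun v : ℝ => Complex.exp (-(2 * s) * v) * Set.indicator (Ioi 0) g v) (u / 2)) := by
        funext u
        simp only [hG2]
        have : Complex.exp (-(2 * s) * ((u / 2 : ℝ) : ℂ)) = Complex.exp (-s * u) := by
          congr 1; push_cast; ring
        rw [this]; ring
      rw [heq]
      refine ⟨(h1.comp_div (by norm_num : (2:ℝ) ≠ 0)).const_mul _, ?_⟩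
      rw [integral_const_mul, Measure.integral_comp_div (fun v : ℝ => Complex.exp (-(2 * s) * v) * Set.indicator (Ioi 0) g v) 2, h2]
      simp
    have hmom : ∀ k : ℕ, (0:ℝ) < (k : ℝ) → ∫ u : ℝ, Complex.exp (-(k : ℂ) * u) * G2 u = ((Lam (X ^ k) : ℝ) : ℂ) := by
      intro k hk
      rw [(hG2int (k : ℂ) (by simpa using hk)).2, hLam, lf_X_pow]
      have : (2 * (k : ℂ)) = (((2 * k : ℕ) : ℝ) : ℂ) := by push_cast; ring
      rw [this, aeval_ofReal', one_div, Complex.ofReal_inv]
    intro u0 hu0
    by_contra hneg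
    push Not at hneg
    have hcont : ContinuousAt (fun u => (g u).re) u0 := (Complex.continuous_re.comp hgc).continuousAt
    obtain ⟨δ, hδ, hball⟩ := Metric.eventually_nhds_iff.1 (hcont.eventually_lt_const (show (g u0).re < (g u0).re / 2 by linarith))
    set η : ℝ := min δ u0 with hη
    have hη0 : 0 < η := lt_min hδ hu0
    set c : ℝ → ℝ := fun u => max 0 (η - |u / 2 - u0|) with hc
    have hcc : Continuous c := by simp only [hc]; fun_prop
    have hc0 : ∀ u, 0 ≤ c u := fun u => le_max_left _ _
    have hcM : ∀ u, c u ≤ η := fun u => max_le hη0.le (by have := abs_nonneg (u / 2 - u0); linarith)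
    have hcore := (core Lam hLpos G2 0 hG20 (fun s hs => (hG2int s hs).1) hmom 1 one_pos c hcc hc0 η hcM).1
    -- the integrand is the negative of a continuous nonnegative function
    set f : ℝ → ℝ := fun u => c u * Real.exp (-u) * (-(1/2) * (g (u / 2)).re) with hf
    have hfc : Continuous f := by
      simp only [hf]
      exact (hcc.mul (by fun_prop)).mul (continuous_const.mul (Complex.continuous_re.comp (hgc.comp (by fun_prop))))
    have hsupp : ∀ u, c u ≠ 0 → |u / 2 - u0| < η := by
      intro u hu
      by_contra h1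
      push Not at h1
      apply hu
      simp only [hc]
      exact max_eq_left (by linarith)
    have hf0 : ∀ u, 0 ≤ f u := by
      intro u
      by_cases h1 : c u = 0
      · simp only [hf, h1, zero_mul]; exact le_rfl
      · have h2 := hsupp u h1
        have h3 : (g (u / 2)).re < (g u0).re / 2 := hball (by
          rw [Real.dist_eq]; exact h2.trans_le (min_le_left _ _))
        simp only [hf]
        apply mul_nonneg (mul_nonneg (hc0 u) (Real.exp_pos _).le)
        linarith
    have hfcs : HasCompactSupport f := by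
      apply HasCompactSupport.intro (isCompact_Icc (a := 2 * (u0 - η)) (b := 2 * (u0 + η)))
      intro u hu
      have h1 : c u = 0 := by
        by_contra h2
        have h3 := abs_lt.1 (hsupp u h2)
        apply hu
        constructor <;> linarith [h3.1, h3.2]
      simp only [hf, h1, zero_mul]
    have hfx : f (2 * u0) ≠ 0 := by
      have h1 : c (2 * u0) = η := by
        simp only [hc]
        rw [mul_div_cancel_left₀ _ (two_ne_zero), sub_self, abs_zero, sub_zero]
        exact max_eq_right hη0.le
      simp only [hf]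
      rw [h1, mul_div_cancel_left₀ _ (two_ne_zero)]
      have h2 : 0 < η * Real.exp (-(2 * u0)) * (-(1/2) * (g u0).re) := by
        apply mul_pos (mul_pos hη0 (Real.exp_pos _))
        linarith
      exact h2.ne'
    have hpos2 := hfc.integral_pos_of_hasCompactSupport_nonneg_nonzero (μ := volume) hfcs hf0 hfx
    have hint : Integrable (fun u : ℝ => ((c u : ℝ) : ℂ) * (Complex.exp (-((1:ℝ) : ℂ) * u) * G2 u)) := by
      apply ((hG2int ((1:ℝ) : ℂ) (by simp)).1).bdd_mul (c := η)
      · exact (Complex.continuous_ofReal.comp hcc).aestronglyMeasurable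
      · filter_upwards with u
        rw [Complex.norm_real, Real.norm_eq_abs, abs_of_nonneg (hc0 u)]
        exact hcM u
    have h5 : (∫ u : ℝ, ((c u : ℝ) : ℂ) * (Complex.exp (-((1:ℝ) : ℂ) * u) * G2 u)).re
        = ∫ u : ℝ, (((c u : ℝ) : ℂ) * (Complex.exp (-((1:ℝ) : ℂ) * u) * G2 u)).re := by
      have := integral_re hint
      simpa using this.symm
    have h6 : ∀ u : ℝ, (((c u : ℝ) : ℂ) * (Complex.exp (-((1:ℝ) : ℂ) * u) * G2 u)).re = - f u := by
      intro u
      by_cases h1 : c u = 0
      · simp only [hf, h1, zero_mul, Complex.ofReal_zero, Complex.zero_re, neg_zero]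
      · have h2 := abs_lt.1 (hsupp u h1)
        have h3 : u / 2 ∈ Ioi (0:ℝ) := by
          simp only [Set.mem_Ioi]
          have : η ≤ u0 := min_le_right _ _
          linarith [h2.1]
        simp only [hG2, hf]
        rw [Set.indicator_of_mem h3]
        have h4 : Complex.exp (-((1:ℝ) : ℂ) * u) = ((Real.exp (-u) : ℝ) : ℂ) := by push_cast; simp
        rw [h4, show (1 / 2 : ℂ) = ((1 / 2 : ℝ) : ℂ) by push_cast; rfl, Complex.re_ofReal_mul, Complex.re_ofReal_mul,
          Complex.re_ofReal_mul]
        ring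
    rw [h5] at hcore
    simp_rw [h6] at hcore
    rw [integral_neg] at hcore
    linarith
  · rintro ⟨hz, hg0⟩
    have hk : ∀ k : ℕ, ∀ z : ℂ, aeval z h = 0 → z.re < (k : ℝ) := by
      intro k z hz1
      have := hz z hz1
      have h2 : (0:ℝ) ≤ k := Nat.cast_nonneg k
      linarith
    apply isLambda_of_density _ (fun k => (one_div_pos.2 (hpos k)).ne') (fun u => (g u).re) hg0
    · intro k; exact (hreal k (hk k)).1
    · intro k; exact (hreal k (hk k)).2

end Pool.Agent.LAM55
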