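import Mathlib

open Polynomial

namespace Pool.Agent.LAM55

/-- the polynomial `Λ[p] = ∑ λ_k a_k x^k` for `p = ∑ a_k x^k` -/
noncomputable def act (L : ℕ → ℝ) (p : ℝ[X]) : ℝ[X] :=
  ∑ k ∈ Finset.range (p.natDegree + 1), C (L k * p.coeff k) * X ^ k

/-- `λ`-sequence: nonzero real numbers such that `Λ[p]` is nonnegative on the real line
whenever `p` is -/
def IsLambda (L : ℕ → ℝ) : Prop :=
  (∀ k, L k ≠ 0) ∧
    ∀ p : ℝ[X], (∀ x : ℝ, 0 ≤ p.eval x) → ∀ x : ℝ, 0 ≤ (act L p).eval x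

end Pool.Agent.LAM55
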