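import Pool.Agent.H55.LAM.Defs

/-!
The linear functional of a `λ`-sequence.
-/

open Set Polynomial Filter Topology

namespace Pool.Agent.LAM55

/-- the functional `x^k ↦ L k` -/
noncomputable def lf (L : ℕ → ℝ) : ℝ[X] →ₗ[ℝ] ℝ :=
  Polynomial.lsum (fun k => (L k) • (LinearMap.id : ℝ →ₗ[ℝ] ℝ))

theorem lf_apply (L : ℕ → ℝ) (p : ℝ[X]) :
    lf L p = ∑ k ∈ Finset.range (p.natDegree + 1), L k * p.coeff k := by
  unfold lf
  rw [Polynomial.lsum_apply, Polynomial.sum_over_range]
  · simp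
  · intro n; simp

theorem lf_monomial (L : ℕ → ℝ) (k : ℕ) (a : ℝ) : lf L (monomial k a) = L k * a := by
  unfold lf
  rw [Polynomial.lsum_apply, Polynomial.sum_monomial_index]
  · simp
  · simp

theorem lf_X_pow (L : ℕ → ℝ) (k : ℕ) : lf L (X ^ k) = L k := by
  rw [← monomial_one_right_eq_X_pow, lf_monomial, mul_one]

theorem act_eval_one (L : ℕ → ℝ) (p : ℝ[X]) : (act L p).eval 1 = lf L p := by
  rw [lf_apply, act, eval_finsetSum]
  apply Finset.sum_congr rfl
  intro k _
  simp

theorem act_eval (L : ℕ → ℝ) (p : ℝ[X]) (x : ℝ) : (act L p).eval x = lf L (p.comp (C x * X)) := by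
  have h : (act L p).eval x = ∑ k ∈ Finset.range (p.natDegree + 1), L k * p.coeff k * x ^ k := by
    rw [act, eval_finsetSum]
    apply Finset.sum_congr rfl
    intro k _
    simp
  rw [h]
  have h2 : p.comp (C x * X) = ∑ k ∈ Finset.range (p.natDegree + 1), monomial k (p.coeff k * x ^ k) := by
    rw [comp, eval₂_eq_sum_range]
    apply Finset.sum_congr rfl
    intro k _
    rw [mul_pow, ← C_pow, ← mul_assoc, ← C_mul, C_mul_X_pow_eq_monomial]
  rw [h2, map_sum]
  apply Finset.sum_congr rfl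
  intro k _
  rw [lf_monomial]; ring

theorem lf_comp_mul (L : ℕ → ℝ) (p : ℝ[X]) (r : ℝ) :
    lf L (p.comp (C r * X)) = ∑ k ∈ Finset.range (p.natDegree + 1), L k * p.coeff k * r ^ k := by
  rw [← act_eval, act, eval_finsetSum]
  apply Finset.sum_congr rfl
  intro k _
  simp

theorem eval_bd (p : ℝ[X]) (n : ℕ) (hn : p.natDegree ≤ n) (y : ℝ) (hy : 1 ≤ |y|) :
    |p.eval y| ≤ (∑ k ∈ Finset.range (p.natDegree + 1), |p.coeff k|) * |y| ^ n := by
  rw [eval_eq_sum_range, Finset.sum_mul]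
  refine (Finset.abs_sum_le_sum_abs _ _).trans (Finset.sum_le_sum ?_)
  intro k hk
  rw [abs_mul, abs_pow]
  apply mul_le_mul_of_nonneg_left _ (abs_nonneg _)
  exact pow_le_pow_right₀ hy (by have := Finset.mem_range.1 hk; omega)

/-- nonnegativity on the line and bounded moments imply nonnegativity on `[-1,1]` -/
theorem lf_nonneg_Icc (L : ℕ → ℝ) (h : ∀ p : ℝ[X], (∀ x : ℝ, 0 ≤ p.eval x) → 0 ≤ lf L p)
    (M : ℝ) (hM : ∀ k, |L k| ≤ M) (p : ℝ[X]) (hp : ∀ x ∈ Icc (-1:ℝ) 1, 0 ≤ p.eval x) :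
    0 ≤ lf L p := by
  set B : ℝ := ∑ k ∈ Finset.range (p.natDegree + 1), |p.coeff k| with hB
  have hB0 : 0 ≤ B := Finset.sum_nonneg (fun _ _ => abs_nonneg _)
  have hM0 : 0 ≤ M := (abs_nonneg _).trans (hM 0)
  have key : ∀ r : ℝ, 0 < r → r < 1 → 0 ≤ lf L (p.comp (C r * X)) := by
    intro r hr0 hr1
    have h1 : ∀ N : ℕ, p.natDegree ≤ N → 0 ≤ lf L (p.comp (C r * X)) + B * M * r ^ N := by
      intro N hN
      have h2 : 0 ≤ lf L (p.comp (C r * X) + monomial (2 * N) (B * r ^ (2 * N))) := by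
        apply h
        intro x
        rw [eval_add, eval_comp, eval_mul, eval_C, eval_X, eval_monomial]
        by_cases hx : |r * x| ≤ 1
        · have h3 := hp (r * x) ⟨(abs_le.1 hx).1, (abs_le.1 hx).2⟩
          have h4 : 0 ≤ B * r ^ (2 * N) * x ^ (2 * N) := by
            rw [pow_mul x]
            positivity
          linarith
        · push Not at hx
          have h3 := eval_bd p (2 * N) (by omega) (r * x) hx.le
          have h4 : |r * x| ^ (2 * N) = r ^ (2 * N) * x ^ (2 * N) := by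
            rw [pow_mul, sq_abs, ← pow_mul, mul_pow]
          rw [h4] at h3
          have h5 := (abs_le.1 h3).1
          linarith
      rw [map_add, lf_monomial] at h2
      have h3 : L (2 * N) * (B * r ^ (2 * N)) ≤ B * M * r ^ N := by
        have h4 : L (2 * N) ≤ M := (le_abs_self _).trans (hM _)
        have h5 : r ^ (2 * N) ≤ r ^ N := pow_le_pow_of_le_one hr0.le hr1.le (by omega)
        have h6 : 0 ≤ r ^ (2 * N) := by positivity
        calc L (2 * N) * (B * r ^ (2 * N)) ≤ M * (B * r ^ (2 * N)) :=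
              mul_le_mul_of_nonneg_right h4 (by positivity)
          _ ≤ M * (B * r ^ N) := by
              apply mul_le_mul_of_nonneg_left _ hM0
              exact mul_le_mul_of_nonneg_left h5 hB0
          _ = B * M * r ^ N := by ring
      linarith
    have h2 : Tendsto (fun N : ℕ => lf L (p.comp (C r * X)) + B * M * r ^ N) atTop
        (𝓝 (lf L (p.comp (C r * X)) + B * M * 0)) :=
      (tendsto_const_nhds).add ((tendsto_pow_atTop_nhds_zero_of_lt_one hr0.le hr1).const_mul _)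
    rw [mul_zero, add_zero] at h2
    refine ge_of_tendsto h2 ?_
    filter_upwards [eventually_ge_atTop p.natDegree] with N hN using h1 N hN
  have hc : Continuous (fun r : ℝ => ∑ k ∈ Finset.range (p.natDegree + 1), L k * p.coeff k * r ^ k) := by
    fun_prop
  have h3 : Tendsto (fun r : ℝ => ∑ k ∈ Finset.range (p.natDegree + 1), L k * p.coeff k * r ^ k) (𝓝[<] 1)
      (𝓝 (∑ k ∈ Finset.range (p.natDegree + 1), L k * p.coeff k * (1:ℝ) ^ k)) :=
    (hc.tendsto 1).mono_left nhdsWithin_le_nhds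
  have h4 : lf L p = ∑ k ∈ Finset.range (p.natDegree + 1), L k * p.coeff k * (1:ℝ) ^ k := by
    rw [lf_apply]; simp
  rw [h4]
  refine ge_of_tendsto h3 ?_
  filter_upwards [Ioo_mem_nhdsLT (show (0:ℝ) < 1 by norm_num)] with r hr
  rw [← lf_comp_mul]
  exact key r hr.1 hr.2

theorem lf_even (L : ℕ → ℝ) (q : ℝ[X]) : lf (fun k => L (2 * k)) q = lf L (q.comp (X ^ 2)) := by
  induction q using Polynomial.induction_on' with
  | add p q hp hq => rw [map_add, add_comp, map_add, hp, hq]
  | monomial k a =>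
    rw [lf_monomial, monomial_comp, ← pow_mul, C_mul_X_pow_eq_monomial, lf_monomial]

theorem lf_even_nonneg (L : ℕ → ℝ) (h : IsLambda L) (M : ℝ) (hM : ∀ k, |L k| ≤ M) (q : ℝ[X])
    (hq : ∀ t ∈ Icc (0:ℝ) 1, 0 ≤ q.eval t) : 0 ≤ lf (fun k => L (2 * k)) q := by
  rw [lf_even]
  apply lf_nonneg_Icc L _ M hM
  · intro x hx
    rw [eval_comp, eval_pow, eval_X]
    apply hq
    refine ⟨sq_nonneg x, ?_⟩
    have := abs_le.2 hx
    nlinarith [abs_nonneg x, sq_abs x]
  · intro p hp
    rw [← act_eval_one]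
    exact h.2 p hp 1

end Pool.Agent.LAM55
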