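import Pool.Agent.H55.LAM.Mult

/-!
For multiplier sequences with ratio tending to one the reciprocals form a `λ`-sequence only if they
are totally monotone.
-/

open Set Polynomial Filter Topology

namespace Pool.Agent.LAM55

/-- Newton coefficients -/
noncomputable def qf (γ : ℕ → ℝ) (j : ℕ) : ℝ := (jf γ j 0).eval 1

theorem qf_fwd (γ : ℕ → ℝ) (j : ℕ) : qf γ j = (fwdDiff 1)^[j] γ 0 := by
  rw [fwdDiff_iter_eq_sum_shift, qf, jf_eval]
  apply Finset.sum_congr rfl
  intro k _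
  simp

theorem newton (γ : ℕ → ℝ) (k : ℕ) : γ k = ∑ j ∈ Finset.range (k + 1), (k.choose j : ℝ) * qf γ j := by
  have h := shift_eq_sum_fwdDiff_iter (1:ℕ) γ k 0
  simp only [smul_eq_mul, mul_one, zero_add, nsmul_eq_mul] at h
  rw [h]
  apply Finset.sum_congr rfl
  intro j _
  rw [qf_fwd]

theorem newton_le (γ : ℕ → ℝ) (n k : ℕ) (hk : k ≤ n) :
    γ k = ∑ j ∈ Finset.range (n + 1), (k.choose j : ℝ) * qf γ j := by
  rw [newton γ k]
  apply Finset.sum_subset
  · intro j hj
    simp only [Finset.mem_range] at hj ⊢; omega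
  · intro j _ hj
    simp only [Finset.mem_range, not_lt] at hj
    rw [Nat.choose_eq_zero_of_lt (by omega)]; simp

/-- the polynomial `∑ C(n,k) (-1)^k γ_k x^k` -/
noncomputable def gp (γ : ℕ → ℝ) (n : ℕ) : ℝ[X] :=
  ∑ k ∈ Finset.range (n + 1), monomial k ((-1) ^ k * (n.choose k : ℝ) * γ k)

theorem gp_eval (γ : ℕ → ℝ) (n : ℕ) (x : ℝ) :
    (gp γ n).eval x = ∑ j ∈ Finset.range (n + 1), qf γ j * ((n.choose j : ℝ) * (-x) ^ j * (1 - x) ^ (n - j)) := by
  have h1 : ∀ j ∈ Finset.range (n + 1), qf γ j * ((n.choose j : ℝ) * (-x) ^ j * (1 - x) ^ (n - j)) =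
      ∑ k ∈ Finset.range (n + 1), (n.choose k : ℝ) * (-x) ^ k * ((k.choose j : ℝ) * qf γ j) := by
    intro j hj
    have h := sum_choose_mul (-x) 1 n j (Nat.lt_succ_iff.1 (Finset.mem_range.1 hj))
    rw [show (1:ℝ) - x = -x + 1 by ring, ← h, Finset.mul_sum]
    apply Finset.sum_congr rfl
    intro k _
    rw [one_pow]; ring
  rw [Finset.sum_congr rfl h1, Finset.sum_comm, gp, eval_finsetSum]
  apply Finset.sum_congr rfl
  intro k hk
  rw [← Finset.mul_sum, ← newton_le γ n k (Nat.lt_succ_iff.1 (Finset.mem_range.1 hk)), eval_monomial, neg_pow x]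
  ring

theorem lf_gp (γ : ℕ → ℝ) (hγ : ∀ k, 0 < γ k) (n : ℕ) (hn : 1 ≤ n) :
    lf (fun k => 1 / γ k) (gp γ n) = 0 := by
  unfold gp
  rw [map_sum]
  have h1 : ∀ k ∈ Finset.range (n + 1), lf (fun k => 1 / γ k) (monomial k ((-1) ^ k * (n.choose k : ℝ) * γ k))
      = (-1) ^ k * (n.choose k : ℝ) := by
    intro k _
    rw [lf_monomial]
    have := (hγ k).ne'
    field_simp
  rw [Finset.sum_congr rfl h1]
  have h2 := add_pow (-1 : ℝ) 1 n
  rw [neg_add_cancel, zero_pow (by omega)] at h2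
  rw [h2]
  apply Finset.sum_congr rfl
  intro k _
  rw [one_pow]; ring

section
variable (γ : ℕ → ℝ) (hD : ∀ n m, 0 ≤ (jf γ n m).eval 1)
include hD

theorem g_mono : Monotone γ := by
  apply monotone_nat_of_le_succ
  intro m
  have h := hD 1 m
  rw [jf_eval] at h
  simp [Finset.sum_range_succ] at h
  linarith

theorem q_nonneg (j : ℕ) : 0 ≤ qf γ j := hD j 0

theorem q_le (j : ℕ) : qf γ j ≤ γ j := by
  rw [newton γ j]
  have h := Finset.single_le_sum (f := fun i => (j.choose i : ℝ) * qf γ i) (s := Finset.range (j + 1))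
    (fun i _ => mul_nonneg (Nat.cast_nonneg _) (hD i 0)) (Finset.mem_range.2 (Nat.lt_succ_self j))
  simpa using h

theorem gp_abs (n : ℕ) (x : ℝ) (hx : x ∈ Icc (0:ℝ) 1) : |(gp γ n).eval x| ≤ γ n := by
  rw [gp_eval]
  refine (Finset.abs_sum_le_sum_abs _ _).trans ?_
  have h1 : ∀ j ∈ Finset.range (n + 1), |qf γ j * ((n.choose j : ℝ) * (-x) ^ j * (1 - x) ^ (n - j))| ≤
      γ n * (x ^ j * (1 - x) ^ (n - j) * (n.choose j : ℝ)) := by
    intro j hj
    have hjn : j ≤ n := Nat.lt_succ_iff.1 (Finset.mem_range.1 hj)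
    rw [abs_mul, abs_mul, abs_mul, abs_of_nonneg (show 0 ≤ qf γ j from hD j 0), Nat.abs_cast, abs_pow, abs_neg,
      abs_of_nonneg hx.1, abs_pow, abs_of_nonneg (sub_nonneg.2 hx.2)]
    have h2 : qf γ j ≤ γ n := (q_le γ hD j).trans (g_mono γ hD hjn)
    have h3 : 0 ≤ (n.choose j : ℝ) * x ^ j * (1 - x) ^ (n - j) := by
      have := hx.1
      have := sub_nonneg.2 hx.2
      positivity
    calc qf γ j * ((n.choose j : ℝ) * x ^ j * (1 - x) ^ (n - j))
        ≤ γ n * ((n.choose j : ℝ) * x ^ j * (1 - x) ^ (n - j)) := mul_le_mul_of_nonneg_right h2 h3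
      _ = _ := by ring
  refine (Finset.sum_le_sum h1).trans ?_
  rw [← Finset.mul_sum, ← add_pow]
  simp

theorem gp_neg (n : ℕ) (y : ℝ) (hy : 0 ≤ y) : γ 0 * (1 + y) ^ n ≤ (gp γ n).eval (-y) := by
  rw [gp_eval]
  have h0 : qf γ 0 = γ 0 := by
    have := newton γ 0
    simp at this
    exact this.symm
  have h := Finset.single_le_sum
    (f := fun j => qf γ j * ((n.choose j : ℝ) * (- -y) ^ j * (1 - -y) ^ (n - j))) (s := Finset.range (n + 1))
    (fun j _ => by
      have : 0 ≤ qf γ j := hD j 0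
      simp only [neg_neg, sub_neg_eq_add]
      positivity) (Finset.mem_range.2 (Nat.succ_pos n))
  simp only [Nat.choose_zero_right, Nat.cast_one, pow_zero, mul_one, one_mul, Nat.sub_zero, h0, sub_neg_eq_add] at h
  simpa using h

end

/-- growth -/
theorem growth (γ : ℕ → ℝ) (hγ : ∀ k, 0 < γ k)
    (hlim : Tendsto (fun k => γ (k + 1) / γ k) atTop (𝓝 1)) (r : ℝ) (hr : 1 < r) :
    Tendsto (fun n => γ n / r ^ n) atTop (𝓝 0) := by
  set c := (1 + r) / 2 with hc
  have hc1 : 1 < c := by rw [hc]; linarith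
  have hcr : c < r := by rw [hc]; linarith
  have h1 : ∀ᶠ k in atTop, γ (k + 1) / γ k < c := hlim.eventually_lt_const hc1
  have h2 : Summable (fun n => γ n / r ^ n) := by
    apply summable_of_ratio_norm_eventually_le (r := c / r) (by rw [div_lt_one (by linarith)]; exact hcr)
    filter_upwards [h1] with k hk
    have h3 := hγ k
    have h4 := hγ (k + 1)
    have h5 : 0 < r ^ k := by positivity
    have h6 : 0 < r ^ (k + 1) := by positivity
    rw [Real.norm_of_nonneg (by positivity), Real.norm_of_nonneg (by positivity)]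
    rw [div_lt_iff₀ h3] at hk
    rw [div_mul_div_comm, pow_succ, mul_comm r (r ^ k)]
    apply div_le_div_of_nonneg_right hk.le
    positivity
  exact h2.tendsto_atTop_zero

theorem lf_nonneg_of_lambda (γ : ℕ → ℝ) (hγ : ∀ k, 0 < γ k) (hD : ∀ n m, 0 ≤ (jf γ n m).eval 1)
    (hlim : Tendsto (fun k => γ (k + 1) / γ k) atTop (𝓝 1)) (hL : IsLambda (fun k => 1 / γ k))
    (p : ℝ[X]) (hp : ∀ t ∈ Icc (0:ℝ) 1, 0 ≤ p.eval t) : 0 ≤ lf (fun k => 1 / γ k) p := by
  have hmono := g_mono γ hD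
  have hbd : ∀ k, |1 / γ k| ≤ 1 / γ 0 := by
    intro k
    rw [abs_of_pos (one_div_pos.2 (hγ k))]
    exact one_div_le_one_div_of_le (hγ 0) (hmono (Nat.zero_le k))
  have hIcc := lf_nonneg_Icc (fun k => 1 / γ k) (fun p hp => by rw [← act_eval_one]; exact hL.2 p hp 1) (1 / γ 0) hbd
  have hconst : ∀ c : ℝ, lf (fun k => 1 / γ k) (C c) = c / γ 0 := by
    intro c
    rw [← monomial_zero_left, lf_monomial]; ring
  -- bound below
  obtain ⟨M, hM0, hM⟩ : ∃ M : ℝ, 0 < M ∧ ∀ x ∈ Icc (-1:ℝ) 1, -M ≤ p.eval x := by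
    obtain ⟨x0, _, hx0⟩ := isCompact_Icc.exists_isMinOn (nonempty_Icc.2 (by norm_num : (-1:ℝ) ≤ 1)) p.continuous.continuousOn
    refine ⟨|p.eval x0| + 1, by positivity, ?_⟩
    intro x hx
    have h1 : p.eval x0 ≤ p.eval x := hx0 hx
    have h2 := neg_abs_le (p.eval x0)
    linarith
  have key : ∀ ε : ℝ, 0 < ε → 0 ≤ lf (fun k => 1 / γ k) p + ε / γ 0 := by
    intro ε hε
    -- continuity at zero
    obtain ⟨δ, hδ0, hδ⟩ : ∃ δ : ℝ, 0 < δ ∧ ∀ x, -δ ≤ x → x ≤ 0 → 0 ≤ p.eval x + ε := by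
      have h1 : ContinuousAt (fun x => p.eval x) 0 := p.continuous.continuousAt
      obtain ⟨δ, hδ, h2⟩ := Metric.continuousAt_iff.1 h1 ε hε
      refine ⟨δ / 2, by positivity, ?_⟩
      intro x hx1 hx2
      have h3 : dist x 0 < δ := by
        rw [Real.dist_eq, sub_zero, abs_of_nonpos hx2]; linarith
      have h4 := h2 h3
      rw [Real.dist_eq] at h4
      have h5 := (abs_lt.1 h4).1
      have h6 := hp 0 (by norm_num)
      linarith
    have h2 : ∀ n : ℕ, 1 ≤ n → 0 ≤ lf (fun k => 1 / γ k) p + ε / γ 0 + M / (γ 0 * (1 + δ) ^ n) * γ n / γ 0 := by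
      intro n hn
      set c : ℝ := M / (γ 0 * (1 + δ) ^ n) with hc
      have hγ0 := hγ 0
      have hγn := hγ n
      have hc0 : 0 < c := by rw [hc]; positivity
      have h3 : 0 ≤ lf (fun k => 1 / γ k) (p + C ε + c • gp γ n + C (c * γ n)) := by
        apply hIcc
        intro x hx
        rw [eval_add, eval_add, eval_add, eval_smul, eval_C, eval_C, smul_eq_mul]
        rcases le_or_gt 0 x with h0 | h0
        · have h4 := hp x ⟨h0, hx.2⟩
          have h5 := (abs_le.1 (gp_abs γ hD n x ⟨h0, hx.2⟩)).1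
          have h6 : 0 ≤ c * ((gp γ n).eval x + γ n) := mul_nonneg hc0.le (by linarith)
          linarith
        · have h4 := gp_neg γ hD n (-x) (by linarith)
          rw [neg_neg] at h4
          have h6 : 0 ≤ c * γ n := by positivity
          rcases le_or_gt (-δ) x with h7 | h7
          · have h8 := hδ x h7 h0.le
            have h9 : 0 ≤ γ 0 * (1 + -x) ^ n := by
              have : 0 ≤ 1 + -x := by linarith
              positivity
            have h10 : 0 ≤ c * (gp γ n).eval x := mul_nonneg hc0.le (by linarith)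
            linarith
          · have h8 := hM x hx
            have h9 : (1 + δ) ^ n ≤ (1 + -x) ^ n := pow_le_pow_left₀ (by positivity) (by linarith) n
            have h10 : γ 0 * (1 + δ) ^ n ≤ (gp γ n).eval x :=
              (mul_le_mul_of_nonneg_left h9 hγ0.le).trans h4
            have h11 : c * (γ 0 * (1 + δ) ^ n) ≤ c * (gp γ n).eval x := mul_le_mul_of_nonneg_left h10 hc0.le
            have h12 : c * (γ 0 * (1 + δ) ^ n) = M := by
              rw [hc]; field_simp
            linarith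
      rw [map_add, map_add, map_add, map_smul, lf_gp γ hγ n hn, smul_zero, add_zero, hconst, hconst] at h3
      exact h3
    have h3 : Tendsto (fun n : ℕ => lf (fun k => 1 / γ k) p + ε / γ 0 + M / (γ 0 * (1 + δ) ^ n) * γ n / γ 0) atTop
        (𝓝 (lf (fun k => 1 / γ k) p + ε / γ 0 + M / (γ 0 * γ 0) * 0)) := by
      apply Tendsto.const_add
      have h4 := (growth γ hγ hlim (1 + δ) (by linarith)).const_mul (M / (γ 0 * γ 0))
      refine h4.congr ?_
      intro n
      have := (hγ 0).ne'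
      have : (1 + δ) ^ n ≠ 0 := by positivity
      field_simp
    rw [mul_zero, add_zero] at h3
    refine ge_of_tendsto h3 ?_
    filter_upwards [eventually_ge_atTop 1] with n hn using h2 n hn
  by_contra hneg
  push Not at hneg
  have h1 := key (-(lf (fun k => 1 / γ k) p) * γ 0 / 2) (by have := hγ 0; have : 0 < -(lf (fun k => 1 / γ k) p) := by linarith
                                                            positivity)
  have h2 : -(lf (fun k => 1 / γ k) p) * γ 0 / 2 / γ 0 = -(lf (fun k => 1 / γ k) p) / 2 := by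
    have := (hγ 0).ne'
    field_simp
  rw [h2] at h1
  linarith

/-- the criterion in the normalised case -/
theorem crit_one (γ : ℕ → ℝ) (hγ : ∀ k, 0 < γ k) (hm : IsMultiplier γ)
    (hlim : Tendsto (fun k => γ (k + 1) / γ k) atTop (𝓝 1)) :
    IsLambda (fun k => 1 / γ k) ↔ ∀ n k : ℕ, 0 ≤ dff (fun k => 1 / γ k) n k := by
  constructor
  · intro hL n k
    rw [← lf_dff]
    apply lf_nonneg_of_lambda γ hγ (diff_nonneg γ hγ hm hlim) hlim hL
    intro t ht
    rw [eval_mul, eval_pow, eval_X, eval_pow, eval_sub, eval_one, eval_X]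
    exact mul_nonneg (pow_nonneg ht.1 _) (pow_nonneg (sub_nonneg.2 ht.2) _)
  · intro h
    exact isLambda_of_tm _ (fun k => one_div_ne_zero (hγ k).ne') h

/-! scaling -/

theorem act_scale (L : ℕ → ℝ) (r : ℝ) (p : ℝ[X]) :
    act (fun k => r ^ k * L k) p = (act L p).comp (C r * X) := by
  ext k
  have h : ((act L p).comp (C r * X)).coeff k = (act L p).coeff k * r ^ k := comp_C_mul_X_coeff
  rw [h, act_coeff, act_coeff]; ring

theorem isLambda_scale (L : ℕ → ℝ) (r : ℝ) (hr : r ≠ 0) (h : IsLambda L) : IsLambda (fun k => r ^ k * L k) := by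
  refine ⟨fun k => mul_ne_zero (pow_ne_zero _ hr) (h.1 k), ?_⟩
  intro p hp x
  rw [act_scale, eval_comp]
  exact h.2 p hp _

theorem isMultiplier_scale (L : ℕ → ℝ) (r : ℝ) (hr : r ≠ 0) (h : IsMultiplier L) :
    IsMultiplier (fun k => r ^ k * L k) := by
  intro p hp z hz
  rw [act_scale, aeval_comp] at hz
  have h1 := h p hp _ hz
  simp only [map_mul, aeval_C, aeval_X, Complex.coe_algebraMap] at h1
  rw [Complex.im_ofReal_mul] at h1
  exact (mul_eq_zero.1 h1).resolve_left hr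

/-- the criterion for positive limit of the ratios -/
theorem crit_pos (γ : ℕ → ℝ) (hγ : ∀ k, 0 < γ k) (hm : IsMultiplier γ) (σ : ℝ) (hσ : 0 < σ)
    (hlim : Tendsto (fun k => γ (k + 1) / γ k) atTop (𝓝 σ)) :
    IsLambda (fun k => 1 / γ k) ↔ ∀ n k : ℕ, 0 ≤ dff (fun k => σ ^ k / γ k) n k := by
  have hσ' := hσ.ne'
  set η : ℕ → ℝ := fun k => (σ⁻¹) ^ k * γ k with hη
  have hη0 : ∀ k, 0 < η k := fun k => mul_pos (by positivity) (hγ k)
  have hηm : IsMultiplier η := isMultiplier_scale γ _ (inv_ne_zero hσ') hm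
  have hηl : Tendsto (fun k => η (k + 1) / η k) atTop (𝓝 1) := by
    have h1 := hlim.const_mul σ⁻¹
    rw [inv_mul_cancel₀ hσ'] at h1
    refine h1.congr ?_
    intro k
    simp only [hη]
    have := (hγ k).ne'
    rw [pow_succ]
    field_simp
  have h1 := crit_one η hη0 hηm hηl
  have h2 : (fun k => 1 / η k) = fun k => σ ^ k / γ k := by
    funext k
    simp only [hη]
    have := (hγ k).ne'
    rw [inv_pow]
    field_simp
  rw [h2] at h1
  rw [← h1]
  constructor
  · intro h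
    have h3 := isLambda_scale _ σ hσ' h
    have h4 : (fun k => σ ^ k * (1 / γ k)) = fun k => σ ^ k / γ k := by
      funext k; ring
    rw [h4] at h3
    exact h3
  · intro h
    have h3 := isLambda_scale _ σ⁻¹ (inv_ne_zero hσ') h
    have h4 : (fun k => σ⁻¹ ^ k * (σ ^ k / γ k)) = fun k => 1 / γ k := by
      funext k
      rw [inv_pow]
      field_simp
    rw [h4] at h3
    exact h3

/-- Turán's inequality -/
theorem turan (γ : ℕ → ℝ) (hγ : ∀ k, 0 < γ k) (hm : IsMultiplier γ) (k : ℕ) :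
    γ k * γ (k + 2) ≤ γ (k + 1) ^ 2 := by
  by_contra hlt
  push Not at hlt
  have hH := jf_hyp γ hm 2 k
  have hpos := hγ (k + 2)
  have hD : 0 < γ k * γ (k + 2) - γ (k + 1) ^ 2 := by linarith
  set s := Real.sqrt (γ k * γ (k + 2) - γ (k + 1) ^ 2) with hs
  have hs0 : 0 < s := Real.sqrt_pos.2 hD
  have hs2 : s ^ 2 = γ k * γ (k + 2) - γ (k + 1) ^ 2 := Real.sq_sqrt hD.le
  have hz := hH (((γ (k + 1) / γ (k + 2) : ℝ) : ℂ) + ((s / γ (k + 2) : ℝ) : ℂ) * Complex.I) (by
    unfold jf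
    rw [map_sum]
    simp only [Finset.sum_range_succ, Finset.sum_range_zero, aeval_monomial, zero_add]
    simp only [Nat.sub_zero, Nat.choose_zero_right, Nat.cast_one, mul_one, pow_zero, Nat.choose_self,
      Nat.choose_one_right, Nat.sub_self, pow_one, Complex.coe_algebraMap, add_zero]
    norm_num
    have h1 : (γ (k + 2) : ℂ) ≠ 0 := by exact_mod_cast hpos.ne'
    have h2 : (s : ℂ) ^ 2 = γ k * γ (k + 2) - γ (k + 1) ^ 2 := by exact_mod_cast hs2
    have h3 := Complex.I_sq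
    field_simp
    linear_combination (Complex.I ^ 2) * h2 + ((γ k : ℂ) * γ (k + 2) - γ (k + 1) ^ 2) * h3)
  simp at hz
  rcases hz with h | h
  · exact hs0.ne' h
  · exact hpos.ne' h

theorem ratio_antitone (γ : ℕ → ℝ) (hγ : ∀ k, 0 < γ k) (hm : IsMultiplier γ) :
    Antitone (fun k => γ (k + 1) / γ k) := by
  apply antitone_nat_of_succ_le
  intro k
  show γ (k + 1 + 1) / γ (k + 1) ≤ γ (k + 1) / γ k
  rw [div_le_div_iff₀ (hγ _) (hγ _)]
  have := turan γ hγ hm k
  rw [show k + 1 + 1 = k + 2 by ring]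
  nlinarith

theorem ratio_limit (γ : ℕ → ℝ) (hγ : ∀ k, 0 < γ k) (hm : IsMultiplier γ) :
    ∃ σ : ℝ, 0 ≤ σ ∧ Tendsto (fun k => γ (k + 1) / γ k) atTop (𝓝 σ) := by
  have hb : BddBelow (range (fun k => γ (k + 1) / γ k)) := by
    refine ⟨0, ?_⟩
    rintro _ ⟨k, rfl⟩
    exact (div_pos (hγ _) (hγ _)).le
  refine ⟨_, ?_, tendsto_atTop_ciInf (ratio_antitone γ hγ hm) hb⟩
  apply le_ciInf
  intro k
  exact (div_pos (hγ _) (hγ _)).le

/-- the criterion with the existence of the limit -/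
theorem general (γ : ℕ → ℝ) (hγ : ∀ k, 0 < γ k) (hm : IsMultiplier γ) :
    ∃ σ : ℝ, 0 ≤ σ ∧ Tendsto (fun k => γ (k + 1) / γ k) atTop (𝓝 σ) ∧
      (0 < σ → (IsLambda (fun k => 1 / γ k) ↔ ∀ n k : ℕ,
        0 ≤ ∑ i ∈ Finset.range (n + 1), (-1) ^ i * (n.choose i : ℝ) * (σ ^ (k + i) / γ (k + i)))) := by
  obtain ⟨σ, h0, hlim⟩ := ratio_limit γ hγ hm
  exact ⟨σ, h0, hlim, fun hσ => crit_pos γ hγ hm σ hσ hlim⟩

end Pool.Agent.LAM55
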