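import Pool.Agent.H55.LAM.Suf

/-!
Totally monotone sequences give `λ`-sequences (Hausdorff's lemma).
-/

open Set Polynomial Filter Topology

namespace Pool.Agent.LAM55

theorem sum_choose_mul {R : Type*} [CommRing R] (y z : R) (n j : ℕ) (hj : j ≤ n) :
    ∑ k ∈ Finset.range (n + 1), ((n.choose k : R) * (k.choose j : R)) * y ^ k * z ^ (n - k)
      = (n.choose j : R) * y ^ j * (y + z) ^ (n - j) := by
  obtain ⟨M, rfl⟩ := Nat.exists_eq_add_of_le hj
  rw [show j + M + 1 = j + (M + 1) by ring, Finset.sum_range_add]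
  have h1 : ∑ k ∈ Finset.range j, (((j + M).choose k : R) * (k.choose j : R)) * y ^ k * z ^ (j + M - k) = 0 := by
    apply Finset.sum_eq_zero
    intro k hk
    rw [Nat.choose_eq_zero_of_lt (Finset.mem_range.1 hk)]
    simp
  rw [h1, zero_add, Nat.add_sub_cancel_left, add_pow, Finset.mul_sum]
  apply Finset.sum_congr rfl
  intro l hl
  have hl' : l ≤ M := Nat.lt_succ_iff.1 (Finset.mem_range.1 hl)
  have h2 : (j + M).choose (j + l) * (j + l).choose j = (j + M).choose j * M.choose l := by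
    have := Nat.choose_mul (n := j + M) (k := j + l) (s := j) (by omega)
    rw [this, Nat.add_sub_cancel_left, Nat.add_sub_cancel_left]
  have h3 : (((j + M).choose (j + l) : R) * ((j + l).choose j : R)) = ((j + M).choose j : R) * (M.choose l : R) := by
    exact_mod_cast congrArg (Nat.cast : ℕ → R) h2
  rw [h3, show j + M - (j + l) = M - l by omega, pow_add]
  ring

/-- the differences -/
noncomputable def dff (L : ℕ → ℝ) (n k : ℕ) : ℝ :=
  ∑ i ∈ Finset.range (n + 1), (-1) ^ i * (n.choose i : ℝ) * L (k + i)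

theorem lf_dff (L : ℕ → ℝ) (n k : ℕ) : lf L (X ^ k * (1 - X) ^ n) = dff L n k := by
  have h1 : (X ^ k * (1 - X) ^ n : ℝ[X]) = ∑ i ∈ Finset.range (n + 1), monomial (k + i) ((-1) ^ i * (n.choose i : ℝ)) := by
    rw [show (1 - X : ℝ[X]) = (-X) + 1 by ring, add_pow, Finset.mul_sum]
    apply Finset.sum_congr rfl
    intro i _
    rw [← C_mul_X_pow_eq_monomial, pow_add, C_mul, one_pow, mul_one, neg_pow]
    simp only [map_pow, map_neg, map_one, map_natCast]
    ring
  rw [h1, map_sum]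
  unfold dff
  apply Finset.sum_congr rfl
  intro i _
  rw [lf_monomial]; ring

theorem choose_step (i k : ℕ) : (i.choose (k + 1) : ℝ) * ((k : ℝ) + 1) = (i.choose k : ℝ) * ((i : ℝ) - k) := by
  rcases le_or_gt k i with h | h
  · have := Nat.choose_succ_right_eq i k
    have h2 : ((i.choose (k + 1) * (k + 1) : ℕ) : ℝ) = ((i.choose k * (i - k) : ℕ) : ℝ) := by rw [this]
    rw [Nat.cast_mul, Nat.cast_mul, Nat.cast_sub h] at h2
    push_cast at h2
    exact h2
  · rw [Nat.choose_eq_zero_of_lt h, Nat.choose_eq_zero_of_lt (by omega)]; simp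

theorem ratio_est (N k i : ℕ) (hk : k < N) (hi : i ≤ N) :
    |(i.choose k : ℝ) / (N.choose k : ℝ) - ((i : ℝ) / N) ^ k| ≤ (k : ℝ) ^ 2 / ((N : ℝ) - k) := by
  induction k with
  | zero => simp
  | succ k ih =>
    have hkN : k < N := by omega
    have h0 := ih hkN
    have hNk : (0:ℝ) < (N : ℝ) - k := by
      have : (k : ℝ) < N := by exact_mod_cast hkN
      linarith
    have hNk1 : (0:ℝ) < (N : ℝ) - ((k + 1 : ℕ) : ℝ) := by
      have : ((k + 1 : ℕ) : ℝ) < N := by exact_mod_cast hk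
      linarith
    have hN : (0:ℝ) < N := by
      have : 0 < N := by omega
      exact_mod_cast this
    have hc : (0:ℝ) < (N.choose k : ℝ) := by exact_mod_cast Nat.choose_pos hkN.le
    have hc1 : (0:ℝ) < (N.choose (k + 1) : ℝ) := by exact_mod_cast Nat.choose_pos hk.le
    have hk1 : (0:ℝ) < (k : ℝ) + 1 := by positivity
    have e1 : (i.choose (k + 1) : ℝ) / (N.choose (k + 1) : ℝ)
        = (i.choose k : ℝ) / (N.choose k : ℝ) * (((i : ℝ) - k) / ((N : ℝ) - k)) := by
      have h1 := choose_step i k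
      have h2 := choose_step N k
      rw [div_mul_div_comm, div_eq_div_iff hc1.ne' (mul_pos hc hNk).ne']
      have h3 : (i.choose (k + 1) : ℝ) * ((N.choose k : ℝ) * ((N : ℝ) - k)) = (i.choose (k + 1) : ℝ) * ((N.choose (k + 1) : ℝ) * ((k : ℝ) + 1)) := by
        rw [h2]
      rw [h3, ← h1]; ring
    have hT0 : 0 ≤ (i.choose k : ℝ) / (N.choose k : ℝ) := by positivity
    have hT1 : (i.choose k : ℝ) / (N.choose k : ℝ) ≤ 1 := by
      rw [div_le_one hc]; exact_mod_cast Nat.choose_le_choose k hi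
    have hi0 : 0 ≤ (i : ℝ) / N := by positivity
    have hi1 : (i : ℝ) / N ≤ 1 := by rw [div_le_one hN]; exact_mod_cast hi
    have e2 : ((i : ℝ) - k) / ((N : ℝ) - k) - (i : ℝ) / N = -(k * ((N : ℝ) - i) / (N * ((N : ℝ) - k))) := by
      field_simp
      ring
    have hiN : (0:ℝ) ≤ (N : ℝ) - i := by
      have : (i : ℝ) ≤ N := by exact_mod_cast hi
      linarith
    have e3 : |((i : ℝ) - k) / ((N : ℝ) - k) - (i : ℝ) / N| ≤ (k : ℝ) / ((N : ℝ) - k) := by
      rw [e2, abs_neg, abs_of_nonneg (by positivity), div_le_div_iff₀ (by positivity) hNk]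
      have h4 : (N : ℝ) - i ≤ N := by
        have : (0:ℝ) ≤ i := Nat.cast_nonneg i
        linarith
      have h5 : (k : ℝ) * ((N : ℝ) - i) ≤ k * N := mul_le_mul_of_nonneg_left h4 (Nat.cast_nonneg k)
      calc (k : ℝ) * ((N : ℝ) - i) * ((N : ℝ) - k) ≤ (k * N) * ((N : ℝ) - k) :=
            mul_le_mul_of_nonneg_right h5 hNk.le
        _ = k * (N * ((N : ℝ) - k)) := by ring
    have e4 : (i.choose (k + 1) : ℝ) / (N.choose (k + 1) : ℝ) - ((i : ℝ) / N) ^ (k + 1)
        = (i.choose k : ℝ) / (N.choose k : ℝ) * (((i : ℝ) - k) / ((N : ℝ) - k) - (i : ℝ) / N)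
          + (i : ℝ) / N * ((i.choose k : ℝ) / (N.choose k : ℝ) - ((i : ℝ) / N) ^ k) := by
      rw [e1]; ring
    rw [e4]
    have h6 : |(i.choose k : ℝ) / (N.choose k : ℝ) * (((i : ℝ) - k) / ((N : ℝ) - k) - (i : ℝ) / N)|
        ≤ (k : ℝ) / ((N : ℝ) - k) := by
      rw [abs_mul, abs_of_nonneg hT0]
      calc _ ≤ 1 * |((i : ℝ) - k) / ((N : ℝ) - k) - (i : ℝ) / N| :=
            mul_le_mul_of_nonneg_right hT1 (abs_nonneg _)
        _ ≤ _ := by rw [one_mul]; exact e3
    have h7 : |(i : ℝ) / N * ((i.choose k : ℝ) / (N.choose k : ℝ) - ((i : ℝ) / N) ^ k)|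
        ≤ (k : ℝ) ^ 2 / ((N : ℝ) - k) := by
      rw [abs_mul, abs_of_nonneg hi0]
      calc _ ≤ 1 * |(i.choose k : ℝ) / (N.choose k : ℝ) - ((i : ℝ) / N) ^ k| :=
            mul_le_mul_of_nonneg_right hi1 (abs_nonneg _)
        _ ≤ _ := by rw [one_mul]; exact h0
    have h8 : (k : ℝ) / ((N : ℝ) - k) + (k : ℝ) ^ 2 / ((N : ℝ) - k) ≤ ((k + 1 : ℕ) : ℝ) ^ 2 / ((N : ℝ) - ((k + 1 : ℕ) : ℝ)) := by
      rw [← add_div, div_le_div_iff₀ hNk hNk1]
      push_cast
      have h9 : (0:ℝ) ≤ k := Nat.cast_nonneg k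
      push_cast at hNk1
      nlinarith [mul_nonneg h9 hNk1.le]
    calc _ ≤ |(i.choose k : ℝ) / (N.choose k : ℝ) * (((i : ℝ) - k) / ((N : ℝ) - k) - (i : ℝ) / N)| +
          |(i : ℝ) / N * ((i.choose k : ℝ) / (N.choose k : ℝ) - ((i : ℝ) / N) ^ k)| := abs_add_le _ _
      _ ≤ (k : ℝ) / ((N : ℝ) - k) + (k : ℝ) ^ 2 / ((N : ℝ) - k) := add_le_add h6 h7
      _ ≤ _ := h8

theorem lf_pos_of_tm (L : ℕ → ℝ) (hD : ∀ n k : ℕ, 0 ≤ dff L n k) (p : ℝ[X])
    (hp : ∀ t ∈ Icc (0:ℝ) 1, 0 ≤ p.eval t) : 0 ≤ lf L p := by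
  set d := p.natDegree with hd
  have hL0 : 0 ≤ L 0 := by
    have := hD 0 0
    simpa [dff] using this
  set B : ℝ := ∑ k ∈ Finset.range (d + 1), |p.coeff k| with hB
  -- the moments through the weights
  have hw : ∀ N k : ℕ, k ≤ N → (N.choose k : ℝ) * L k =
      ∑ i ∈ Finset.range (N + 1), (i.choose k : ℝ) * ((N.choose i : ℝ) * dff L (N - i) i) := by
    intro N k hk
    have h1 := sum_choose_mul (X : ℝ[X]) (1 - X) N k hk
    rw [add_sub_cancel, one_pow, mul_one] at h1
    have h2 := congrArg (lf L) h1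
    rw [map_sum] at h2
    have h3 : lf L ((N.choose k : ℝ[X]) * X ^ k) = (N.choose k : ℝ) * L k := by
      rw [← nsmul_eq_mul, map_nsmul, lf_X_pow, nsmul_eq_mul]
    rw [h3] at h2
    rw [← h2]
    apply Finset.sum_congr rfl
    intro i _
    have h4 : ((N.choose i : ℝ[X]) * (i.choose k : ℝ[X])) * X ^ i * (1 - X) ^ (N - i)
        = ((N.choose i * i.choose k : ℕ) : ℝ[X]) * (X ^ i * (1 - X) ^ (N - i)) := by push_cast; ring
    rw [h4, ← nsmul_eq_mul, map_nsmul, lf_dff, nsmul_eq_mul]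
    push_cast; ring
  have key : ∀ N : ℕ, d < N → 0 ≤ lf L p + B * L 0 * ((d : ℝ) ^ 2 / ((N : ℝ) - d)) := by
    intro N hN
    have hNd : (0:ℝ) < (N : ℝ) - d := by
      have : (d : ℝ) < N := by exact_mod_cast hN
      linarith
    set w : ℕ → ℝ := fun i => (N.choose i : ℝ) * dff L (N - i) i with hwdef
    have hw0 : ∀ i, 0 ≤ w i := fun i => mul_nonneg (Nat.cast_nonneg _) (hD _ _)
    have hws : ∑ i ∈ Finset.range (N + 1), w i = L 0 := by
      have := hw N 0 (Nat.zero_le _)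
      simp only [Nat.choose_zero_right, Nat.cast_one, one_mul] at this
      exact this.symm
    have hLk : ∀ k, k ≤ d → L k = ∑ i ∈ Finset.range (N + 1), (i.choose k : ℝ) / (N.choose k : ℝ) * w i := by
      intro k hk
      have h1 := hw N k (by omega)
      have hc : (0:ℝ) < (N.choose k : ℝ) := by exact_mod_cast Nat.choose_pos (show k ≤ N by omega)
      rw [eq_comm, ← mul_left_inj' hc.ne', mul_comm (L k), h1, Finset.sum_mul]
      apply Finset.sum_congr rfl
      intro i _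
      field_simp
      simp only [hwdef]
      ring
    have h1 : lf L p = ∑ i ∈ Finset.range (N + 1), w i * ∑ k ∈ Finset.range (d + 1), p.coeff k * ((i.choose k : ℝ) / (N.choose k : ℝ)) := by
      rw [lf_apply]
      have h2 : ∀ k ∈ Finset.range (d + 1), L k * p.coeff k = ∑ i ∈ Finset.range (N + 1), w i * (p.coeff k * ((i.choose k : ℝ) / (N.choose k : ℝ))) := by
        intro k hk
        rw [hLk k (Nat.lt_succ_iff.1 (Finset.mem_range.1 hk)), Finset.sum_mul]
        apply Finset.sum_congr rfl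
        intro i _; ring
      rw [← hd, Finset.sum_congr rfl h2, Finset.sum_comm]
      apply Finset.sum_congr rfl
      intro i _
      rw [Finset.mul_sum]
    have h3 : ∀ i ∈ Finset.range (N + 1), w i * (-(B * ((d : ℝ) ^ 2 / ((N : ℝ) - d)))) ≤
        w i * ∑ k ∈ Finset.range (d + 1), p.coeff k * ((i.choose k : ℝ) / (N.choose k : ℝ)) := by
      intro i hi
      have hiN : i ≤ N := Nat.lt_succ_iff.1 (Finset.mem_range.1 hi)
      apply mul_le_mul_of_nonneg_left _ (hw0 i)
      have hN0 : (0:ℝ) < N := by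
        have : 0 < N := by omega
        exact_mod_cast this
      have h4 : 0 ≤ p.eval ((i : ℝ) / N) := hp _ ⟨by positivity, by rw [div_le_one hN0]; exact_mod_cast hiN⟩
      rw [eval_eq_sum_range, ← hd] at h4
      have h5 : |∑ k ∈ Finset.range (d + 1), p.coeff k * ((i.choose k : ℝ) / (N.choose k : ℝ)) -
          ∑ k ∈ Finset.range (d + 1), p.coeff k * ((i : ℝ) / N) ^ k| ≤ B * ((d : ℝ) ^ 2 / ((N : ℝ) - d)) := by
        rw [← Finset.sum_sub_distrib, hB, Finset.sum_mul]
        refine (Finset.abs_sum_le_sum_abs _ _).trans (Finset.sum_le_sum ?_)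
        intro k hk
        have hkd : k ≤ d := Nat.lt_succ_iff.1 (Finset.mem_range.1 hk)
        rw [← mul_sub, abs_mul]
        apply mul_le_mul_of_nonneg_left _ (abs_nonneg _)
        refine (ratio_est N k i (by omega) hiN).trans ?_
        have hkr : (k : ℝ) ≤ d := by exact_mod_cast hkd
        apply div_le_div₀ (by positivity) _ hNd (by linarith)
        exact pow_le_pow_left₀ (Nat.cast_nonneg _) hkr 2
      have h6 := (abs_le.1 h5).1
      linarith
    have h7 := Finset.sum_le_sum h3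
    rw [← Finset.sum_mul, hws, ← h1] at h7
    linarith
  have hlim : Tendsto (fun M : ℕ => lf L p + B * L 0 * ((d : ℝ) ^ 2 / (((d + 1 + M : ℕ) : ℝ) - d))) atTop
      (𝓝 (lf L p + B * L 0 * 0)) := by
    apply Tendsto.const_add
    apply Tendsto.const_mul
    have h8 : (fun M : ℕ => (d : ℝ) ^ 2 / (((d + 1 + M : ℕ) : ℝ) - d)) = fun M : ℕ => (d : ℝ) ^ 2 * (1 / ((M : ℝ) + 1)) := by
      funext M
      push_cast
      rw [show (d : ℝ) + 1 + M - d = (M : ℝ) + 1 by ring, div_eq_mul_one_div]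
    rw [h8, show (0:ℝ) = (d : ℝ) ^ 2 * 0 by ring]
    exact tendsto_one_div_add_atTop_nhds_zero_nat.const_mul _
  rw [mul_zero, add_zero] at hlim
  refine ge_of_tendsto hlim ?_
  filter_upwards with M
  exact key (d + 1 + M) (by omega)

theorem isLambda_of_tm (L : ℕ → ℝ) (hL : ∀ k, L k ≠ 0) (hD : ∀ n k : ℕ, 0 ≤ dff L n k) : IsLambda L := by
  refine ⟨hL, ?_⟩
  intro p hp x
  rw [act_eval]
  apply lf_pos_of_tm L hD
  intro t _
  rw [eval_comp]
  exact hp _

end Pool.Agent.LAM55
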