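import Pool.Agent.H55.LAM.Defs

open Polynomial

namespace Pool.Agent.LAM55

/-- a real polynomial is hyperbolic if all its complex zeros are real -/
def Hyp (p : ℝ[X]) : Prop := ∀ z : ℂ, aeval z p = 0 → z.im = 0

/-- multiplier sequence: `∑ γ_k a_k x^k` is hyperbolic whenever `∑ a_k x^k` is -/
def IsMultiplier (γ : ℕ → ℝ) : Prop := ∀ p : ℝ[X], Hyp p → Hyp (act γ p)

end Pool.Agent.LAM55
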