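import Pool.Agent.H55.LAM.Suf

/-!
Sufficiency by matching pairs of nonreal zeros with real zeros.
-/

open Set Polynomial

namespace Pool.Agent.LAM55

theorem isLambda_prod {α : Type*} (s : Finset α) (L : α → ℕ → ℝ) (h : ∀ i ∈ s, IsLambda (L i)) :
    IsLambda (fun k => ∏ i ∈ s, L i k) := by
  classical
  induction s using Finset.induction_on with
  | empty => simpa using isLambda_const 1 one_pos
  | insert a s ha ih =>
    have h1 := h a (Finset.mem_insert_self a s)
    have h2 := ih (fun i hi => h i (Finset.mem_insert_of_mem hi))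
    have h3 := h1.mul h2
    have : (fun k => ∏ i ∈ insert a s, L i k) = fun k => L a k * ∏ i ∈ s, L i k := by
      funext k; rw [Finset.prod_insert ha]
    rw [this]; exact h3

theorem isLambda_pair (a b c : ℝ) (ha : 0 < a) (hab : a ≤ b) :
    IsLambda (fun k : ℕ => 1 / (((k : ℝ) + a) * (((k : ℝ) + b) ^ 2 + c ^ 2))) := by
  by_cases hc : c = 0
  · have h1 := (isLambda_linear a ha).mul ((isLambda_linear b (by linarith)).mul (isLambda_linear b (by linarith)))
    have : (fun k : ℕ => 1 / (((k : ℝ) + a) * (((k : ℝ) + b) ^ 2 + c ^ 2))) =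
        fun k : ℕ => 1 / ((k : ℝ) + a) * (1 / ((k : ℝ) + b) * (1 / ((k : ℝ) + b))) := by
      funext k
      rw [hc]
      simp only [one_div, ne_eq, OfNat.ofNat_ne_zero, not_false_eq_true, zero_pow, add_zero, mul_inv]
      rw [pow_two, mul_inv]
    rw [this]; exact h1
  · have h1 := isLambda_cubic a b |c| ha hab (abs_pos.2 hc)
    simpa only [sq_abs] using h1

theorem matching {ι κ : Type} [Fintype ι] [Fintype κ] (C0 : ℝ) (hC : 0 < C0) (a : ι → ℝ) (b c : κ → ℝ)
    (ha : ∀ i, 0 < a i) (π : κ → ι) (hπ : Function.Injective π) (hab : ∀ j, a (π j) ≤ b j) :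
    IsLambda (fun k : ℕ => 1 / (C0 * (∏ i, ((k : ℝ) + a i)) * ∏ j, (((k : ℝ) + b j) ^ 2 + (c j) ^ 2))) := by
  classical
  have h1 := isLambda_prod (Finset.univ : Finset κ)
    (fun j k => 1 / (((k : ℝ) + a (π j)) * (((k : ℝ) + b j) ^ 2 + (c j) ^ 2)))
    (fun j _ => isLambda_pair _ _ _ (ha _) (hab j))
  have h2 := isLambda_prod ((Finset.univ : Finset ι).filter (fun i => i ∉ Finset.univ.image π))
    (fun i k => 1 / ((k : ℝ) + a i)) (fun i _ => isLambda_linear _ (ha i))
  have h3 := (isLambda_const (1 / C0) (by positivity)).mul (h2.mul h1)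
  have heq : ∀ k : ℕ, 1 / C0 * ((∏ i ∈ (Finset.univ : Finset ι).filter (fun i => i ∉ Finset.univ.image π), 1 / ((k : ℝ) + a i)) *
      ∏ j, 1 / (((k : ℝ) + a (π j)) * (((k : ℝ) + b j) ^ 2 + (c j) ^ 2)))
      = 1 / (C0 * (∏ i, ((k : ℝ) + a i)) * ∏ j, (((k : ℝ) + b j) ^ 2 + (c j) ^ 2)) := by
    intro k
    have e1 : ∏ i, ((k : ℝ) + a i) = (∏ i ∈ (Finset.univ : Finset ι).filter (fun i => i ∉ Finset.univ.image π), ((k : ℝ) + a i)) *
        ∏ j, ((k : ℝ) + a (π j)) := by
      have e2 : ∏ j, ((k : ℝ) + a (π j)) = ∏ i ∈ Finset.univ.image π, ((k : ℝ) + a i) := by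
        rw [Finset.prod_image]
        intro x _ y _ hxy; exact hπ hxy
      rw [e2]
      have e3 : (Finset.univ.image π) = (Finset.univ : Finset ι).filter (fun i => i ∈ Finset.univ.image π) := by
        ext i; simp
      rw [← Finset.prod_filter_mul_prod_filter_not (Finset.univ : Finset ι) (fun i => i ∉ Finset.univ.image π)]
      congr 1
      apply Finset.prod_congr _ (fun _ _ => rfl)
      ext i
      simp
    rw [e1, Finset.prod_div_distrib, Finset.prod_div_distrib, Finset.prod_mul_distrib]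
    simp only [Finset.prod_const_one, one_div, mul_inv]
    ring
  have : (fun k : ℕ => 1 / (C0 * (∏ i, ((k : ℝ) + a i)) * ∏ j, (((k : ℝ) + b j) ^ 2 + (c j) ^ 2))) =
      fun k : ℕ => 1 / C0 * ((∏ i ∈ (Finset.univ : Finset ι).filter (fun i => i ∉ Finset.univ.image π), 1 / ((k : ℝ) + a i)) *
      ∏ j, 1 / (((k : ℝ) + a (π j)) * (((k : ℝ) + b j) ^ 2 + (c j) ^ 2))) := by
    funext k; exact (heq k).symm
  rw [this]
  exact h3

end Pool.Agent.LAM55
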