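import Pool.Agent.H55.LAM.Mat

open Pool.Agent.LAM55

namespace Pool.Agent.H55.LAM.MatchingOld

/-- Sufficient condition in every degree: if the pairs of nonreal zeros `-b_j ± i c_j` of `h` can be
matched with distinct negative zeros `-a_i` of `h` with `a_i ≤ b_j`, and all real zeros are negative,
then `1/h(k)` is a `λ`-sequence. -/
theorem result {ι κ : Type} [Fintype ι] [Fintype κ] (C0 : ℝ) (hC : 0 < C0) (a : ι → ℝ)
    (b c : κ → ℝ) (ha : ∀ i, 0 < a i) (π : κ → ι) (hπ : Function.Injective π)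
    (hab : ∀ j, a (π j) ≤ b j) :
    IsLambda (fun k : ℕ =>
      1 / (C0 * (∏ i, ((k : ℝ) + a i)) * ∏ j, (((k : ℝ) + b j) ^ 2 + (c j) ^ 2))) :=
  matching C0 hC a b c ha π hπ hab

end Pool.Agent.H55.LAM.MatchingOld
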