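import Pool.Agent.H55.LAM.MDef
import Pool.Agent.H55.LAM.Haus

/-!
Multiplier sequences with ratio tending to one have nonnegative differences.
-/

open Set Polynomial Filter Topology

namespace Pool.Agent.LAM55

/-- the polynomials `∑ C(n,k) (-1)^(n-k) γ(m+k) x^k` -/
noncomputable def jf (γ : ℕ → ℝ) (n m : ℕ) : ℝ[X] :=
  ∑ k ∈ Finset.range (n + 1), monomial k ((-1) ^ (n - k) * (n.choose k : ℝ) * γ (m + k))

theorem jf_coeff (γ : ℕ → ℝ) (n m k : ℕ) :
    (jf γ n m).coeff k = (-1) ^ (n - k) * (n.choose k : ℝ) * γ (m + k) := by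
  unfold jf
  rw [finsetSum_coeff]
  simp only [coeff_monomial]
  rw [Finset.sum_ite_eq']
  split_ifs with h
  · rfl
  · rw [Nat.choose_eq_zero_of_lt (by simp only [Finset.mem_range, not_lt] at h; omega)]; simp

theorem jf_eval (γ : ℕ → ℝ) (n m : ℕ) (y : ℝ) :
    (jf γ n m).eval y = ∑ k ∈ Finset.range (n + 1), (-1) ^ (n - k) * (n.choose k : ℝ) * γ (m + k) * y ^ k := by
  unfold jf
  rw [eval_finsetSum]
  apply Finset.sum_congr rfl
  intro k _
  rw [eval_monomial]

theorem jf_one (n m : ℕ) : jf (fun _ => 1) n m = (X - 1) ^ n := by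
  unfold jf
  rw [sub_eq_add_neg, add_pow]
  apply Finset.sum_congr rfl
  intro k _
  rw [← C_mul_X_pow_eq_monomial]
  simp only [mul_one, map_mul, map_pow, map_neg, map_one, map_natCast]
  ring

theorem jf_act (γ : ℕ → ℝ) (n m : ℕ) : act γ (X ^ m * (X - 1) ^ n) = X ^ m * jf γ n m := by
  ext k
  rw [act_coeff, coeff_X_pow_mul', coeff_X_pow_mul', ← jf_one n 0]
  split_ifs with h
  · rw [jf_coeff, jf_coeff, Nat.add_sub_cancel' h]; ring
  · rw [mul_zero]

theorem jf_hyp (γ : ℕ → ℝ) (hm : IsMultiplier γ) (n m : ℕ) : Hyp (jf γ n m) := by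
  intro z hz
  have h1 : Hyp (X ^ m * (X - 1) ^ n : ℝ[X]) := by
    intro w hw
    simp only [map_mul, map_pow, aeval_X, map_sub, map_one, mul_eq_zero, pow_eq_zero_iff', ne_eq] at hw
    rcases hw with ⟨h, _⟩ | ⟨h, _⟩
    · rw [h]; simp
    · have : w = 1 := by linear_combination h
      rw [this]; simp
  have h2 := hm _ h1
  rw [jf_act] at h2
  apply h2
  rw [map_mul, hz, mul_zero]

theorem jf_degree (γ : ℕ → ℝ) (hγ : ∀ k, 0 < γ k) (n m : ℕ) : (jf γ n m).natDegree = n := by
  apply natDegree_eq_of_le_of_coeff_ne_zero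
  · unfold jf
    apply natDegree_sum_le_of_forall_le
    intro k hk
    refine (natDegree_monomial_le _).trans ?_
    exact Nat.lt_succ_iff.1 (Finset.mem_range.1 hk)
  · rw [jf_coeff]
    simp only [Nat.sub_self, pow_zero, Nat.choose_self, Nat.cast_one, mul_one, one_mul]
    exact (hγ _).ne'

theorem jf_lead (γ : ℕ → ℝ) (hγ : ∀ k, 0 < γ k) (n m : ℕ) : (jf γ n m).leadingCoeff = γ (m + n) := by
  rw [leadingCoeff, jf_degree γ hγ, jf_coeff]
  simp

theorem jf_ne (γ : ℕ → ℝ) (hγ : ∀ k, 0 < γ k) (n m : ℕ) : jf γ n m ≠ 0 := by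
  intro h
  have h1 := jf_lead γ hγ n m
  rw [h, leadingCoeff_zero] at h1
  exact (hγ _).ne h1

theorem jf_deriv (γ : ℕ → ℝ) (n m : ℕ) :
    derivative (jf γ (n + 1) m) = C ((n : ℝ) + 1) * jf γ n (m + 1) := by
  ext k
  rw [coeff_derivative, jf_coeff, coeff_C_mul, jf_coeff, Nat.add_sub_add_right, show m + (k + 1) = m + 1 + k by ring]
  have h := Nat.add_one_mul_choose_eq n k
  have h2 : ((n : ℝ) + 1) * (n.choose k : ℝ) = ((n + 1).choose (k + 1) : ℝ) * ((k : ℝ) + 1) := by
    exact_mod_cast congrArg (Nat.cast : ℕ → ℝ) h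
  linear_combination -(-1) ^ (n - k) * γ (m + 1 + k) * h2

theorem jf_pascal (γ : ℕ → ℝ) (n m : ℕ) : jf γ (n + 1) m = X * jf γ n (m + 1) - jf γ n m := by
  ext k
  rw [coeff_sub, jf_coeff, jf_coeff]
  cases k with
  | zero =>
    rw [coeff_X_mul_zero]
    simp only [Nat.sub_zero, Nat.choose_zero_right, Nat.cast_one, mul_one, add_zero, zero_sub, pow_succ]
    ring
  | succ k =>
    rw [coeff_X_mul, jf_coeff, Nat.add_sub_add_right, show m + (k + 1) = m + 1 + k by ring, Nat.choose_succ_succ, Nat.cast_add]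
    rcases Nat.lt_or_ge k n with h | h
    · have h3 : n - k = n - (k + 1) + 1 := by omega
      rw [h3, pow_succ]; ring
    · rw [Nat.choose_eq_zero_of_lt (show n < k + 1 by omega)]
      simp

theorem jf_pos_of_nonpos (γ : ℕ → ℝ) (hγ : ∀ k, 0 < γ k) (n m : ℕ) (y : ℝ) (hy : y ≤ 0) :
    0 < (-1) ^ n * (jf γ n m).eval y := by
  rw [jf_eval, Finset.mul_sum]
  have h1 : ∀ k ∈ Finset.range (n + 1), (-1 : ℝ) ^ n * ((-1) ^ (n - k) * (n.choose k : ℝ) * γ (m + k) * y ^ k)
      = (n.choose k : ℝ) * γ (m + k) * (-y) ^ k := by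
    intro k hk
    have hk' : k ≤ n := Nat.lt_succ_iff.1 (Finset.mem_range.1 hk)
    have h2 : (-1 : ℝ) ^ n * (-1) ^ (n - k) = (-1) ^ k := by
      rw [← pow_add]
      have : n + (n - k) = 2 * (n - k) + k := by omega
      rw [this, pow_add, pow_mul]; simp
    rw [neg_pow y]
    linear_combination ((n.choose k : ℝ) * γ (m + k) * y ^ k) * h2
  rw [Finset.sum_congr rfl h1]
  apply Finset.sum_pos'
  · intro k _
    exact mul_nonneg (mul_nonneg (Nat.cast_nonneg _) (hγ _).le) (pow_nonneg (by linarith) _)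
  · refine ⟨0, by simp, ?_⟩
    simp only [Nat.choose_zero_right, Nat.cast_one, one_mul, pow_zero, mul_one]
    exact hγ _

theorem hyp_splits (p : ℝ[X]) (hp : Hyp p) : p.Splits := by
  apply Splits.of_splits_map (algebraMap ℝ ℂ) (IsAlgClosed.splits _)
  intro a ha
  have h1 : aeval a p = 0 := by
    rw [aeval_def, ← eval_map]; exact (mem_roots'.1 ha).2
  have h2 := hp a h1
  exact ⟨a.re, by apply Complex.ext <;> simp [h2]⟩

/-- a polynomial with positive leading coefficient and no root on `[a,∞)` is positive there -/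
theorem pos_of_no_root (p : ℝ[X]) (hd : 0 < p.natDegree) (hl : 0 < p.leadingCoeff) (a : ℝ)
    (h : ∀ y, a ≤ y → p.eval y ≠ 0) (y : ℝ) (hy : a ≤ y) : 0 < p.eval y := by
  by_contra hle
  push Not at hle
  have h1 : Tendsto (fun x => p.eval x) atTop atTop :=
    p.tendsto_atTop_of_leadingCoeff_nonneg (natDegree_pos_iff_degree_pos.1 hd) hl.le
  obtain ⟨z, hz0, hz⟩ := ((h1.eventually_gt_atTop 0).and (eventually_ge_atTop y)).exists
  obtain ⟨w, hw, hw0⟩ := intermediate_value_Icc hz p.continuous.continuousOn ⟨hle, hz0.le⟩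
  exact h w (hy.trans hw.1) hw0

/-- roots move to the right -/
theorem root_up (γ : ℕ → ℝ) (hγ : ∀ k, 0 < γ k) (hm : IsMultiplier γ) (n m : ℕ) (hn : 1 ≤ n) (a : ℝ)
    (ha : 0 < a) (h0 : (jf γ n m).eval a = 0) : ∃ b, a ≤ b ∧ (jf γ n (m + 1)).eval b = 0 := by
  by_contra hno
  push Not at hno
  have hpos : ∀ y, a ≤ y → 0 < (jf γ n (m + 1)).eval y :=
    pos_of_no_root _ (by rw [jf_degree γ hγ]; omega) (by rw [jf_lead γ hγ]; exact hγ _) a hno
  set P := jf γ (n + 1) m with hP
  have hPd : ∀ y, P.derivative.eval y = ((n : ℝ) + 1) * (jf γ n (m + 1)).eval y := by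
    intro y; rw [hP, jf_deriv, eval_mul, eval_C]
  have hPa : P.eval a = a * (jf γ n (m + 1)).eval a := by
    rw [hP, jf_pascal, eval_sub, eval_mul, eval_X, h0, sub_zero]
  have hPa0 : 0 < P.eval a := by rw [hPa]; exact mul_pos ha (hpos a le_rfl)
  have hmono : MonotoneOn (fun y => P.eval y) (Ici a) := by
    apply monotoneOn_of_deriv_nonneg (convex_Ici a) P.continuous.continuousOn P.differentiable.differentiableOn
    intro y hy
    rw [interior_Ici] at hy
    rw [Polynomial.deriv, hPd]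
    exact mul_nonneg (by positivity) (hpos y (le_of_lt hy)).le
  have hPy : ∀ y, a ≤ y → 0 < P.eval y := fun y hy =>
    hPa0.trans_le (hmono (Set.mem_Ici.2 le_rfl) (Set.mem_Ici.2 hy) hy)
  have hPne : P ≠ 0 := jf_ne γ hγ (n + 1) m
  have hsplit : P.Splits := hyp_splits P (jf_hyp γ hm (n + 1) m)
  have hroot : ∀ r ∈ P.roots, 0 < r ∧ r < a := by
    intro r hr
    have hr0 : P.eval r = 0 := (mem_roots'.1 hr).2
    constructor
    · by_contra hle
      push Not at hle
      have := jf_pos_of_nonpos γ hγ (n + 1) m r hle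
      rw [← hP, hr0, mul_zero] at this
      exact lt_irrefl _ this
    · by_contra hge
      push Not at hge
      exact (hPy r hge).ne' hr0
  have hcard : Multiset.card P.roots = n + 1 := by
    rw [← hsplit.natDegree_eq_card_roots, hP, jf_degree γ hγ]
  have h1 := hsplit.eval_derivative_div_eval_of_ne_zero hPa0.ne'
  have h2 : P.derivative.eval a / P.eval a = ((n : ℝ) + 1) * (1 / a) := by
    rw [hPd, hPa]
    have := (hpos a le_rfl).ne'
    field_simp
  rw [h2] at h1
  have h3 : (P.roots.map fun _ => (1 / a : ℝ)).sum < (P.roots.map fun z => 1 / (a - z)).sum := by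
    apply Multiset.sum_lt_sum_of_nonempty
    · intro h; rw [h] at hcard; simp at hcard
    · intro r hr
      obtain ⟨hr1, hr2⟩ := hroot r hr
      apply one_div_lt_one_div_of_lt <;> linarith
  rw [Multiset.map_const', Multiset.sum_replicate, hcard, nsmul_eq_mul, ← h1] at h3
  push_cast at h3
  exact lt_irrefl _ h3

theorem ratio_lim (γ : ℕ → ℝ) (hγ : ∀ k, 0 < γ k)
    (hlim : Tendsto (fun k => γ (k + 1) / γ k) atTop (𝓝 1)) (j : ℕ) :
    Tendsto (fun m => γ (m + j) / γ m) atTop (𝓝 1) := by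
  induction j with
  | zero =>
    have : (fun m => γ (m + 0) / γ m) = fun _ => (1:ℝ) := by
      funext m; rw [add_zero, div_self (hγ m).ne']
    rw [this]; exact tendsto_const_nhds
  | succ j ih =>
    have h1 : Tendsto (fun m => γ (m + j + 1) / γ (m + j)) atTop (𝓝 1) :=
      hlim.comp (tendsto_add_atTop_nat j)
    have h2 := h1.mul ih
    rw [mul_one] at h2
    refine h2.congr ?_
    intro m
    have h3 := (hγ (m + j)).ne'
    have h4 := (hγ m).ne'
    rw [show m + (j + 1) = m + j + 1 by ring]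
    field_simp

/-- for large shift there is no root to the right of `a > 1` -/
theorem no_root_large (γ : ℕ → ℝ) (hγ : ∀ k, 0 < γ k)
    (hlim : Tendsto (fun k => γ (k + 1) / γ k) atTop (𝓝 1)) (n : ℕ) (a : ℝ) (ha : 1 < a) :
    ∃ m0, ∀ m, m0 ≤ m → ∀ y, a ≤ y → 0 < (jf γ n m).eval y := by
  set ε : ℝ := ((a - 1) / (a + 1)) ^ n / 2 with hε
  have hq : 0 < (a - 1) / (a + 1) := div_pos (by linarith) (by linarith)
  have hε0 : 0 < ε := by positivity
  have h1 : ∀ k ∈ Finset.range (n + 1), ∀ᶠ m in atTop, |γ (m + k) / γ (m + n) - 1| < ε := by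
    intro k _
    have h2 := (ratio_lim γ hγ hlim k).div (ratio_lim γ hγ hlim n) one_ne_zero
    rw [div_one] at h2
    have h3 := (Metric.tendsto_nhds.1 h2) ε hε0
    filter_upwards [h3] with m hm
    rw [Real.dist_eq] at hm
    have h4 : γ (m + k) / γ m / (γ (m + n) / γ m) = γ (m + k) / γ (m + n) := by
      have := (hγ m).ne'
      have := (hγ (m + n)).ne'
      field_simp
    simp only [Pi.div_apply] at hm
    rw [h4] at hm
    exact hm
  have h2 := (Filter.eventually_all_finset (Finset.range (n + 1))).2 h1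
  obtain ⟨m0, hm0⟩ := Filter.eventually_atTop.1 h2
  refine ⟨m0, fun m hm y hy => ?_⟩
  have hr := hm0 m hm
  have hγn := hγ (m + n)
  have hy1 : 1 < y := by linarith
  have h3 : (jf γ n m).eval y / γ (m + n) = (y - 1) ^ n +
      ∑ k ∈ Finset.range (n + 1), (-1) ^ (n - k) * (n.choose k : ℝ) * (γ (m + k) / γ (m + n) - 1) * y ^ k := by
    have h4 : (y - 1) ^ n = ∑ k ∈ Finset.range (n + 1), (-1) ^ (n - k) * (n.choose k : ℝ) * y ^ k := by
      rw [sub_eq_add_neg, add_pow]
      apply Finset.sum_congr rfl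
      intro k _; ring
    rw [h4, ← Finset.sum_add_distrib, jf_eval, Finset.sum_div]
    apply Finset.sum_congr rfl
    intro k _
    ring
  have h5 : |∑ k ∈ Finset.range (n + 1), (-1) ^ (n - k) * (n.choose k : ℝ) * (γ (m + k) / γ (m + n) - 1) * y ^ k|
      ≤ ε * (y + 1) ^ n := by
    have h6 : (y + 1) ^ n = ∑ k ∈ Finset.range (n + 1), (n.choose k : ℝ) * y ^ k := by
      rw [add_pow]
      apply Finset.sum_congr rfl
      intro k _; rw [one_pow]; ring
    rw [h6, Finset.mul_sum]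
    refine (Finset.abs_sum_le_sum_abs _ _).trans (Finset.sum_le_sum ?_)
    intro k hk
    rw [abs_mul, abs_mul, abs_mul, abs_pow, abs_neg, abs_one, one_pow, one_mul, Nat.abs_cast, abs_pow,
      abs_of_pos (by linarith : 0 < y)]
    have h7 := (hr k hk).le
    have h8 : 0 ≤ (n.choose k : ℝ) * y ^ k := by positivity
    calc (n.choose k : ℝ) * |γ (m + k) / γ (m + n) - 1| * y ^ k
        = |γ (m + k) / γ (m + n) - 1| * ((n.choose k : ℝ) * y ^ k) := by ring
      _ ≤ ε * ((n.choose k : ℝ) * y ^ k) := mul_le_mul_of_nonneg_right h7 h8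
  have h9 : ε * (y + 1) ^ n < (y - 1) ^ n := by
    have h10 : (a - 1) / (a + 1) ≤ (y - 1) / (y + 1) := by
      rw [div_le_div_iff₀ (by linarith) (by linarith)]; nlinarith
    have h11 : ((a - 1) / (a + 1)) ^ n ≤ ((y - 1) / (y + 1)) ^ n := pow_le_pow_left₀ hq.le h10 n
    have h12 : ε < ((y - 1) / (y + 1)) ^ n := by
      have : 0 < ((a - 1) / (a + 1)) ^ n := by positivity
      rw [hε]; linarith
    rw [div_pow, lt_div_iff₀ (by positivity)] at h12
    exact h12
  have h13 : 0 < (jf γ n m).eval y / γ (m + n) := by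
    rw [h3]
    have := (abs_le.1 h5).1
    linarith
  exact (div_pos_iff_of_pos_right hγn).1 h13

/-- nonnegative differences -/
theorem diff_nonneg (γ : ℕ → ℝ) (hγ : ∀ k, 0 < γ k) (hm : IsMultiplier γ)
    (hlim : Tendsto (fun k => γ (k + 1) / γ k) atTop (𝓝 1)) (n m : ℕ) : 0 ≤ (jf γ n m).eval 1 := by
  rcases Nat.eq_zero_or_pos n with hn | hn
  · subst hn
    rw [jf_eval]; simp; exact (hγ m).le
  have hno : ∀ a, 1 < a → (jf γ n m).eval a ≠ 0 := by
    intro a ha h0
    obtain ⟨m0, hm0⟩ := no_root_large γ hγ hlim n a ha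
    have hchain : ∀ j, ∃ b, a ≤ b ∧ (jf γ n (m + j)).eval b = 0 := by
      intro j
      induction j with
      | zero => exact ⟨a, le_rfl, h0⟩
      | succ j ih =>
        obtain ⟨b, hb, hb0⟩ := ih
        obtain ⟨b', hb', hb0'⟩ := root_up γ hγ hm n (m + j) hn b (by linarith) hb0
        exact ⟨b', hb.trans hb', hb0'⟩
    obtain ⟨b, hb, hb0⟩ := hchain m0
    exact (hm0 (m + m0) (by omega) b hb).ne' hb0
  have hpos : ∀ y, 1 < y → 0 < (jf γ n m).eval y := by
    intro y hy
    exact pos_of_no_root _ (by rw [jf_degree γ hγ]; exact hn) (by rw [jf_lead γ hγ]; exact hγ _) y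
      (fun w hw => hno w (by linarith)) y le_rfl
  have c1 : Tendsto (fun y : ℝ => (jf γ n m).eval y) (𝓝[>] 1) (𝓝 ((jf γ n m).eval 1)) :=
    ((jf γ n m).continuous.tendsto _).mono_left nhdsWithin_le_nhds
  apply ge_of_tendsto c1
  filter_upwards [self_mem_nhdsWithin] with y hy using (hpos y hy).le

end Pool.Agent.LAM55
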