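import Pool.Agent.H55.LAM.Nec

/-!
The necessary condition in full: domination on vertical lines and multiplicities.
-/

open Set Polynomial Filter Topology MeasureTheory

namespace Pool.Agent.LAM55

theorem aeval_ofReal' (H : ℝ[X]) (x : ℝ) : aeval (x : ℂ) H = ((H.eval x : ℝ) : ℂ) := by
  rw [show (x : ℂ) = algebraMap ℝ ℂ x from rfl, aeval_algebraMap_apply, aeval_def, eval₂_eq_eval_map]
  simp

theorem dom_aux2 (H : ℝ[X]) (hd : 0 < H.natDegree) (hH0 : 0 < H.eval 0)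
    (Lam : ℝ[X] →ₗ[ℝ] ℝ) (hpos : ∀ p : ℝ[X], (∀ t ∈ Icc (0:ℝ) 1, 0 ≤ p.eval t) → 0 ≤ Lam p)
    (hmom : ∀ k : ℕ, Lam (X ^ k) = 1 / H.eval (k : ℝ)) :
    ∃ A : ℝ, A < 0 ∧ H.eval A = 0 ∧ ∀ σ : ℝ, A < σ → 0 < H.eval σ ∧
      ∀ τ : ℝ, H.eval σ ≤ ‖aeval ((σ : ℂ) + τ * Complex.I) H‖ := by
  obtain ⟨A, hA0, hA1, hA2⟩ := dom_aux H hd hH0 Lam hpos hmom
  refine ⟨A, hA0, hA1, ?_⟩
  intro σ hσ
  have hv := vert H hd A hA2 Lam hpos hmom σ hσ
  have h0 : 0 < H.eval σ := by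
    have h1 : (0:ℝ) ≤ (H.eval σ)⁻¹ := (norm_nonneg _).trans (hv.1 0)
    have h2 : H.eval σ ≠ 0 := by
      intro h
      have := hA2 (σ : ℂ) (by rw [aeval_ofReal', h]; simp)
      simp at this; linarith
    exact lt_of_le_of_ne (inv_nonneg.1 h1) (Ne.symm h2)
  refine ⟨h0, ?_⟩
  intro τ
  have h2 := hv.1 τ
  rw [norm_inv] at h2
  have h3 : aeval ((σ : ℂ) + τ * Complex.I) H ≠ 0 := by
    intro h
    have := hA2 _ h
    simp at this; linarith
  exact (inv_le_inv₀ (norm_pos_iff.2 h3) h0).1 h2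

/-- ridge property of `1/h` -/
theorem nec_ridge (h : ℝ[X]) (hd : 0 < h.natDegree) (hpos : ∀ k : ℕ, 0 < h.eval (k : ℝ))
    (hl : IsLambda (fun k => 1 / h.eval (k : ℝ))) :
    ∃ ρ : ℝ, ρ < 0 ∧ h.eval ρ = 0 ∧ ∀ σ : ℝ, ρ < σ → 0 < h.eval σ ∧
      ∀ τ : ℝ, h.eval σ ≤ ‖aeval ((σ : ℂ) + τ * Complex.I) h‖ := by
  obtain ⟨M, hM⟩ := bdd_inv h hd
  set H : ℝ[X] := h.comp (C 2 * X) with hH
  have hHd : 0 < H.natDegree := by
    rw [hH, natDegree_comp, natDegree_C_mul_X 2 (by norm_num), mul_one]; exact hd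
  have hHe : ∀ x : ℝ, H.eval x = h.eval (2 * x) := by intro x; rw [hH, eval_comp]; simp
  have hHa : ∀ z : ℂ, aeval z H = aeval (2 * z) h := by
    intro z
    rw [hH, aeval_comp]
    congr 1
    rw [map_mul, aeval_C, aeval_X]
    norm_num
  obtain ⟨A, hA0, hA1, hA2⟩ := dom_aux2 H hHd (by rw [hHe]; simpa using hpos 0)
    (lf (fun k => 1 / h.eval ((2 * k : ℕ) : ℝ)))
    (fun p hp => lf_even_nonneg (fun k => 1 / h.eval (k : ℝ)) hl M hM p hp)
    (by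
      intro k
      rw [lf_X_pow, hHe]
      push_cast; rfl)
  refine ⟨2 * A, by linarith, by rw [← hHe]; exact hA1, ?_⟩
  intro σ hσ
  obtain ⟨h1, h2⟩ := hA2 (σ / 2) (by linarith)
  have e1 : 2 * (σ / 2) = σ := by ring
  rw [hHe, e1] at h1
  refine ⟨h1, ?_⟩
  intro τ
  have h3 := h2 (τ / 2)
  rw [hHe, e1, hHa] at h3
  have e2 : (2 : ℂ) * (((σ / 2 : ℝ) : ℂ) + ((τ / 2 : ℝ) : ℂ) * Complex.I) = (σ : ℂ) + τ * Complex.I := by
    push_cast; ring
  rw [e2] at h3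
  exact h3

/-- consequences for zeros and multiplicities -/
theorem ridge_zeros (h : ℝ[X]) (hne : h ≠ 0) (ρ : ℝ)
    (hr : ∀ σ : ℝ, ρ < σ → 0 < h.eval σ ∧ ∀ τ : ℝ, h.eval σ ≤ ‖aeval ((σ : ℂ) + τ * Complex.I) h‖) (z : ℂ)
    (hz : aeval z h = 0) : z.re ≤ ρ ∧
      (z.re = ρ → rootMultiplicity z (h.map (algebraMap ℝ ℂ)) ≤ rootMultiplicity ρ h) := by
  have hzz : (z.re : ℂ) + z.im * Complex.I = z := Complex.re_add_im z
  constructor
  · by_contra hlt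
    push Not at hlt
    obtain ⟨h1, h2⟩ := hr z.re hlt
    have h3 := h2 z.im
    rw [hzz, hz, norm_zero] at h3
    linarith
  · intro hzρ
    by_contra hmul
    push Not at hmul
    set m := rootMultiplicity ρ h with hm
    set n := rootMultiplicity z (h.map (algebraMap ℝ ℂ)) with hn
    have hmapne : h.map (algebraMap ℝ ℂ) ≠ 0 := by rw [Ne, Polynomial.map_eq_zero]; exact hne
    obtain ⟨q, hq, hq2⟩ := Polynomial.exists_eq_pow_rootMultiplicity_mul_and_not_dvd h hne ρ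
    obtain ⟨r, hr1⟩ := Polynomial.pow_rootMultiplicity_dvd (h.map (algebraMap ℝ ℂ)) z
    rw [← hn] at hr1
    rw [← hm] at hq
    have hqρ : q.eval ρ ≠ 0 := by
      intro h0; exact hq2 (dvd_iff_isRoot.2 h0)
    -- for ε > 0 : |q(ρ+ε)| ≤ ε^(n-m) |r(z+ε)|
    have key : ∀ ε : ℝ, 0 < ε → |q.eval (ρ + ε)| ≤ ε ^ (n - m) * ‖r.eval (z + ε)‖ := by
      intro ε hε
      obtain ⟨h1, h2⟩ := hr (ρ + ε) (by linarith)
      have h3 := h2 z.im
      have e1 : (((ρ + ε : ℝ) : ℂ) + z.im * Complex.I) = z + ε := by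
        rw [← hzρ]; push_cast
        conv_rhs => rw [← hzz]
        ring
      rw [e1, aeval_def, ← eval_map, hr1] at h3
      have e2 : h.eval (ρ + ε) = ε ^ m * q.eval (ρ + ε) := by
        conv_lhs => rw [hq]
        simp
      rw [eval_mul, eval_pow, eval_sub, eval_X, eval_C, norm_mul, norm_pow, add_sub_cancel_left,
        Complex.norm_real, Real.norm_eq_abs, abs_of_pos hε] at h3
      have h4 : |h.eval (ρ + ε)| = ε ^ m * |q.eval (ρ + ε)| := by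
        rw [e2, abs_mul, abs_of_pos (by positivity)]
      rw [← abs_of_pos h1, h4] at h3
      have h5 : ε ^ n = ε ^ m * ε ^ (n - m) := by
        rw [← pow_add]; congr 1; omega
      rw [h5, mul_assoc] at h3
      exact le_of_mul_le_mul_left h3 (by positivity)
    have c1 : Tendsto (fun ε : ℝ => |q.eval (ρ + ε)|) (𝓝[>] 0) (𝓝 (|q.eval (ρ + 0)|)) := by
      have : Continuous (fun ε : ℝ => |q.eval (ρ + ε)|) := (q.continuous.comp (by fun_prop)).abs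
      exact (this.tendsto 0).mono_left nhdsWithin_le_nhds
    have c2 : Tendsto (fun ε : ℝ => ε ^ (n - m) * ‖r.eval (z + ε)‖) (𝓝[>] 0)
        (𝓝 ((0:ℝ) ^ (n - m) * ‖r.eval (z + ((0:ℝ) : ℂ))‖)) := by
      have h1 : Continuous (fun ε : ℝ => ‖r.eval (z + ε)‖) := (r.continuous.comp (by fun_prop)).norm
      have : Continuous (fun ε : ℝ => ε ^ (n - m) * ‖r.eval (z + ε)‖) := (continuous_pow _).mul h1
      exact (this.tendsto 0).mono_left nhdsWithin_le_nhds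
    have h6 : |q.eval (ρ + 0)| ≤ (0:ℝ) ^ (n - m) * ‖r.eval (z + ((0:ℝ) : ℂ))‖ := by
      apply le_of_tendsto_of_tendsto c1 c2
      filter_upwards [self_mem_nhdsWithin] with ε hε using key ε hε
    rw [zero_pow (by omega), zero_mul, add_zero] at h6
    exact hqρ (abs_nonpos_iff.1 h6)

end Pool.Agent.LAM55
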